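import Mathlib

/-!
# Laurent series over noncommutative rings: coefficientwise maps, orders of vanishing
-/

namespace W_bec7e1

open HahnSeries

/-- The coefficientwise ring hom `R((t)) → R'((t))` induced by a ring hom `R → R'`. -/
def lmap {R R' : Type} [Ring R] [Ring R'] (f : R →+* R') : LaurentSeries R →+* LaurentSeries R' where
  toFun x := x.map f
  map_one' := HahnSeries.map_one f.toMonoidWithZeroHom
  map_zero' := by ext n; simp
  map_add' x y := by ext n; simp
  map_mul' x y := by
    exact HahnSeries.map_mul f.toNonUnitalRingHom (x := x) (y := y)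

@[simp] theorem lmap_coeff {R R' : Type} [Ring R] [Ring R'] (f : R →+* R') (x : LaurentSeries R)
    (n : ℤ) : (lmap f x).coeff n = f (x.coeff n) := rfl

@[simp] theorem lmap_single {R R' : Type} [Ring R] [Ring R'] (f : R →+* R') (n : ℤ) (a : R) :
    lmap f (single n a) = single n (f a) := by
  ext m
  rw [lmap_coeff, coeff_single, coeff_single]
  split_ifs <;> simp

theorem lmap_C {R R' : Type} [Ring R] [Ring R'] (f : R →+* R') (a : R) :
    lmap f (HahnSeries.C a) = HahnSeries.C (f a) := lmap_single f 0 a

theorem lmap_comp {R R' R'' : Type} [Ring R] [Ring R'] [Ring R''] (f : R →+* R') (g : R' →+* R'')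
    (x : LaurentSeries R) : lmap g (lmap f x) = lmap (g.comp f) x := by
  ext n; simp

theorem lmap_id {R : Type} [Ring R] (x : LaurentSeries R) : lmap (RingHom.id R) x = x := by
  ext n; simp

theorem lmap_injective {R R' : Type} [Ring R] [Ring R'] (f : R →+* R')
    (hf : Function.Injective f) : Function.Injective (lmap f) := by
  intro x y h
  ext n
  apply hf
  have := congrArg (fun s => s.coeff n) h
  simpa using this

/-- `x` vanishes to order at least `n`. -/
def lge {R : Type} [Ring R] (n : ℤ) (x : LaurentSeries R) : Prop := ∀ m < n, x.coeff m = 0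

theorem lge_zero {R : Type} [Ring R] (n : ℤ) : lge n (0 : LaurentSeries R) := by
  intro m _; simp

theorem lge.mono {R : Type} [Ring R] {n m : ℤ} {x : LaurentSeries R} (h : lge n x) (hm : m ≤ n) :
    lge m x := fun l hl => h l (lt_of_lt_of_le hl hm)

theorem lge.add {R : Type} [Ring R] {n : ℤ} {x y : LaurentSeries R} (hx : lge n x)
    (hy : lge n y) : lge n (x + y) := by
  intro m hm; simp [hx m hm, hy m hm]

theorem lge.neg {R : Type} [Ring R] {n : ℤ} {x : LaurentSeries R} (hx : lge n x) :
    lge n (-x) := by
  intro m hm; simp [hx m hm]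

theorem lge.sub {R : Type} [Ring R] {n : ℤ} {x y : LaurentSeries R} (hx : lge n x)
    (hy : lge n y) : lge n (x - y) := by
  intro m hm; simp [hx m hm, hy m hm]

theorem lge_single {R : Type} [Ring R] (n : ℤ) (a : R) : lge n (single n a : LaurentSeries R) := by
  intro m hm
  rw [coeff_single, if_neg (ne_of_lt hm)]

theorem lge_one {R : Type} [Ring R] : lge 0 (1 : LaurentSeries R) := by
  intro m hm
  rw [coeff_one, if_neg (ne_of_lt hm)]

theorem lge_lmap {R R' : Type} [Ring R] [Ring R'] (f : R →+* R') {n : ℤ} {x : LaurentSeries R}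
    (hx : lge n x) : lge n (lmap f x) := by
  intro m hm; simp [hx m hm]

/-- every Laurent series vanishes to some order -/
theorem exists_lge {R : Type} [Ring R] (x : LaurentSeries R) : ∃ n : ℤ, lge n x :=
  ⟨x.order, fun _ hm => coeff_eq_zero_of_lt_order hm⟩

/-- a nonzero Laurent series has a lowest term -/
theorem exists_lowest {R : Type} [Ring R] {x : LaurentSeries R} (hx : x ≠ 0) :
    ∃ n : ℤ, lge n x ∧ x.coeff n ≠ 0 :=
  ⟨x.order, fun _ hm => coeff_eq_zero_of_lt_order hm, fun h => hx (coeff_order_eq_zero.1 h)⟩

theorem coeff_mul_of_lt {R : Type} [Ring R] {n m : ℤ} {x y : LaurentSeries R} (hx : lge n x)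
    (hy : lge m y) {l : ℤ} (hl : l < n + m) : (x * y).coeff l = 0 := by
  rw [coeff_mul]
  apply Finset.sum_eq_zero
  rintro ⟨i, j⟩ hij
  rw [Finset.mem_antidiagonal] at hij
  obtain ⟨_, _, h3⟩ := hij
  simp only at h3 ⊢
  by_cases h : i < n
  · rw [hx i h, zero_mul]
  · rw [hy j (by omega), mul_zero]

theorem lge.mul {R : Type} [Ring R] {n m : ℤ} {x y : LaurentSeries R} (hx : lge n x)
    (hy : lge m y) : lge (n + m) (x * y) := fun _ hl => coeff_mul_of_lt hx hy hl

theorem coeff_mul_lowest {R : Type} [Ring R] {n m : ℤ} {x y : LaurentSeries R} (hx : lge n x)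
    (hy : lge m y) : (x * y).coeff (n + m) = x.coeff n * y.coeff m := by
  rw [coeff_mul]
  by_cases h : x.coeff n = 0 ∨ y.coeff m = 0
  · rw [Finset.sum_eq_zero]
    · rcases h with h | h <;> simp [h]
    rintro ⟨i, j⟩ hij
    rw [Finset.mem_antidiagonal] at hij
    obtain ⟨_, _, h3⟩ := hij
    simp only at h3 ⊢
    rcases lt_trichotomy i n with h' | h' | h'
    · rw [hx i h', zero_mul]
    · subst h'
      have : j = m := by omega
      subst this
      rcases h with h | h <;> simp [h]
    · rw [hy j (by omega), mul_zero]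
  · push Not at h
    rw [Finset.sum_eq_single (n, m)]
    · rintro ⟨i, j⟩ hij hne
      rw [Finset.mem_antidiagonal] at hij
      obtain ⟨_, _, h3⟩ := hij
      simp only at h3 ⊢
      rcases lt_trichotomy i n with h' | h' | h'
      · rw [hx i h', zero_mul]
      · subst h'
        have : j = m := by omega
        subst this
        exact absurd rfl hne
      · rw [hy j (by omega), mul_zero]
    · intro h'
      exfalso
      apply h'
      rw [Finset.mem_antidiagonal]
      exact ⟨h.1, h.2, rfl⟩

theorem lge_lowest_unique {R : Type} [Ring R] {n m : ℤ} {x : LaurentSeries R} (hn : lge n x)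
    (hn' : x.coeff n ≠ 0) (hm : lge m x) (hm' : x.coeff m ≠ 0) : n = m := by
  rcases lt_trichotomy n m with h | h | h
  · exact absurd (hm n h) hn'
  · exact h
  · exact absurd (hn m h) hm'

/-- Laurent series over a domain form a domain. -/
theorem laurent_noZeroDivisors {R : Type} [Ring R] [NoZeroDivisors R] {x y : LaurentSeries R}
    (h : x * y = 0) : x = 0 ∨ y = 0 := by
  by_contra hc
  push Not at hc
  obtain ⟨n, hn, hn'⟩ := exists_lowest hc.1
  obtain ⟨m, hm, hm'⟩ := exists_lowest hc.2
  have := coeff_mul_lowest hn hm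
  rw [h] at this
  simp only [coeff_zero] at this
  exact mul_ne_zero hn' hm' this.symm

theorem coeff_mul_single' {R : Type} [Ring R] (x : LaurentSeries R) (n m : ℤ) (a : R) :
    (x * single n a).coeff (m + n) = x.coeff m * a := by
  exact coeff_mul_single_add

theorem coeff_single_mul' {R : Type} [Ring R] (x : LaurentSeries R) (n m : ℤ) (a : R) :
    (single n a * x).coeff (m + n) = a * x.coeff m := by
  exact coeff_single_mul_add

end W_bec7e1
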