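import Mathlib

/-!
# Quadratic (skew) extensions of a ring

`QExt S` is the ring `A ⊕ A z` with `z x = φ(x) z` and `z ^ 2 = b`, where `φ : A →+* A`,
`φ b = b` and `φ (φ x) * b = b * x`.
-/

namespace W_bec7e1

/-- The data `(φ, b)` of a quadratic skew extension of the ring `A`. -/
structure QData (A : Type) [Ring A] where
  φ : A →+* A
  b : A
  φb : φ b = b
  φφ : ∀ x, φ (φ x) * b = b * x

/-- The ring `A ⊕ A z`, `z x = φ(x) z`, `z ^ 2 = b`. -/
@[ext]
structure QExt {A : Type} [Ring A] (S : QData A) where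
  re : A
  im : A

namespace QExt

variable {A : Type} [Ring A] {S : QData A}

instance : Zero (QExt S) := ⟨⟨0, 0⟩⟩
instance : One (QExt S) := ⟨⟨1, 0⟩⟩
instance : Add (QExt S) := ⟨fun x y => ⟨x.re + y.re, x.im + y.im⟩⟩
instance : Neg (QExt S) := ⟨fun x => ⟨-x.re, -x.im⟩⟩
instance : Sub (QExt S) := ⟨fun x y => ⟨x.re - y.re, x.im - y.im⟩⟩
instance : Mul (QExt S) := ⟨fun x y =>
  ⟨x.re * y.re + x.im * S.φ y.im * S.b, x.re * y.im + x.im * S.φ y.re⟩⟩

@[simp] theorem zero_re : (0 : QExt S).re = 0 := rfl
@[simp] theorem zero_im : (0 : QExt S).im = 0 := rfl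
@[simp] theorem one_re : (1 : QExt S).re = 1 := rfl
@[simp] theorem one_im : (1 : QExt S).im = 0 := rfl
@[simp] theorem add_re (x y : QExt S) : (x + y).re = x.re + y.re := rfl
@[simp] theorem add_im (x y : QExt S) : (x + y).im = x.im + y.im := rfl
@[simp] theorem neg_re (x : QExt S) : (-x).re = -x.re := rfl
@[simp] theorem neg_im (x : QExt S) : (-x).im = -x.im := rfl
@[simp] theorem sub_re (x y : QExt S) : (x - y).re = x.re - y.re := rfl
@[simp] theorem sub_im (x y : QExt S) : (x - y).im = x.im - y.im := rfl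
@[simp] theorem mul_re (x y : QExt S) :
    (x * y).re = x.re * y.re + x.im * S.φ y.im * S.b := rfl
@[simp] theorem mul_im (x y : QExt S) : (x * y).im = x.re * y.im + x.im * S.φ y.re := rfl

instance instAddCommGroup : AddCommGroup (QExt S) where
  add_assoc x y z := by ext <;> simp [add_assoc]
  zero_add x := by ext <;> simp
  add_zero x := by ext <;> simp
  add_comm x y := by ext <;> simp [add_comm]
  neg_add_cancel x := by ext <;> simp
  sub_eq_add_neg x y := by ext <;> simp [sub_eq_add_neg]
  nsmul := nsmulRec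
  zsmul := zsmulRec

instance instRing : Ring (QExt S) where
  __ := instAddCommGroup
  left_distrib x y z := by ext <;> simp [mul_add, add_mul] <;> abel
  right_distrib x y z := by ext <;> simp [mul_add, add_mul] <;> abel
  zero_mul x := by ext <;> simp
  mul_zero x := by ext <;> simp
  mul_assoc x y z := by
    ext
    · simp only [mul_re, mul_im, mul_add, add_mul, map_add, map_mul]
      have h := S.φφ z.re
      have e1 : x.im * S.φ y.im * S.b * z.re = x.im * S.φ y.im * S.φ (S.φ z.re) * S.b := by
        rw [mul_assoc (x.im * S.φ y.im) S.b, ← h, ← mul_assoc]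
      rw [e1]
      simp only [mul_assoc]
      abel
    · simp only [mul_re, mul_im, mul_add, add_mul, map_add, map_mul, S.φb]
      have h := S.φφ z.im
      have e1 : x.im * S.φ y.im * S.b * z.im = x.im * S.φ y.im * S.φ (S.φ z.im) * S.b := by
        rw [mul_assoc (x.im * S.φ y.im) S.b, ← h, ← mul_assoc]
      rw [e1]
      simp only [mul_assoc]
      abel
  one_mul x := by ext <;> simp
  mul_one x := by ext <;> simp

instance [Nontrivial A] : Nontrivial (QExt S) :=
  ⟨⟨0, 1, fun h => zero_ne_one (α := A) (congrArg QExt.re h)⟩⟩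

/-- The inclusion `A → A ⊕ A z`. -/
def of (S : QData A) : A →+* QExt S where
  toFun x := ⟨x, 0⟩
  map_one' := rfl
  map_zero' := rfl
  map_add' x y := by ext <;> simp
  map_mul' x y := by ext <;> simp

/-- The generator `z`. -/
def z (S : QData A) : QExt S := ⟨0, 1⟩

@[simp] theorem of_re (x : A) : (of S x).re = x := rfl
@[simp] theorem of_im (x : A) : (of S x).im = 0 := rfl
@[simp] theorem z_re : (z S).re = 0 := rfl
@[simp] theorem z_im : (z S).im = 1 := rfl

theorem of_injective : Function.Injective (of S) := fun _ _ h => congrArg QExt.re h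

theorem z_mul_of (x : A) : z S * of S x = of S (S.φ x) * z S := by ext <;> simp

theorem z_mul_z : z S * z S = of S S.b := by ext <;> simp

theorem eq_of_add (x : QExt S) : x = of S x.re + of S x.im * z S := by ext <;> simp

/-- Two ring homs out of `QExt S` agreeing on `A` and on `z` are equal. -/
theorem ringHom_ext {R : Type} [Ring R] {f g : QExt S →+* R}
    (h1 : ∀ x, f (of S x) = g (of S x)) (h2 : f (z S) = g (z S)) : f = g := by
  ext x
  rw [eq_of_add x]
  simp [h1, h2]

/-- The universal property of `QExt S`. -/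
def lift {R : Type} [Ring R] (f : A →+* R) (w : R)
    (hw : ∀ x, w * f x = f (S.φ x) * w) (hb : w * w = f S.b) : QExt S →+* R where
  toFun x := f x.re + f x.im * w
  map_one' := by simp
  map_zero' := by simp
  map_add' x y := by simp [add_mul]; abel
  map_mul' x y := by
    simp only [mul_re, mul_im, map_add, map_mul, mul_add, add_mul]
    have e1 : f x.re * (f y.im * w) = f x.re * f y.im * w := by rw [mul_assoc]
    have e2 : f x.im * w * f y.re = f x.im * f (S.φ y.re) * w := by
      rw [mul_assoc, hw, mul_assoc]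
    have e3 : f x.im * w * (f y.im * w) = f x.im * f (S.φ y.im) * f S.b := by
      calc f x.im * w * (f y.im * w) = f x.im * (w * f y.im) * w := by simp only [mul_assoc]
        _ = f x.im * f (S.φ y.im) * (w * w) := by rw [hw]; simp only [mul_assoc]
        _ = _ := by rw [hb]
    rw [e1, e2, e3]
    abel

@[simp] theorem lift_of {R : Type} [Ring R] (f : A →+* R) (w : R)
    (hw : ∀ x, w * f x = f (S.φ x) * w) (hb : w * w = f S.b) (x : A) :
    lift (S := S) f w hw hb (of S x) = f x := by simp [lift]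

@[simp] theorem lift_z {R : Type} [Ring R] (f : A →+* R) (w : R)
    (hw : ∀ x, w * f x = f (S.φ x) * w) (hb : w * w = f S.b) :
    lift (S := S) f w hw hb (z S) = w := by simp [lift]

/-- Extension of an endomorphism `ψ` of `A` to `A ⊕ A z` by `z ↦ q z`. -/
def ext' (ψ : A →+* A) (q : A) (h1 : ∀ x, q * S.φ (ψ x) = ψ (S.φ x) * q)
    (h2 : q * S.φ q * S.b = ψ S.b) : QExt S →+* QExt S :=
  lift (S := S) ((of S).comp ψ) (of S q * z S)
    (fun x => by
      rw [RingHom.comp_apply, RingHom.comp_apply, mul_assoc, z_mul_of, ← mul_assoc, ← mul_assoc,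
        ← map_mul, ← map_mul, h1])
    (by
      rw [RingHom.comp_apply, ← h2]
      calc of S q * z S * (of S q * z S) = of S q * (z S * of S q) * z S := by
            simp only [mul_assoc]
        _ = of S q * of S (S.φ q) * (z S * z S) := by rw [z_mul_of]; simp only [mul_assoc]
        _ = _ := by rw [z_mul_z, map_mul, map_mul])

@[simp] theorem ext'_of (ψ : A →+* A) (q : A) (h1 : ∀ x, q * S.φ (ψ x) = ψ (S.φ x) * q)
    (h2 : q * S.φ q * S.b = ψ S.b) (x : A) : ext' (S := S) ψ q h1 h2 (of S x) = of S (ψ x) := by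
  simp [ext']

@[simp] theorem ext'_z (ψ : A →+* A) (q : A) (h1 : ∀ x, q * S.φ (ψ x) = ψ (S.φ x) * q)
    (h2 : q * S.φ q * S.b = ψ S.b) : ext' (S := S) ψ q h1 h2 (z S) = of S q * z S := by
  simp [ext']

theorem ext'_re (ψ : A →+* A) (q : A) (h1 : ∀ x, q * S.φ (ψ x) = ψ (S.φ x) * q)
    (h2 : q * S.φ q * S.b = ψ S.b) (x : QExt S) : (ext' (S := S) ψ q h1 h2 x).re = ψ x.re := by
  simp [ext', lift]

theorem ext'_im (ψ : A →+* A) (q : A) (h1 : ∀ x, q * S.φ (ψ x) = ψ (S.φ x) * q)
    (h2 : q * S.φ q * S.b = ψ S.b) (x : QExt S) :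
    (ext' (S := S) ψ q h1 h2 x).im = ψ x.im * q := by
  simp [ext', lift]

end QExt

end W_bec7e1
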