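import Mathlib
import Pool.Agent.W_bec7e1.QExt
import Pool.Agent.W_bec7e1.Laurent

/-!
# One twisted Laurent level

For a `k`-algebra `C`, a `k`-algebra endomorphism `φ` and `b ∈ C` with `φ b = b`,
`φ (φ x) b = b x`, the ring `QExt S.toQ = C((t)) ⊕ C((t)) z`, `z x = φ(x) z`, `z ^ 2 = b t`,
an algebra over `k((t))`.
-/

namespace W_bec7e1

open HahnSeries

noncomputable section

/-- The data of a level. -/
structure LData (k C : Type) [Field k] [Ring C] [Algebra k C] where
  φ : C →ₐ[k] C
  b : C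
  φb : φ b = b
  φφ : ∀ x, φ (φ x) * b = b * x
  b0 : b ≠ 0

theorem lmap_comm {R R' : Type} [Ring R] [Ring R'] (f : R →+* R')
    (hf : ∀ a x, f a * x = x * f a) (c : LaurentSeries R) (x : LaurentSeries R') :
    lmap f c * x = x * lmap f c := by
  ext n
  rw [coeff_mul, coeff_mul]
  refine Finset.sum_bij' (fun p _ => (p.2, p.1)) (fun p _ => (p.2, p.1)) ?_ ?_ ?_ ?_ ?_
  · rintro ⟨i, j⟩ hij
    rw [Finset.mem_antidiagonal] at hij ⊢
    obtain ⟨h1, h2, h3⟩ := hij
    exact ⟨h2, h1, by simp only at h3 ⊢; omega⟩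
  · rintro ⟨i, j⟩ hij
    rw [Finset.mem_antidiagonal] at hij ⊢
    obtain ⟨h1, h2, h3⟩ := hij
    exact ⟨h2, h1, by simp only at h3 ⊢; omega⟩
  · rintro ⟨i, j⟩ _; rfl
  · rintro ⟨i, j⟩ _; rfl
  · rintro ⟨i, j⟩ _
    simp only [lmap_coeff]
    exact hf _ _

namespace LData

variable {k C : Type} [Field k] [Ring C] [Algebra k C] (S : LData k C)

/-- The quadratic datum over `C((t))`. -/
def toQ : QData (LaurentSeries C) where
  φ := lmap (S.φ : C →+* C)
  b := single 1 S.b
  φb := by rw [lmap_single]; congr 1; exact S.φb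
  φφ x := by
    ext n
    have e : n = (n - 1) + 1 := by ring
    rw [e, coeff_mul_single', coeff_single_mul']
    simp only [lmap_coeff]
    exact S.φφ _

/-- The structure map `k((t)) → C((t)) ⊕ C((t)) z`. -/
def algHom : LaurentSeries k →+* QExt S.toQ := (QExt.of S.toQ).comp (lmap (algebraMap k C))

theorem algHom_comm (c : LaurentSeries k) (x : QExt S.toQ) :
    S.algHom c * x = x * S.algHom c := by
  have hc : ∀ y : LaurentSeries C, lmap (algebraMap k C) c * y = y * lmap (algebraMap k C) c :=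
    lmap_comm _ (fun a x => Algebra.commutes a x) c
  have hφ : S.toQ.φ (lmap (algebraMap k C) c) = lmap (algebraMap k C) c := by
    ext n
    change S.φ (algebraMap k C (c.coeff n)) = _
    rw [AlgHom.commutes]
    rfl
  ext1
  · simp only [algHom, RingHom.comp_apply, QExt.mul_re, QExt.of_re, QExt.of_im, zero_mul, add_zero,
      map_zero, mul_zero]
    exact hc _
  · simp only [algHom, RingHom.comp_apply, QExt.mul_im, QExt.of_re, QExt.of_im, zero_mul, add_zero,
      mul_zero, zero_add, hφ]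
    exact hc _

instance instAlgebra : Algebra (LaurentSeries k) (QExt S.toQ) :=
  (S.algHom).toAlgebra' S.algHom_comm

theorem algebraMap_eq (c : LaurentSeries k) :
    algebraMap (LaurentSeries k) (QExt S.toQ) c = QExt.of S.toQ (lmap (algebraMap k C) c) := rfl

theorem smul_eq (c : LaurentSeries k) (x : QExt S.toQ) :
    c • x = QExt.of S.toQ (lmap (algebraMap k C) c) * x := by
  rw [Algebra.smul_def, algebraMap_eq]

variable {S}

/-- The coefficient of `z ^ n` (where `z ^ (2 m) = (b t) ^ m` is read as `t ^ m`). -/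
def cf (d : QExt S.toQ) (n : ℤ) : C := if Even n then d.re.coeff (n / 2) else d.im.coeff (n / 2)

/-- `d` has valuation at least `n` (`t` has valuation 2, `z` has valuation 1). -/
def dge (n : ℤ) (d : QExt S.toQ) : Prop := ∀ m < n, cf d m = 0

theorem cf_even (d : QExt S.toQ) (n : ℤ) : cf d (2 * n) = d.re.coeff n := by
  simp [cf]

theorem cf_odd (d : QExt S.toQ) (n : ℤ) : cf d (2 * n + 1) = d.im.coeff n := by
  have h : ¬ Even (2 * n + 1) := by simp
  rw [cf, if_neg h]
  congr 1
  omega

@[simp] theorem cf_zero (n : ℤ) : cf (0 : QExt S.toQ) n = 0 := by simp [cf]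
@[simp] theorem cf_add (x y : QExt S.toQ) (n : ℤ) : cf (x + y) n = cf x n + cf y n := by
  unfold cf; split_ifs <;> simp
@[simp] theorem cf_neg (x : QExt S.toQ) (n : ℤ) : cf (-x) n = -cf x n := by
  unfold cf; split_ifs <;> simp
@[simp] theorem cf_sub (x y : QExt S.toQ) (n : ℤ) : cf (x - y) n = cf x n - cf y n := by
  unfold cf; split_ifs <;> simp

theorem dge_iff (n : ℤ) (d : QExt S.toQ) :
    dge n d ↔ lge ((n + 1) / 2) d.re ∧ lge (n / 2) d.im := by
  constructor
  · intro h
    refine ⟨fun m hm => ?_, fun m hm => ?_⟩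
    · rw [← cf_even]; exact h _ (by omega)
    · rw [← cf_odd]; exact h _ (by omega)
  · rintro ⟨h1, h2⟩ m hm
    rcases Int.even_or_odd' m with ⟨l, rfl | rfl⟩
    · rw [cf_even]; exact h1 _ (by omega)
    · rw [cf_odd]; exact h2 _ (by omega)

theorem dge_zero (n : ℤ) : dge n (0 : QExt S.toQ) := fun m _ => cf_zero m

theorem dge.mono {n m : ℤ} {d : QExt S.toQ} (h : dge n d) (hm : m ≤ n) : dge m d :=
  fun l hl => h l (lt_of_lt_of_le hl hm)

theorem dge.add {n : ℤ} {x y : QExt S.toQ} (hx : dge n x) (hy : dge n y) : dge n (x + y) := by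
  intro m hm; simp [hx m hm, hy m hm]

theorem dge.neg {n : ℤ} {x : QExt S.toQ} (hx : dge n x) : dge n (-x) := by
  intro m hm; simp [hx m hm]

theorem dge.sub {n : ℤ} {x y : QExt S.toQ} (hx : dge n x) (hy : dge n y) : dge n (x - y) := by
  intro m hm; simp [hx m hm, hy m hm]

theorem dge.sum {ι : Type} {n : ℤ} (s : Finset ι) (f : ι → QExt S.toQ)
    (h : ∀ i ∈ s, dge n (f i)) : dge n (∑ i ∈ s, f i) := by
  classical
  induction s using Finset.induction_on with
  | empty => simpa using dge_zero n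
  | insert a s ha ih =>
    rw [Finset.sum_insert ha]
    exact (h a (Finset.mem_insert_self a s)).add
      (ih fun i hi => h i (Finset.mem_insert_of_mem hi))

variable (S) in
/-- The `n`-th power of the twist (it only matters modulo 2). -/
def tw (n : ℤ) (x : C) : C := if Even n then x else S.φ x

variable (S) in
/-- The correction factor. -/
def bf (n m : ℤ) : C := if Even n ∨ Even m then 1 else S.b

theorem tw_even (i : ℤ) (x : C) : S.tw (2 * i) x = x := by simp [tw]

theorem tw_odd (i : ℤ) (x : C) : S.tw (2 * i + 1) x = S.φ x := by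
  have h : ¬ Even (2 * i + 1) := by simp
  rw [tw, if_neg h]

theorem bf_even_left (i m : ℤ) : S.bf (2 * i) m = 1 := by simp [bf]

theorem bf_even_right (n j : ℤ) : S.bf n (2 * j) = 1 := by simp [bf]

theorem bf_odd (i j : ℤ) : S.bf (2 * i + 1) (2 * j + 1) = S.b := by
  have h : ¬ Even (2 * i + 1) := by simp
  have h' : ¬ Even (2 * j + 1) := by simp
  rw [bf, if_neg]
  rintro (h1 | h1)
  · exact h h1
  · exact h' h1

theorem exists_dge (d : QExt S.toQ) : ∃ n : ℤ, dge n d := by
  obtain ⟨n, hn⟩ := exists_lge d.re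
  obtain ⟨m, hm⟩ := exists_lge d.im
  refine ⟨min (2 * n) (2 * m), (dge_iff _ _).2 ⟨hn.mono ?_, hm.mono ?_⟩⟩ <;> omega

/-- a nonzero element has a lowest term -/
theorem exists_low {d : QExt S.toQ} (hd : d ≠ 0) : ∃ n : ℤ, dge n d ∧ cf d n ≠ 0 := by
  obtain ⟨n, hn⟩ := exists_dge d
  by_contra hc
  push Not at hc
  apply hd
  have key : ∀ l : ℕ, dge (n + l) d := by
    intro l
    induction l with
    | zero => simpa using hn
    | succ l ih =>
      intro m hm
      rcases lt_or_eq_of_le (show m ≤ n + l by push_cast at hm; omega) with h | h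
      · exact ih m h
      · rw [h]; exact hc _ ih
  have h0 : ∀ m, cf d m = 0 := by
    intro m
    exact key (m - n + 1).toNat m (by have := Int.self_le_toNat (m - n + 1); omega)
  ext m
  · rw [← cf_even, h0]; rfl
  · rw [← cf_odd, h0]; rfl

theorem low_unique {d : QExt S.toQ} {n m : ℤ} (h1 : dge n d) (h2 : cf d n ≠ 0) (h3 : dge m d)
    (h4 : cf d m ≠ 0) : n = m := by
  rcases lt_trichotomy n m with h | h | h
  · exact absurd (h3 n h) h2
  · exact h
  · exact absurd (h1 m h) h4

theorem toQ_φ_coeff (x : LaurentSeries C) (n : ℤ) : (S.toQ.φ x).coeff n = S.φ (x.coeff n) := rfl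

theorem lge_φ {n : ℤ} {x : LaurentSeries C} (hx : lge n x) : lge n (S.toQ.φ x) :=
  lge_lmap _ hx

/-- Valuations add up under multiplication. -/
theorem dge.mul {n m : ℤ} {x y : QExt S.toQ} (hx : dge n x) (hy : dge m y) :
    dge (n + m) (x * y) := by
  obtain ⟨hx1, hx2⟩ := (dge_iff _ _).1 hx
  obtain ⟨hy1, hy2⟩ := (dge_iff _ _).1 hy
  rw [dge_iff]
  constructor
  · rw [QExt.mul_re]
    refine ((hx1.mul hy1).mono (by omega)).add ?_
    have : lge (n / 2 + m / 2 + 1) (x.im * S.toQ.φ y.im * S.toQ.b) :=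
      (hx2.mul (lge_φ hy2)).mul (lge_single 1 S.b)
    exact this.mono (by omega)
  · rw [QExt.mul_im]
    exact ((hx1.mul hy2).mono (by omega)).add ((hx2.mul (lge_φ hy1)).mono (by omega))

/-- Leading coefficients multiply, up to the twist. -/
theorem cf_mul {n m : ℤ} {x y : QExt S.toQ} (hx : dge n x) (hy : dge m y) :
    cf (x * y) (n + m) = cf x n * S.tw n (cf y m) * S.bf n m := by
  obtain ⟨hx1, hx2⟩ := (dge_iff _ _).1 hx
  obtain ⟨hy1, hy2⟩ := (dge_iff _ _).1 hy
  have hb : lge 1 S.toQ.b := lge_single 1 S.b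
  rcases Int.even_or_odd' n with ⟨i, rfl | rfl⟩ <;> rcases Int.even_or_odd' m with ⟨j, rfl | rfl⟩
  · have e : 2 * i + 2 * j = 2 * (i + j) := by ring
    rw [e, cf_even, cf_even, cf_even, QExt.mul_re, coeff_add,
      coeff_mul_lowest (hx1.mono (by omega)) (hy1.mono (by omega)),
      coeff_mul_of_lt (hx2.mul (lge_φ hy2)) hb (by omega), tw_even, bf_even_left]
    simp
  · have e : 2 * i + (2 * j + 1) = 2 * (i + j) + 1 := by ring
    rw [e, cf_even, cf_odd, cf_odd, QExt.mul_im, coeff_add,
      coeff_mul_lowest (hx1.mono (by omega)) (hy2.mono (by omega)),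
      coeff_mul_of_lt hx2 (lge_φ hy1) (by omega), tw_even, bf_even_left]
    simp
  · have e : 2 * i + 1 + 2 * j = 2 * (i + j) + 1 := by ring
    rw [e, cf_even, cf_odd, cf_odd, QExt.mul_im, coeff_add,
      coeff_mul_of_lt hx1 hy2 (by omega),
      coeff_mul_lowest (hx2.mono (by omega)) (lge_φ (hy1.mono (by omega))), tw_odd, bf_even_right,
      toQ_φ_coeff]
    simp
  · have e : 2 * i + 1 + (2 * j + 1) = 2 * (i + j + 1) := by ring
    rw [e, cf_even, cf_odd, cf_odd, QExt.mul_re, coeff_add,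
      coeff_mul_of_lt hx1 hy1 (by omega), mul_assoc]
    have hφb : lge (j + 1) (S.toQ.φ y.im * S.toQ.b) := (lge_φ (hy2.mono (by omega))).mul hb
    have e2 : i + j + 1 = i + (j + 1) := by ring
    rw [e2, coeff_mul_lowest (hx2.mono (by omega)) hφb,
      coeff_mul_lowest (lge_φ (hy2.mono (by omega))) hb, tw_odd, bf_odd, toQ_φ_coeff, zero_add,
      mul_assoc]
    simp [toQ]

end LData

end

end W_bec7e1
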