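import Mathlib
import Pool.Agent.W_bec7e1.Level

/-!
# A level over a domain is a domain
-/

namespace W_bec7e1

open HahnSeries

namespace LData

variable {k C : Type} [Field k] [Ring C] [Algebra k C] [NoZeroDivisors C] {S : LData k C}

theorem φ_injective (S : LData k C) : Function.Injective S.φ := by
  rw [injective_iff_map_eq_zero]
  intro x hx
  have h := S.φφ x
  rw [hx, map_zero, zero_mul] at h
  exact (mul_eq_zero.1 h.symm).resolve_left S.b0

theorem φ_ne_zero (S : LData k C) {x : C} (hx : x ≠ 0) : S.φ x ≠ 0 := by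
  intro h
  exact hx (S.φ_injective (by rw [h, map_zero]))

theorem tw_ne_zero (S : LData k C) (n : ℤ) {x : C} (hx : x ≠ 0) : S.tw n x ≠ 0 := by
  unfold tw
  split_ifs
  · exact hx
  · exact S.φ_ne_zero hx

theorem bf_ne_zero [Nontrivial C] (S : LData k C) (n m : ℤ) : S.bf n m ≠ 0 := by
  unfold bf
  split_ifs
  · exact one_ne_zero
  · exact S.b0

theorem cf_mul_ne_zero [Nontrivial C] {n m : ℤ} {x y : QExt S.toQ} (hx : dge n x) (hy : dge m y)
    (hx' : cf x n ≠ 0) (hy' : cf y m ≠ 0) : cf (x * y) (n + m) ≠ 0 := by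
  rw [cf_mul hx hy]
  exact mul_ne_zero (mul_ne_zero hx' (S.tw_ne_zero n hy')) (S.bf_ne_zero n m)

instance [Nontrivial C] : NoZeroDivisors (QExt S.toQ) where
  eq_zero_or_eq_zero_of_mul_eq_zero := by
    intro x y h
    by_contra hc
    push Not at hc
    obtain ⟨n, hn, hn'⟩ := exists_low hc.1
    obtain ⟨m, hm, hm'⟩ := exists_low hc.2
    exact cf_mul_ne_zero hn hm hn' hm' (by rw [h]; simp)

instance [Nontrivial C] : Nontrivial (LaurentSeries C) :=
  ⟨⟨0, 1, fun h => by
    have := congrArg (fun x : LaurentSeries C => x.coeff 0) h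
    simp at this⟩⟩

/-- powers -/
theorem dge_pow [Nontrivial C] {n : ℤ} {x : QExt S.toQ} (hx : dge n x) (m : ℕ) :
    dge (m * n) (x ^ m) := by
  induction m with
  | zero =>
    rw [pow_zero]
    intro l hl
    simp only [Nat.cast_zero, zero_mul] at hl
    rcases Int.even_or_odd' l with ⟨j, rfl | rfl⟩
    · rw [cf_even, QExt.one_re, coeff_one, if_neg (by omega)]
    · rw [cf_odd, QExt.one_im]; simp
  | succ m ih =>
    rw [pow_succ]
    exact (ih.mul hx).mono (by push_cast; nlinarith)

theorem cf_pow_ne_zero [Nontrivial C] {n : ℤ} {x : QExt S.toQ} (hx : dge n x) (hx' : cf x n ≠ 0)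
    (m : ℕ) : cf (x ^ m) (m * n) ≠ 0 := by
  induction m with
  | zero =>
    rw [pow_zero]
    have : ((0 : ℕ) : ℤ) * n = 2 * 0 := by simp
    rw [this, cf_even, QExt.one_re, coeff_one, if_pos rfl]
    exact one_ne_zero
  | succ m ih =>
    rw [pow_succ]
    have e : ((m + 1 : ℕ) : ℤ) * n = m * n + n := by push_cast; ring
    rw [e]
    exact cf_mul_ne_zero (dge_pow hx m) hx ih hx'

end LData

end W_bec7e1
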