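import Mathlib
import Pool.Agent.W_bec7e1.Domain

/-!
# Central elements of a level
-/

namespace W_bec7e1

open HahnSeries

/-- A Laurent series with central coefficients is central. -/
theorem Center_comm {R : Type} [Ring R] (c : LaurentSeries R)
    (hc : ∀ n y, c.coeff n * y = y * c.coeff n) (x : LaurentSeries R) : c * x = x * c := by
  ext n
  rw [coeff_mul, coeff_mul]
  refine Finset.sum_bij' (fun p _ => (p.2, p.1)) (fun p _ => (p.2, p.1)) ?_ ?_ ?_ ?_ ?_
  · rintro ⟨i, j⟩ hij
    rw [Finset.mem_antidiagonal] at hij ⊢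
    obtain ⟨h1, h2, h3⟩ := hij
    exact ⟨h2, h1, by simp only at h3 ⊢; omega⟩
  · rintro ⟨i, j⟩ hij
    rw [Finset.mem_antidiagonal] at hij ⊢
    obtain ⟨h1, h2, h3⟩ := hij
    exact ⟨h2, h1, by simp only at h3 ⊢; omega⟩
  · rintro ⟨i, j⟩ _; rfl
  · rintro ⟨i, j⟩ _; rfl
  · rintro ⟨i, j⟩ _
    exact hc _ _

namespace LData

variable {k C : Type} [Field k] [Ring C] [Nontrivial C] [NoZeroDivisors C] [Algebra k C]

/-- If `φ` moves some central element of `C`, then a central element of the level is a Laurent
series whose coefficients are central in `C` and fixed by `φ`. -/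
theorem central_iff (S : LData k C) (c₀ : C) (hc₀ : ∀ y, c₀ * y = y * c₀) (hφ : S.φ c₀ ≠ c₀)
    (x : QExt S.toQ) :
    (∀ y, x * y = y * x) ↔ x.im = 0 ∧
      ∀ n, (∀ y, x.re.coeff n * y = y * x.re.coeff n) ∧ S.φ (x.re.coeff n) = x.re.coeff n := by
  constructor
  · intro h
    have h1 : ∀ (c : C) (n : ℤ), x.re.coeff n * c = c * x.re.coeff n ∧
        x.im.coeff n * S.φ c = c * x.im.coeff n := by
      intro c n
      have h2 := h (QExt.of S.toQ (single 0 c))
      have h3 := congrArg QExt.re h2
      have h4 := congrArg QExt.im h2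
      simp only [QExt.mul_re, QExt.mul_im, QExt.of_re, QExt.of_im, map_zero, mul_zero, zero_mul,
        add_zero, zero_add] at h3 h4
      have h5 : S.toQ.φ (single 0 c) = single 0 (S.φ c) := lmap_single _ 0 c
      rw [h5] at h4
      have h6 := congrArg (fun y : LaurentSeries C => y.coeff (n + 0)) h3
      have h7 := congrArg (fun y : LaurentSeries C => y.coeff (n + 0)) h4
      rw [coeff_mul_single', coeff_single_mul'] at h6 h7
      exact ⟨h6, h7⟩
    have him : x.im = 0 := by
      ext n
      have h2 := (h1 c₀ n).2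
      rw [hc₀, ← sub_eq_zero, ← mul_sub] at h2
      rcases mul_eq_zero.1 h2 with h3 | h3
      · exact h3
      · exact absurd (sub_eq_zero.1 h3) hφ
    refine ⟨him, fun n => ⟨fun y => (h1 y n).1, ?_⟩⟩
    have h2 := congrArg QExt.im (h (QExt.z S.toQ))
    simp only [QExt.mul_im, QExt.z_re, QExt.z_im, map_zero, mul_zero, zero_mul, add_zero, mul_one,
      zero_add, one_mul] at h2
    have h3 := congrArg (fun y : LaurentSeries C => y.coeff n) h2
    exact h3.symm
  · rintro ⟨him, hre⟩ y
    have hcomm : ∀ w, x.re * w = w * x.re := Center_comm x.re (fun n => (hre n).1)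
    have hfix : S.toQ.φ x.re = x.re := by
      ext n
      exact (hre n).2
    ext1
    · simp only [QExt.mul_re, him, map_zero, mul_zero, zero_mul, add_zero]
      exact hcomm _
    · simp only [QExt.mul_im, him, mul_zero, zero_mul, add_zero, zero_add, hfix]
      exact hcomm _

end LData

end W_bec7e1
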