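import Mathlib

/-!
# Groups of order 8 with a noncentral involution are dihedral
-/

namespace W_bec7e1

/-- powers indexed by `ZMod 4` -/
def GLpw {G : Type} [Group G] (a : G) (i : ZMod 4) : G := a ^ i.val

theorem GLpw_add {G : Type} [Group G] {a : G} (ho : orderOf a = 4) (i j : ZMod 4) :
    GLpw a (i + j) = GLpw a i * GLpw a j := by
  unfold GLpw
  rw [← pow_add, ZMod.val_add]
  have h := pow_mod_orderOf a (i.val + j.val)
  rw [ho] at h
  exact h

theorem GLpw_conj {G : Type} [Group G] {a g : G} (hga : g * a = a⁻¹ * g) (i : ZMod 4) :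
    g * GLpw a i = (GLpw a i)⁻¹ * g := by
  have h : SemiconjBy g a a⁻¹ := hga
  have h1 := h.pow_right i.val
  rw [inv_pow] at h1
  exact h1

theorem GL_dihedral {G : Type} [Group G] {a g : G} (hcard : Nat.card G = 8) (ho : orderOf a = 4)
    (hg : g * g = 1) (hga : g * a = a⁻¹ * g) (hnot : ∀ n : ℕ, a ^ n ≠ g) :
    Nonempty (G ≃* DihedralGroup 4) := by
  have hconj := GLpw_conj hga
  have hadd := GLpw_add ho
  have hzero : GLpw a 0 = 1 := by simp [GLpw]
  have hsub : ∀ i j : ZMod 4, GLpw a (j - i) = (GLpw a i)⁻¹ * GLpw a j := by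
    intro i j
    rw [eq_inv_mul_iff_mul_eq, ← hadd]
    congr 1
    ring
  have hconj' : ∀ i, GLpw a i * g = g * (GLpw a i)⁻¹ := by
    intro i
    have h := hconj i
    calc GLpw a i * g = GLpw a i * (g * GLpw a i) * (GLpw a i)⁻¹ := by group
      _ = GLpw a i * ((GLpw a i)⁻¹ * g) * (GLpw a i)⁻¹ := by rw [h]
      _ = _ := by group
  let f : DihedralGroup 4 → G := fun x => match x with
    | DihedralGroup.r i => GLpw a i
    | DihedralGroup.sr i => g * GLpw a i
  have hmul : ∀ x y, f (x * y) = f x * f y := by
    rintro (i | i) (j | j)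
    · rw [DihedralGroup.r_mul_r]
      exact hadd i j
    · rw [DihedralGroup.r_mul_sr]
      show g * GLpw a (j - i) = GLpw a i * (g * GLpw a j)
      rw [hsub, ← mul_assoc, ← mul_assoc, hconj']
    · rw [DihedralGroup.sr_mul_r]
      show g * GLpw a (i + j) = g * GLpw a i * GLpw a j
      rw [hadd, mul_assoc]
    · rw [DihedralGroup.sr_mul_sr]
      show GLpw a (j - i) = g * GLpw a i * (g * GLpw a j)
      rw [hsub, hconj, mul_assoc, ← mul_assoc g g, hg, one_mul]
  let F : DihedralGroup 4 →* G := MonoidHom.mk' f hmul
  have hinj : Function.Injective F := by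
    rw [injective_iff_map_eq_one]
    rintro (i | i) hx
    · have h1 : a ^ i.val = 1 := hx
      have h2 : 4 ∣ i.val := by
        have h6 := orderOf_dvd_of_pow_eq_one h1
        have h7 : ∀ m : ℕ, orderOf a ∣ m → 4 ∣ m := by
          intro m hm
          rwa [ho] at hm
        exact h7 _ h6
      have h3 : i.val < 4 := ZMod.val_lt i
      have h4 : i.val = 0 := Nat.eq_zero_of_dvd_of_lt h2 h3
      have h5 : i = 0 := (ZMod.val_eq_zero i).1 h4
      rw [h5]
      rfl
    · exfalso
      have h1 : g * a ^ i.val = 1 := hx
      have h2 : g⁻¹ = a ^ i.val := inv_eq_of_mul_eq_one_right h1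
      have h3 : g⁻¹ = g := inv_eq_of_mul_eq_one_right hg
      exact hnot i.val (h2.symm.trans h3)
  have : Finite G := Nat.finite_of_card_ne_zero (by rw [hcard]; norm_num)
  have hbij : Function.Bijective F := by
    rw [Nat.bijective_iff_injective_and_card]
    refine ⟨hinj, ?_⟩
    rw [hcard, DihedralGroup.nat_card]
  exact ⟨(MulEquiv.ofBijective F hbij).symm⟩

/-- in a noncommutative group of order 8 an element whose square is not 1 has order 4 -/
theorem GL_orderOf {G : Type} [Group G] (hcard : Nat.card G = 8) {g h a : G} (hgh : g * h ≠ h * g)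
    (ha : a * a ≠ 1) : orderOf a = 4 := by
  have : Finite G := Nat.finite_of_card_ne_zero (by rw [hcard]; norm_num)
  have hd : orderOf a ∣ 2 ^ 3 := by
    have := orderOf_dvd_natCard a
    rw [hcard] at this
    exact this
  obtain ⟨k, hk, hk'⟩ := (Nat.dvd_prime_pow Nat.prime_two).1 hd
  have h8 : orderOf a ≠ 8 := by
    intro h'
    have : IsCyclic G := isCyclic_of_orderOf_eq_card a (by rw [h', hcard])
    exact hgh ((IsCyclic.isMulCommutative (α := G)).is_comm.comm g h)
  interval_cases k
  · exfalso
    apply ha
    have : a = 1 := orderOf_eq_one_iff.1 (by rw [hk']; rfl)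
    rw [this, one_mul]
  · exfalso
    apply ha
    have : a ^ 2 = 1 := by
      have h2 := pow_orderOf_eq_one a
      rw [hk'] at h2
      exact h2
    rw [← pow_two]
    exact this
  · rw [hk']; rfl
  · exact absurd (by rw [hk']; rfl) h8

/-- A group of order 8 which is not dihedral has all its involutions central. -/
theorem involutions_central {G : Type} [Group G] (hG : Nat.card G = 8)
    (hD : ¬ Nonempty (G ≃* DihedralGroup 4)) (g h : G) (hg : g * g = 1) : g * h = h * g := by
  by_contra hgh
  have : Finite G := Nat.finite_of_card_ne_zero (by rw [hG]; norm_num)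
  have hginv : g⁻¹ = g := inv_eq_of_mul_eq_one_right hg
  by_cases hh : h * h = 1
  · -- the product has order 4
    have hhinv : h⁻¹ = h := inv_eq_of_mul_eq_one_right hh
    have hsq : (g * h) * (g * h) ≠ 1 := by
      intro h1
      apply hgh
      have h2 : (g * h)⁻¹ = g * h := inv_eq_of_mul_eq_one_right h1
      rw [mul_inv_rev, hginv, hhinv] at h2
      exact h2.symm
    have ho := GL_orderOf hG hgh hsq
    apply hD
    refine GL_dihedral hG ho hg ?_ ?_
    · rw [mul_inv_rev, hginv, hhinv, ← mul_assoc, hg, one_mul, mul_assoc, hg, mul_one]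
    · intro n hn
      apply hgh
      have h1 : g * (g * h) = (g * h) * g := by
        conv_lhs => rw [← hn]
        conv_rhs => rw [← hn]
        have : Commute ((g * h) ^ n) (g * h) := (Commute.refl (g * h)).pow_left n
        have h2 := this.eq
        rw [hn] at h2
        rw [hn]
        exact h2
      have h2 : g * (g * h) = g * (h * g) := by rw [h1, mul_assoc]
      exact mul_left_cancel h2
  · have ho := GL_orderOf hG hgh hh
    have hnot : ∀ n : ℕ, h ^ n ≠ g := by
      intro n hn
      apply hgh
      rw [← hn]
      exact ((Commute.refl h).pow_left n).eq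
    apply hD
    refine GL_dihedral hG ho hg ?_ hnot
    -- the subgroup generated by h is normal
    have hidx : (Subgroup.zpowers h).index = 2 := by
      have h1 := (Subgroup.zpowers h).card_mul_index
      rw [Nat.card_zpowers, ho, hG] at h1
      omega
    have := Subgroup.normal_of_index_eq_two hidx
    have hmem : g * h * g⁻¹ ∈ Subgroup.zpowers h :=
      Subgroup.Normal.conj_mem inferInstance h (Subgroup.mem_zpowers h) g
    classical
    rw [mem_zpowers_iff_mem_range_orderOf, ho] at hmem
    simp only [Finset.mem_image, Finset.mem_range] at hmem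
    obtain ⟨n, hn, hn'⟩ := hmem
    have h4 : h ^ 4 = 1 := by rw [← ho]; exact pow_orderOf_eq_one h
    have hconj2 : (g * h * g⁻¹) ^ 2 = g * h ^ 2 * g⁻¹ := conj_pow
    have hsq1 : h ^ 2 ≠ 1 := by rw [pow_two]; exact hh
    interval_cases n
    · exfalso
      rw [pow_zero] at hn'
      apply hh
      have : h = 1 := by
        have h1 : g * h = g := by
          have := hn'.symm
          rw [mul_inv_eq_one] at this
          exact this
        simpa using h1
      rw [this, one_mul]
    · exfalso
      apply hgh
      rw [pow_one] at hn'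
      rw [eq_mul_inv_iff_mul_eq] at hn'
      exact hn'.symm
    · exfalso
      rw [← hn'] at hconj2
      have h5 : (h ^ 2) ^ 2 = 1 := by rw [← pow_mul]; exact h4
      rw [h5] at hconj2
      apply hsq1
      have h6 : g * h ^ 2 = g := by
        have := hconj2.symm
        rw [mul_inv_eq_one] at this
        exact this
      simpa using h6
    · have h5 : h ^ 3 = h⁻¹ := by
        rw [eq_inv_iff_mul_eq_one, ← pow_succ]
        exact h4
      rw [h5, eq_mul_inv_iff_mul_eq] at hn'
      exact hn'.symm

/-- A group of order dividing 4 is commutative. -/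
theorem commutative_of_card {G : Type} [Group G] (hG : Nat.card G = 2 ∨ Nat.card G = 4)
    (g h : G) : g * h = h * g := by
  rcases hG with hG | hG
  · have : Fact (Nat.Prime 2) := ⟨Nat.prime_two⟩
    have : IsCyclic G := isCyclic_of_prime_card hG
    exact (IsCyclic.isMulCommutative (α := G)).is_comm.comm g h
  · have : Fact (Nat.Prime 2) := ⟨Nat.prime_two⟩
    exact (IsPGroup.isMulCommutative_of_card_eq_prime_sq (p := 2) (G := G)
      (by rw [hG]; norm_num)).is_comm.comm g h

end W_bec7e1
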