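import Mathlib
import Pool.Agent.W_bec7e1.Level

/-!
# The abstract datum and the algebras `Q`, `C₁`, `D`

`M` is a field with an action of the dihedral group of order 8, generated by `r` (order 4) and
`s` (order 2), with `s r = r³ s`.
-/

namespace W_bec7e1

/-- The abstract datum. -/
structure CData (M : Type) [Field M] where
  r : M →+* M
  s : M →+* M
  r4 : ∀ x, r (r (r (r x))) = x
  s2 : ∀ x, s (s x) = x
  sr : ∀ x, s (r x) = r (r (r (s x)))
  i : M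
  T : M
  β : M
  γ : M
  Y : M
  ii : i * i = -1
  ri : r i = i
  si : s i = i
  rT : r T = -T
  sT : s T = T⁻¹
  T0 : T ≠ 0
  T4 : T ^ 4 ≠ 1
  sβ : s β = β
  rsγ : r (s γ) = γ
  rY : r Y = Y
  YY : Y * s Y * (β * r β * r (r β) * r (r (r β))) = γ * r γ * r (r γ) * r (r (r γ))
  β0 : β ≠ 0
  γ0 : γ ≠ 0
  AN : ∀ x y, x * r (r x) = Y * (y * r (r y)) → x = 0 ∧ y = 0
  r2 : ∃ x, r (r x) ≠ x

namespace CData

variable {M : Type} [Field M] (d : CData M)

/-- The ground field: the fixed field of `r` and `s`. -/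
def k : Subfield M where
  carrier := {x | d.r x = x ∧ d.s x = x}
  mul_mem' := by rintro a b ⟨h1, h2⟩ ⟨h3, h4⟩; exact ⟨by rw [map_mul, h1, h3], by rw [map_mul, h2, h4]⟩
  one_mem' := ⟨map_one _, map_one _⟩
  add_mem' := by rintro a b ⟨h1, h2⟩ ⟨h3, h4⟩; exact ⟨by rw [map_add, h1, h3], by rw [map_add, h2, h4]⟩
  zero_mem' := ⟨map_zero _, map_zero _⟩
  neg_mem' := by rintro a ⟨h1, h2⟩; exact ⟨by rw [map_neg, h1], by rw [map_neg, h2]⟩
  inv_mem' := by rintro a ⟨h1, h2⟩; exact ⟨by rw [map_inv₀, h1], by rw [map_inv₀, h2]⟩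

/-- `A = (T + 1/T)/2`. -/
def A : M := (d.T + d.T⁻¹) / 2

/-- `B = (T - 1/T)/(2i)`. -/
def B : M := (d.T - d.T⁻¹) / (2 * d.i)

theorem Y0 : d.Y ≠ 0 := by
  intro h
  have := (d.AN 0 1 (by rw [h]; simp)).2
  exact one_ne_zero this

/-- `ρ = γ / β`. -/
def ρ : M := d.γ / d.β

/-- `r²` as a ring hom. -/
def rr : M →+* M := d.r.comp d.r

theorem rr_apply (x : M) : d.rr x = d.r (d.r x) := rfl

/-- The quaternion algebra `Q = M ⊕ M u`, `u x = r²(x) u`, `u² = Y`. -/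
def SQ : QData M where
  φ := d.rr
  b := d.Y
  φb := by rw [rr_apply, d.rY, d.rY]
  φφ x := by rw [rr_apply, rr_apply, d.r4, mul_comm]

/-- The quaternion algebra. -/
abbrev Q : Type := QExt d.SQ

/-- The factor of `Φ_b(u) = ρ_b u`. -/
def ρb : M := d.r (d.r (d.r d.ρ)) * d.r (d.r d.ρ) / d.Y

/-- The factor of `Φ_a(u) = ρ_a u`. -/
def ρa : M := d.ρ * d.r (d.r (d.r d.ρ)) / d.Y

theorem sρ : d.s d.ρ = d.r (d.r (d.r d.γ)) / d.β := by
  have h : d.s d.γ = d.r (d.r (d.r d.γ)) := by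
    have := congrArg (fun t => d.r (d.r (d.r t))) d.rsγ
    simpa only [d.r4] using this
  rw [ρ, map_div₀, d.sβ, h]

theorem sY : d.s d.Y = d.ρ * d.r d.ρ * d.r (d.r d.ρ) * d.r (d.r (d.r d.ρ)) / d.Y := by
  have hβ := d.β0
  have h1 : d.r d.β ≠ 0 := (map_ne_zero d.r).2 hβ
  have h2 : d.r (d.r d.β) ≠ 0 := (map_ne_zero d.r).2 h1
  have h3 : d.r (d.r (d.r d.β)) ≠ 0 := (map_ne_zero d.r).2 h2
  have hY := d.Y0
  rw [ρ, map_div₀, map_div₀, map_div₀]
  field_simp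
  linear_combination d.YY

theorem rr_s (x : M) : d.rr (d.s x) = d.s (d.rr x) := by
  rw [rr_apply, rr_apply, d.sr, d.sr, d.r4]

/-- The semilinear automorphism `Φ_b` of `Q` : `s` on `M`. -/
def Φb : d.Q →+* d.Q :=
  QExt.ext' (S := d.SQ) d.s d.ρb
    (fun x => by
      change d.ρb * d.rr (d.s x) = d.s (d.rr x) * d.ρb
      rw [rr_s, mul_comm])
    (by
      change d.ρb * d.rr d.ρb * d.Y = d.s d.Y
      have hY := d.Y0
      rw [sY, ρb, rr_apply]
      simp only [map_div₀, map_mul, d.rY, d.r4]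
      field_simp)

/-- The semilinear automorphism `Φ_a` of `Q` : `r s` on `M`. -/
def Φa : d.Q →+* d.Q :=
  QExt.ext' (S := d.SQ) (d.r.comp d.s) d.ρa
    (fun x => by
      change d.ρa * d.rr (d.r (d.s x)) = d.r (d.s (d.rr x)) * d.ρa
      rw [← rr_s, mul_comm]
      rfl)
    (by
      change d.ρa * d.rr d.ρa * d.Y = d.r (d.s d.Y)
      have hY := d.Y0
      rw [sY, ρa, rr_apply]
      simp only [map_div₀, map_mul, d.rY, d.r4]
      field_simp)

/-- The element `q = (r³(ρ)/Y) u` of `Q`. -/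
def q : d.Q := QExt.of d.SQ (d.r (d.r (d.r d.ρ)) / d.Y) * QExt.z d.SQ

/-- `β` in `Q`. -/
def βQ : d.Q := QExt.of d.SQ d.β

/-- `γ` in `Q`. -/
def γQ : d.Q := QExt.of d.SQ d.γ

end CData

end W_bec7e1
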