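import Mathlib
import Pool.Agent.W_bec7e1.CData

/-!
# `M / k` is Galois with group the dihedral group of order 8
-/

namespace W_bec7e1

namespace CData

variable {M : Type} [Field M] (d : CData M)

theorem DA_mod (m : ℕ) (x : M) : d.r^[m % 4] x = d.r^[m] x := by
  have h4 : d.r^[4] = id := by
    funext y
    exact d.r4 y
  conv_rhs => rw [← Nat.mod_add_div m 4, Function.iterate_add_apply, Function.iterate_mul, h4,
    Function.iterate_id, id]

theorem DA_add (i j : ZMod 4) (x : M) :
    d.r^[(i + j).val] x = d.r^[i.val] (d.r^[j.val] x) := by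
  rw [ZMod.val_add, DA_mod, Function.iterate_add_apply]

theorem DA_s (i : ZMod 4) (x : M) : d.r^[i.val] (d.s x) = d.s (d.r^[(-i).val] x) := by
  have h : ∀ i : ZMod 4, i = 0 ∨ i = 1 ∨ i = 2 ∨ i = 3 := by decide
  have e0 : (0 : ZMod 4).val = 0 := rfl
  have e1 : (1 : ZMod 4).val = 1 := rfl
  have e2 : (2 : ZMod 4).val = 2 := rfl
  have e3 : (3 : ZMod 4).val = 3 := rfl
  have f1 : (-1 : ZMod 4) = 3 := by decide
  have f2 : (-2 : ZMod 4) = 2 := by decide
  have f3 : (-3 : ZMod 4) = 1 := by decide
  rcases h i with rfl | rfl | rfl | rfl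
  · simp [e0]
  · simp [f1, e1, e3, Function.iterate_succ, d.sr, d.r4]
  · simp [f2, e2, Function.iterate_succ, d.sr, d.r4]
  · simp [f3, e1, e3, Function.iterate_succ, d.sr]

/-- The action. -/
def DA_act : DihedralGroup 4 → M → M
  | DihedralGroup.r i, x => d.r^[i.val] x
  | DihedralGroup.sr i, x => d.s (d.r^[i.val] x)

/-- The action of the dihedral group. -/
@[reducible] def DA_action : MulSemiringAction (DihedralGroup 4) M where
  smul := d.DA_act
  one_smul x := rfl
  mul_smul g h x := by
    change d.DA_act (g * h) x = d.DA_act g (d.DA_act h x)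
    rcases g with i | i <;> rcases h with j | j
    · rw [DihedralGroup.r_mul_r]
      exact d.DA_add i j x
    · rw [DihedralGroup.r_mul_sr]
      change d.s (d.r^[(j - i).val] x) = d.r^[i.val] (d.s (d.r^[j.val] x))
      rw [DA_s, ← DA_add, sub_eq_neg_add]
    · rw [DihedralGroup.sr_mul_r]
      change d.s (d.r^[(i + j).val] x) = d.s (d.r^[i.val] (d.r^[j.val] x))
      rw [DA_add]
    · rw [DihedralGroup.sr_mul_sr]
      change d.r^[(j - i).val] x = d.s (d.r^[i.val] (d.s (d.r^[j.val] x)))
      rw [DA_s, d.s2, ← DA_add, sub_eq_neg_add]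
  smul_zero g := by
    change d.DA_act g 0 = 0
    rcases g with i | i
    · exact iterate_map_zero d.r _
    · change d.s (d.r^[i.val] 0) = 0
      rw [iterate_map_zero, map_zero]
  smul_add g x y := by
    change d.DA_act g (x + y) = d.DA_act g x + d.DA_act g y
    rcases g with i | i
    · exact iterate_map_add d.r _ x y
    · change d.s (d.r^[i.val] (x + y)) = d.s (d.r^[i.val] x) + d.s (d.r^[i.val] y)
      rw [iterate_map_add, map_add]
  smul_one g := by
    change d.DA_act g 1 = 1
    rcases g with i | i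
    · exact iterate_map_one d.r _
    · change d.s (d.r^[i.val] 1) = 1
      rw [iterate_map_one, map_one]
  smul_mul g x y := by
    change d.DA_act g (x * y) = d.DA_act g x * d.DA_act g y
    rcases g with i | i
    · exact iterate_map_mul d.r _ x y
    · change d.s (d.r^[i.val] (x * y)) = d.s (d.r^[i.val] x) * d.s (d.r^[i.val] y)
      rw [iterate_map_mul, map_mul]

theorem DA_not (h : ∀ x, d.r (d.r x) = x) : False := by
  obtain ⟨x, hx⟩ := d.r2
  exact hx (h x)

theorem DA_faithful (g : DihedralGroup 4) (hg : ∀ x, d.DA_act g x = x) : g = 1 := by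
  rcases g with i | i
  · have h : ∀ i : ZMod 4, i = 0 ∨ i = 1 ∨ i = 2 ∨ i = 3 := by decide
    rcases h i with rfl | rfl | rfl | rfl
    · rfl
    · exact (d.DA_not fun x => by
        have h1 : ∀ x, d.r x = x := hg
        rw [h1, h1]).elim
    · exact (d.DA_not fun x => hg x).elim
    · exact (d.DA_not fun x => by
        have h1 : ∀ x, d.r (d.r (d.r x)) = x := hg
        have h3 : d.r x = x := (h1 (d.r x)).symm.trans (d.r4 x)
        rw [h3, h3]).elim
  · refine (d.DA_not fun y => ?_).elim
    have h1 : ∀ x, d.s (d.r^[i.val] x) = x := hg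
    have h2 := h1 (d.r y)
    rw [← Function.iterate_succ_apply, Function.iterate_succ_apply', d.sr, h1] at h2
    have h3 : d.r (d.r y) = y := by
      have h4 := congrArg (fun t => d.r (d.r (d.r t))) h2
      simp only [d.r4] at h4
      exact h4
    exact h3

theorem M_galois : FiniteDimensional d.k M ∧ IsGalois d.k M ∧ Module.finrank d.k M = 8 ∧
    Nonempty ((M ≃ₐ[d.k] M) ≃* DihedralGroup 4) := by
  let _ := d.DA_action
  have hsm : ∀ (g : DihedralGroup 4) (x : M), g • x = d.DA_act g x := fun _ _ => rfl
  have : FaithfulSMul (DihedralGroup 4) M := by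
    refine ⟨fun {g h} hgh => ?_⟩
    have h1 : g⁻¹ * h = 1 := by
      apply d.DA_faithful
      intro x
      rw [← hsm, mul_smul, ← hgh x, inv_smul_smul]
    exact (inv_mul_eq_one.mp h1)
  have hk : FixedPoints.subfield (DihedralGroup 4) M = d.k := by
    ext x
    constructor
    · intro hx
      have hx' : ∀ g : DihedralGroup 4, g • x = x := hx
      exact ⟨hx' (DihedralGroup.r 1), hx' (DihedralGroup.sr 0)⟩
    · intro hx
      obtain ⟨h1, h2⟩ : d.r x = x ∧ d.s x = x := hx
      have h3 : ∀ m : ℕ, d.r^[m] x = x := fun m => Function.iterate_fixed h1 m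
      show ∀ g : DihedralGroup 4, g • x = x
      intro g
      rw [hsm]
      rcases g with i | i
      · exact h3 _
      · change d.s (d.r^[i.val] x) = x
        rw [h3, h2]
  rw [← hk]
  refine ⟨inferInstance, inferInstance, ?_, ⟨(FixedPoints.toAlgAutMulEquiv _ _).symm⟩⟩
  rw [FixedPoints.finrank_eq_card (DihedralGroup 4) M, DihedralGroup.card]

end CData

end W_bec7e1
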