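import Mathlib
import Pool.Agent.W_bec7e1.DihedralAction

/-!
# Degrees of subfields of `L`
-/

namespace W_bec7e1

namespace CData

variable {M : Type} [Field M] (d : CData M)

/-- `r` over `k`. -/
def LB_rA : M →ₐ[d.k] M := { d.r with commutes' := fun x => x.2.1 }

/-- `s` over `k`. -/
def LB_sA : M →ₐ[d.k] M := { d.s with commutes' := fun x => x.2.2 }

theorem LB_rA_apply (x : M) : d.LB_rA x = d.r x := rfl
theorem LB_sA_apply (x : M) : d.LB_sA x = d.s x := rfl

/-- `r` as an automorphism. -/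
def LB_r : M ≃ₐ[d.k] M :=
  AlgEquiv.ofAlgHom d.LB_rA (d.LB_rA.comp (d.LB_rA.comp d.LB_rA))
    (AlgHom.ext fun x => d.r4 x) (AlgHom.ext fun x => d.r4 x)

/-- `s` as an automorphism. -/
def LB_s : M ≃ₐ[d.k] M :=
  AlgEquiv.ofAlgHom d.LB_sA d.LB_sA (AlgHom.ext fun x => d.s2 x) (AlgHom.ext fun x => d.s2 x)

theorem LB_r_apply (x : M) : d.LB_r x = d.r x := rfl
theorem LB_s_apply (x : M) : d.LB_s x = d.s x := rfl

theorem LB_rr_ne : d.LB_r * d.LB_r ≠ 1 := by
  intro h
  obtain ⟨x, hx⟩ := d.r2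
  apply hx
  have h1 := congrArg (fun f : M ≃ₐ[d.k] M => f x) h
  exact h1

theorem LB_finrank {S : Type} [Field S] [Algebra d.k S] [FiniteDimensional d.k S]
    (j : S →ₐ[d.k] M) :
    Module.finrank d.k S * Nat.card (j.fieldRange.fixingSubgroup) = 8 := by
  obtain ⟨h1, h2, h3, -⟩ := d.M_galois
  have e1 : Module.finrank d.k S = Module.finrank d.k j.fieldRange :=
    (AlgEquiv.ofInjectiveField j).toLinearEquiv.finrank_eq
  rw [e1, IsGalois.card_fixingSubgroup_eq_finrank, Module.finrank_mul_finrank, h3]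

theorem LB_mem {S : Type} [Field S] [Algebra d.k S] (j : S →ₐ[d.k] M) (g : M ≃ₐ[d.k] M)
    (h : ∀ x, g (j x) = j x) : g ∈ j.fieldRange.fixingSubgroup := by
  rw [IntermediateField.mem_fixingSubgroup_iff]
  rintro _ ⟨x, rfl⟩
  exact h x

/-- a subfield of `L = M^{r²}` has degree at most 4 -/
theorem finrank_le_four {S : Type} [Field S] [Algebra d.k S] [FiniteDimensional d.k S]
    (j : S →ₐ[d.k] M) (h : ∀ x, d.r (d.r (j x)) = j x) : Module.finrank d.k S ≤ 4 := by
  have e := d.LB_finrank j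
  have h1 : d.LB_r * d.LB_r ∈ j.fieldRange.fixingSubgroup := d.LB_mem j _ h
  have h2 : Nat.card (j.fieldRange.fixingSubgroup) ≠ 1 := by
    intro h3
    have h4 := Subgroup.eq_bot_of_card_eq _ h3
    rw [h4, Subgroup.mem_bot] at h1
    exact d.LB_rr_ne h1
  by_contra hc
  have h5 : 5 ≤ Module.finrank d.k S := by omega
  have h6 : Nat.card (j.fieldRange.fixingSubgroup) = 0 ∨
      2 ≤ Nat.card (j.fieldRange.fixingSubgroup) := by omega
  rcases h6 with h6 | h6
  · rw [h6] at e; omega
  · have := Nat.mul_le_mul h5 h6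
    omega

/-- a subfield of `L` fixed by one of `r`, `s`, `r s` has degree at most 2 -/
theorem finrank_le_two {S : Type} [Field S] [Algebra d.k S] [FiniteDimensional d.k S]
    (j : S →ₐ[d.k] M) (h : ∀ x, d.r (d.r (j x)) = j x)
    (h' : (∀ x, d.r (j x) = j x) ∨ (∀ x, d.s (j x) = j x) ∨ (∀ x, d.r (d.s (j x)) = j x)) :
    Module.finrank d.k S ≤ 2 := by
  have e := d.LB_finrank j
  have h1 : d.LB_r * d.LB_r ∈ j.fieldRange.fixingSubgroup := d.LB_mem j _ h
  obtain ⟨y, hy⟩ := d.r2
  have key : ∃ g ∈ j.fieldRange.fixingSubgroup, g ≠ 1 ∧ g ≠ d.LB_r * d.LB_r := by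
    rcases h' with h' | h' | h'
    · refine ⟨d.LB_r, d.LB_mem j _ h', fun hg => ?_, fun hg => ?_⟩
      · apply d.LB_rr_ne
        rw [hg, mul_one]
      · apply d.LB_rr_ne
        have : d.LB_r = 1 := by
          have h3 : d.LB_r * 1 = d.LB_r * d.LB_r := by rw [mul_one]; exact hg
          exact (mul_left_cancel h3).symm
        rw [this, mul_one]
    · refine ⟨d.LB_s, d.LB_mem j _ h', fun hg => ?_, fun hg => ?_⟩
      · have hs : ∀ x, d.s x = x := fun x => congrArg (fun f : M ≃ₐ[d.k] M => f x) hg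
        have h4 := d.sr y
        rw [hs, hs] at h4
        have h5 := congrArg d.r h4
        rw [d.r4] at h5
        exact hy h5
      · have hs : ∀ x, d.s x = d.r (d.r x) := fun x => congrArg (fun f : M ≃ₐ[d.k] M => f x) hg
        have h4 := d.sr y
        rw [hs, hs, d.r4] at h4
        have h5 := congrArg d.r h4
        rw [d.r4] at h5
        exact hy h5.symm
    · refine ⟨d.LB_r * d.LB_s, d.LB_mem j _ h', fun hg => ?_, fun hg => ?_⟩
      · have hs : ∀ x, d.r (d.s x) = x := fun x => congrArg (fun f : M ≃ₐ[d.k] M => f x) hg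
        have h4 := hs (d.r y)
        rw [d.sr, d.r4] at h4
        have h5 := hs y
        rw [h4] at h5
        exact hy h5
      · have hs : ∀ x, d.r (d.s x) = d.r (d.r x) :=
          fun x => congrArg (fun f : M ≃ₐ[d.k] M => f x) hg
        have h4 := hs (d.r y)
        rw [d.sr, d.r4] at h4
        have h5 := hs y
        rw [h4, d.r4] at h5
        exact hy h5.symm
  obtain ⟨g, hg, hg1, hg2⟩ := key
  have h3 : 3 ≤ Nat.card (j.fieldRange.fixingSubgroup) := by
    by_contra hc
    have hpos : 0 < Nat.card (j.fieldRange.fixingSubgroup) := by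
      rcases Nat.eq_zero_or_pos (Nat.card (j.fieldRange.fixingSubgroup)) with h0 | h0
      · rw [h0] at e; omega
      · exact h0
    have : Finite (j.fieldRange.fixingSubgroup) := Nat.finite_of_card_ne_zero (by omega)
    classical
    have hcard : ({1, d.LB_r * d.LB_r, g} : Finset (M ≃ₐ[d.k] M)).card = 3 := by
      rw [Finset.card_eq_three]
      exact ⟨1, d.LB_r * d.LB_r, g, d.LB_rr_ne.symm, hg1.symm, hg2.symm, rfl⟩
    have hsub : (({1, d.LB_r * d.LB_r, g} : Finset (M ≃ₐ[d.k] M)) : Set (M ≃ₐ[d.k] M)) ⊆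
        (j.fieldRange.fixingSubgroup : Set (M ≃ₐ[d.k] M)) := by
      intro x hx
      simp only [Finset.coe_insert, Finset.coe_singleton, Set.mem_insert_iff,
        Set.mem_singleton_iff] at hx
      rcases hx with rfl | rfl | rfl
      · exact one_mem _
      · exact h1
      · exact hg
    have hle := Set.ncard_le_ncard hsub (Set.toFinite _)
    rw [Set.ncard_coe_finset, hcard] at hle
    have : (j.fieldRange.fixingSubgroup : Set (M ≃ₐ[d.k] M)).ncard =
        Nat.card (j.fieldRange.fixingSubgroup) := rfl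
    omega
  by_contra hc
  have h5 : 3 ≤ Module.finrank d.k S := by omega
  have := Nat.mul_le_mul h5 h3
  omega

/-- a subfield fixed by `r` and `s` is `k` -/
theorem finrank_eq_one {S : Type} [Field S] [Algebra d.k S] [FiniteDimensional d.k S]
    (j : S →ₐ[d.k] M) (h : ∀ x, d.r (j x) = j x) (h' : ∀ x, d.s (j x) = j x) :
    Module.finrank d.k S = 1 := by
  have hsurj : Function.Surjective (algebraMap d.k S) := by
    intro x
    have hx : j x ∈ d.k := ⟨h x, h' x⟩
    refine ⟨⟨j x, hx⟩, ?_⟩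
    have h1 : j (algebraMap d.k S ⟨j x, hx⟩) = j x := by
      rw [AlgHom.commutes]
      rfl
    exact j.injective h1
  have e : d.k ≃ₗ[d.k] S :=
    LinearEquiv.ofBijective (Algebra.linearMap d.k S)
      ⟨(algebraMap d.k S).injective, hsurj⟩
  rw [← e.finrank_eq, Module.finrank_self]

end CData

end W_bec7e1
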