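import Mathlib
import Pool.Agent.W_bec7e1.CData

/-!
# The non-representability condition
-/

namespace W_bec7e1

namespace CData

variable {M : Type} [Field M] (d : CData M)

/-- The five classes `1, A, B, AB, ABT`. -/
def IsType (c : M) : Prop :=
  c = 1 ∨ c = d.A ∨ c = d.B ∨ c = d.A * d.B ∨ c = d.A * d.B * d.T

/-- No `lam0 c` is the square of a pure quaternion. -/
def NR : Prop :=
  ∀ lam0 : M, lam0 ∈ d.k → lam0 ≠ 0 → ∀ c, d.IsType c → ∀ m₁ m₂ : M, d.r (d.r m₁) = -m₁ →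
    lam0 * c ≠ m₁ ^ 2 + d.Y * (m₂ * d.r (d.r m₂))

end CData

end W_bec7e1
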