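import Mathlib
import Pool.Agent.W_bec7e1.NR

/-!
# Kummer classification
-/

namespace W_bec7e1

namespace CData

variable {M : Type} [Field M] [CharZero M] (d : CData M)

omit [CharZero M] in
theorem kl_s {x : M} (hx : d.r (d.r x) = x) : d.r (d.r (d.s x)) = d.s x := by
  have h := d.rr_s x
  rw [rr_apply, rr_apply, hx] at h
  exact h

omit [CharZero M] in
theorem kl_sr {x : M} (hx : d.r (d.r x) = x) : d.s (d.r x) = d.r (d.s x) := by
  rw [d.sr]
  have h := congrArg d.r (d.kl_s hx)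
  exact h

omit [CharZero M] in
theorem kl_rrT : d.r (d.r d.T) = d.T := by
  rw [d.rT, map_neg, d.rT, neg_neg]

omit [CharZero M] in
theorem kl_rTi : d.r d.T⁻¹ = -d.T⁻¹ := by
  rw [map_inv₀, d.rT, inv_neg]

omit [CharZero M] in
theorem kl_sTi : d.s d.T⁻¹ = d.T := by
  rw [map_inv₀, d.sT, inv_inv]

omit [CharZero M] in
theorem kl_i0 : d.i ≠ 0 := by
  intro h
  have := d.ii
  rw [h, mul_zero] at this
  have h1 : (1 : M) = 0 := by linear_combination this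
  exact one_ne_zero h1

omit [CharZero M] in
theorem kl_rA : d.r d.A = -d.A := by
  rw [A, map_div₀, map_add, d.rT, kl_rTi, map_ofNat]
  ring

omit [CharZero M] in
theorem kl_sA : d.s d.A = d.A := by
  rw [A, map_div₀, map_add, d.sT, kl_sTi, map_ofNat]
  ring

omit [CharZero M] in
theorem kl_rB : d.r d.B = -d.B := by
  rw [B, map_div₀, map_sub, d.rT, kl_rTi, map_mul, map_ofNat, d.ri]
  ring

omit [CharZero M] in
theorem kl_sB : d.s d.B = -d.B := by
  rw [B, map_div₀, map_sub, d.sT, kl_sTi, map_mul, map_ofNat, d.si]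
  ring

theorem kl_A0 : d.A ≠ 0 := by
  intro h
  have hT := d.T0
  rw [A, div_eq_zero_iff] at h
  rcases h with h | h
  · apply d.T4
    have h2 : d.T ^ 2 = -1 := by
      have := congrArg (fun x => x * d.T) h
      simp only [add_mul, inv_mul_cancel₀ hT, zero_mul] at this
      linear_combination this
    linear_combination (d.T ^ 2 - 1) * h2
  · exact two_ne_zero h

theorem kl_B0 : d.B ≠ 0 := by
  intro h
  have hT := d.T0
  rw [B, div_eq_zero_iff] at h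
  rcases h with h | h
  · apply d.T4
    have h2 : d.T ^ 2 = 1 := by
      have := congrArg (fun x => x * d.T) h
      simp only [sub_mul, inv_mul_cancel₀ hT, zero_mul] at this
      linear_combination this
    linear_combination (d.T ^ 2 + 1) * h2
  · exact mul_ne_zero two_ne_zero d.kl_i0 h

/-- Type `(+,+,+)`: Hilbert 90 twice. -/
theorem kummer_trivial (lam a b c : M) (h0 : lam ≠ 0) (hlam : d.r (d.r lam) = lam)
    (ha : d.r (d.r a) = a) (hb : d.r (d.r b) = b) (hc : d.r (d.r c) = c)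
    (h1 : d.r lam = a ^ 2 * lam) (h2 : d.s lam = b ^ 2 * lam)
    (h3 : d.r (d.s lam) = c ^ 2 * lam)
    (e1 : a * d.r a = 1) (e2 : b * d.s b = 1) (e3 : c * d.r (d.s c) = 1) :
    ∃ l : M, l ≠ 0 ∧ d.r (d.r l) = l ∧ lam * l ^ 2 ∈ d.k := by
  have ha0 : a ≠ 0 := left_ne_zero_of_mul_eq_one e1
  have hb0 : b ≠ 0 := left_ne_zero_of_mul_eq_one e2
  have hsa0 : d.s a ≠ 0 := (map_ne_zero d.s).2 ha0
  have hra0 : d.r a ≠ 0 := (map_ne_zero d.r).2 ha0
  have hrb0 : d.r b ≠ 0 := (map_ne_zero d.r).2 hb0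
  -- step 1
  obtain ⟨l1, hl10, hl1L, hl1⟩ : ∃ l1 : M, l1 ≠ 0 ∧ d.r (d.r l1) = l1 ∧ a * d.r l1 = l1 := by
    by_cases h : a = -1
    · refine ⟨d.T, d.T0, d.kl_rrT, ?_⟩
      rw [h, d.rT]; ring
    · refine ⟨1 + a, ?_, ?_, ?_⟩
      · intro h'
        exact h (by linear_combination h')
      · rw [map_add, map_add, map_one, map_one, ha]
      · rw [map_add, map_one]
        linear_combination e1
  have hsl0 : d.s l1 ≠ 0 := (map_ne_zero d.s).2 hl10
  have hrl0 : d.r l1 ≠ 0 := (map_ne_zero d.r).2 hl10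
  have hrl1 : d.r (lam * l1 ^ 2) = lam * l1 ^ 2 := by
    rw [map_mul, map_pow, h1]
    calc a ^ 2 * lam * d.r l1 ^ 2 = lam * (a * d.r l1) ^ 2 := by ring
      _ = lam * l1 ^ 2 := by rw [hl1]
  -- step 2
  have hsb : d.s b = b⁻¹ := eq_inv_of_mul_eq_one_right e2
  have hra : d.r a = a⁻¹ := eq_inv_of_mul_eq_one_right e1
  have hrsa : d.r (d.s a) = (d.s a)⁻¹ := by
    rw [← d.kl_sr ha, hra, map_inv₀]
  have hrsb : d.r (d.s b) = (d.r b)⁻¹ := by rw [hsb, map_inv₀]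
  have hrl : d.r l1 = l1 / a := by
    rw [eq_div_iff ha0, mul_comm]; exact hl1
  have hrsl : d.r (d.s l1) = d.s l1 / d.s a := by
    rw [← d.kl_sr hl1L, hrl, map_div₀]
  -- relation between a, b
  have key : a * d.r b = b * d.s a := by
    have hc2 : c ^ 2 = (a * d.r b) ^ 2 := by
      have h4 : d.r (d.s lam) = (a * d.r b) ^ 2 * lam := by
        rw [h2, map_mul, map_pow, h1]; ring
      rw [h3] at h4
      exact mul_right_cancel₀ h0 h4
    have hc3 : c * d.r (d.s c) = (a * d.r b) * d.r (d.s (a * d.r b)) := by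
      rcases sq_eq_sq_iff_eq_or_eq_neg.1 hc2 with h | h
      · rw [h]
      · rw [h, map_neg, map_neg]; ring
    rw [e3, map_mul, map_mul, d.kl_sr hb, hrsa, d.kl_s hb, hsb] at hc3
    field_simp at hc3
    linear_combination -hc3
  obtain ⟨b1, hb1⟩ : ∃ b1, b1 = b * d.s l1 / l1 := ⟨_, rfl⟩
  have hb1s : d.s (lam * l1 ^ 2) = b1 ^ 2 * (lam * l1 ^ 2) := by
    rw [map_mul, map_pow, h2, hb1]
    field_simp
  have hb1n : b1 * d.s b1 = 1 := by
    rw [hb1, map_div₀, map_mul, d.s2, hsb]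
    field_simp
  have hb10 : b1 ≠ 0 := left_ne_zero_of_mul_eq_one hb1n
  have hb1r : d.r b1 = b1 := by
    rw [hb1, map_div₀, map_mul, hrsl, hrl]
    field_simp
    linear_combination key
  -- step 3
  obtain ⟨l2, hl20, hl2r, hl2⟩ : ∃ l2 : M, l2 ≠ 0 ∧ d.r l2 = l2 ∧ b1 * d.s l2 = l2 := by
    by_cases h : b1 = -1
    · refine ⟨d.A * d.B, mul_ne_zero d.kl_A0 d.kl_B0, ?_, ?_⟩
      · rw [map_mul, kl_rA, kl_rB]; ring
      · rw [h, map_mul, kl_sA, kl_sB]; ring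
    · refine ⟨1 + b1, ?_, ?_, ?_⟩
      · intro h'
        exact h (by linear_combination h')
      · rw [map_add, map_one, hb1r]
      · rw [map_add, map_one]
        linear_combination hb1n
  refine ⟨l1 * l2, mul_ne_zero hl10 hl20, ?_, ?_, ?_⟩
  · rw [map_mul, map_mul, hl1L, hl2r, hl2r]
  · calc d.r (lam * (l1 * l2) ^ 2) = d.r (lam * l1 ^ 2) * (d.r l2) ^ 2 := by
          rw [← map_pow, ← map_mul]; congr 1; ring
      _ = lam * (l1 * l2) ^ 2 := by rw [hrl1, hl2r]; ring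
  · calc d.s (lam * (l1 * l2) ^ 2) = d.s (lam * l1 ^ 2) * (d.s l2) ^ 2 := by
          rw [← map_pow, ← map_mul]; congr 1; ring
      _ = lam * l1 ^ 2 * (b1 * d.s l2) ^ 2 := by rw [hb1s]; ring
      _ = lam * (l1 * l2) ^ 2 := by rw [hl2]; ring

/-- Twisting by a class. -/
theorem kummer_twist (lam a b c : M) (h0 : lam ≠ 0) (hlam : d.r (d.r lam) = lam)
    (ha : d.r (d.r a) = a) (hb : d.r (d.r b) = b) (hc : d.r (d.r c) = c)
    (h1 : d.r lam = a ^ 2 * lam) (h2 : d.s lam = b ^ 2 * lam)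
    (h3 : d.r (d.s lam) = c ^ 2 * lam) (t u v w : M) (t0 : t ≠ 0) (ht : d.r (d.r t) = t)
    (hu : d.r (d.r u) = u) (hv : d.r (d.r v) = v) (hw : d.r (d.r w) = w)
    (k1 : d.r t = u ^ 2 * t) (k2 : d.s t = v ^ 2 * t) (k3 : d.r (d.s t) = w ^ 2 * t)
    (e1 : a * d.r a * (u * d.r u) = 1) (e2 : b * d.s b * (v * d.s v) = 1)
    (e3 : c * d.r (d.s c) * (w * d.r (d.s w)) = 1) :
    ∃ l : M, l ≠ 0 ∧ d.r (d.r l) = l ∧ ∃ lam0 : M, lam0 ∈ d.k ∧ lam0 ≠ 0 ∧
      lam * l ^ 2 = lam0 * t := by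
  obtain ⟨l, hl0, hlL, hlk⟩ := d.kummer_trivial (lam * t) (a * u) (b * v) (c * w)
    (mul_ne_zero h0 t0) (by rw [map_mul, map_mul, hlam, ht]) (by rw [map_mul, map_mul, ha, hu])
    (by rw [map_mul, map_mul, hb, hv]) (by rw [map_mul, map_mul, hc, hw])
    (by rw [map_mul, h1, k1]; ring) (by rw [map_mul, h2, k2]; ring)
    (by rw [map_mul, map_mul, h3, k3]; ring)
    (by rw [map_mul]; linear_combination e1) (by rw [map_mul]; linear_combination e2)
    (by rw [map_mul, map_mul]; linear_combination e3)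
  refine ⟨t * l, mul_ne_zero t0 hl0, by rw [map_mul, map_mul, ht, hlL], lam * t * l ^ 2, hlk,
    mul_ne_zero (mul_ne_zero h0 t0) (pow_ne_zero _ hl0), by ring⟩

/-- If exactly one of the three signs is `-1` we are in the dihedral case; otherwise `lam` is
`lam0 c` times a square, for one of the five classes `c`. -/
theorem kummer (lam a b c : M) (h0 : lam ≠ 0) (hlam : d.r (d.r lam) = lam)
    (ha : d.r (d.r a) = a) (hb : d.r (d.r b) = b) (hc : d.r (d.r c) = c)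
    (h1 : d.r lam = a ^ 2 * lam) (h2 : d.s lam = b ^ 2 * lam)
    (h3 : d.r (d.s lam) = c ^ 2 * lam)
    (n1 : ¬ (a * d.r a = -1 ∧ b * d.s b = 1 ∧ c * d.r (d.s c) = 1))
    (n2 : ¬ (a * d.r a = 1 ∧ b * d.s b = -1 ∧ c * d.r (d.s c) = 1))
    (n3 : ¬ (a * d.r a = 1 ∧ b * d.s b = 1 ∧ c * d.r (d.s c) = -1)) :
    ∃ l : M, l ≠ 0 ∧ d.r (d.r l) = l ∧ ∃ lam0 : M, lam0 ∈ d.k ∧ lam0 ≠ 0 ∧
      ∃ t, d.IsType t ∧ lam * l ^ 2 = lam0 * t := by
  have hA0 := d.kl_A0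
  have hB0 := d.kl_B0
  have hT0 := d.T0
  have hii : d.i ^ 2 = -1 := by rw [sq]; exact d.ii
  have s1 : a * d.r a = 1 ∨ a * d.r a = -1 := by
    refine sq_eq_one_iff.1 ?_
    have h := hlam
    rw [h1, map_mul, map_pow, h1] at h
    have h' : (a * d.r a) ^ 2 * lam = 1 * lam := by linear_combination h
    exact mul_right_cancel₀ h0 h'
  have s2 : b * d.s b = 1 ∨ b * d.s b = -1 := by
    refine sq_eq_one_iff.1 ?_
    have h := d.s2 lam
    rw [h2, map_mul, map_pow, h2] at h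
    have h' : (b * d.s b) ^ 2 * lam = 1 * lam := by linear_combination h
    exact mul_right_cancel₀ h0 h'
  have s3 : c * d.r (d.s c) = 1 ∨ c * d.r (d.s c) = -1 := by
    refine sq_eq_one_iff.1 ?_
    have h : d.r (d.s (d.r (d.s lam))) = lam := by
      rw [d.kl_sr (d.kl_s hlam), d.s2, hlam]
    rw [h3, map_mul, map_mul, map_pow, map_pow, h3] at h
    have h' : (c * d.r (d.s c)) ^ 2 * lam = 1 * lam := by linear_combination h
    exact mul_right_cancel₀ h0 h'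
  have hri : d.r (d.r d.i) = d.i := by rw [d.ri, d.ri]
  have hrT : d.r (d.r (d.i * d.T⁻¹)) = d.i * d.T⁻¹ := by
    rw [map_mul, map_mul, hri, kl_rTi, map_neg, kl_rTi, neg_neg]
  have hrT' : d.r (d.r (d.T⁻¹)) = d.T⁻¹ := by
    rw [kl_rTi, map_neg, kl_rTi, neg_neg]
  have hr1 : d.r (d.r (1 : M)) = 1 := by rw [map_one, map_one]
  have hrA : d.r (d.r d.A) = d.A := by rw [kl_rA, map_neg, kl_rA, neg_neg]
  have hrB : d.r (d.r d.B) = d.B := by rw [kl_rB, map_neg, kl_rB, neg_neg]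
  have fin : ∀ t, d.IsType t → (∃ l : M, l ≠ 0 ∧ d.r (d.r l) = l ∧ ∃ lam0 : M, lam0 ∈ d.k ∧
      lam0 ≠ 0 ∧ lam * l ^ 2 = lam0 * t) →
      ∃ l : M, l ≠ 0 ∧ d.r (d.r l) = l ∧ ∃ lam0 : M, lam0 ∈ d.k ∧ lam0 ≠ 0 ∧
      ∃ t, d.IsType t ∧ lam * l ^ 2 = lam0 * t := by
    rintro t ht ⟨l, a1, a2, lam0, a3, a4, a5⟩
    exact ⟨l, a1, a2, lam0, a3, a4, t, ht, a5⟩
  rcases s1 with s1 | s1 <;> rcases s2 with s2 | s2 <;> rcases s3 with s3 | s3
  · -- (+,+,+)
    refine fin 1 (Or.inl rfl) (d.kummer_twist lam a b c h0 hlam ha hb hc h1 h2 h3 1 1 1 1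
      one_ne_zero hr1 hr1 hr1 hr1 ?_ ?_ ?_ ?_ ?_ ?_)
    · rw [map_one]; ring
    · rw [map_one]; ring
    · rw [map_one, map_one]; ring
    · rw [map_one, s1]; ring
    · rw [map_one, s2]; ring
    · rw [map_one, map_one, s3]; ring
  · exact absurd ⟨s1, s2, s3⟩ n3
  · exact absurd ⟨s1, s2, s3⟩ n2
  · -- (+,-,-)
    refine fin (d.A * d.B) (Or.inr (Or.inr (Or.inr (Or.inl rfl))))
      (d.kummer_twist lam a b c h0 hlam ha hb hc h1 h2 h3 (d.A * d.B) 1 d.i d.i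
      (mul_ne_zero hA0 hB0) ?_ hr1 hri hri ?_ ?_ ?_ ?_ ?_ ?_)
    · rw [map_mul, map_mul, hrA, hrB]
    · rw [map_mul, kl_rA, kl_rB]; ring
    · rw [map_mul, kl_sA, kl_sB, hii]; ring
    · rw [map_mul, map_mul, kl_sA, kl_sB, kl_rA, map_neg, kl_rB, hii]; ring
    · rw [map_one, s1]; ring
    · rw [d.si, d.ii, s2]; ring
    · rw [d.si, d.ri, d.ii, s3]; ring
  · exact absurd ⟨s1, s2, s3⟩ n1
  · -- (-,+,-)
    refine fin d.A (Or.inr (Or.inl rfl))
      (d.kummer_twist lam a b c h0 hlam ha hb hc h1 h2 h3 d.A d.i 1 d.i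
      hA0 hrA hri hr1 hri ?_ ?_ ?_ ?_ ?_ ?_)
    · rw [kl_rA, hii]; ring
    · rw [kl_sA]; ring
    · rw [kl_sA, kl_rA, hii]; ring
    · rw [d.ri, d.ii, s1]; ring
    · rw [map_one, s2]; ring
    · rw [d.si, d.ri, d.ii, s3]; ring
  · -- (-,-,+)
    refine fin d.B (Or.inr (Or.inr (Or.inl rfl)))
      (d.kummer_twist lam a b c h0 hlam ha hb hc h1 h2 h3 d.B d.i d.i 1
      hB0 hrB hri hri hr1 ?_ ?_ ?_ ?_ ?_ ?_)
    · rw [kl_rB, hii]; ring
    · rw [kl_sB, hii]; ring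
    · rw [kl_sB, map_neg, kl_rB]; ring
    · rw [d.ri, d.ii, s1]; ring
    · rw [d.si, d.ii, s2]; ring
    · rw [map_one, map_one, s3]; ring
  · -- (-,-,-)
    refine fin (d.A * d.B * d.T) (Or.inr (Or.inr (Or.inr (Or.inr rfl))))
      (d.kummer_twist lam a b c h0 hlam ha hb hc h1 h2 h3 (d.A * d.B * d.T) d.i
      (d.i * d.T⁻¹) d.T⁻¹ (mul_ne_zero (mul_ne_zero hA0 hB0) hT0) ?_ hri hrT hrT' ?_ ?_ ?_ ?_ ?_ ?_)
    · rw [map_mul, map_mul, map_mul, map_mul, hrA, hrB, kl_rrT]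
    · rw [map_mul, map_mul, kl_rA, kl_rB, d.rT, hii]; ring
    · rw [map_mul, map_mul, kl_sA, kl_sB, d.sT, mul_pow, hii]
      field_simp
    · rw [map_mul, map_mul, map_mul, kl_sA, kl_sB, d.sT, map_mul, kl_rA, map_neg, kl_rB, kl_rTi]
      field_simp
    · rw [d.ri, d.ii, s1]; ring
    · rw [map_mul, d.si, kl_sTi, s2]
      have : d.i * d.T⁻¹ * (d.i * d.T) = d.i * d.i * (d.T⁻¹ * d.T) := by ring
      rw [this, d.ii, inv_mul_cancel₀ hT0]; ring
    · rw [kl_sTi, d.rT, s3]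
      have : d.T⁻¹ * -d.T = -(d.T⁻¹ * d.T) := by ring
      rw [this, inv_mul_cancel₀ hT0]; ring

end CData

end W_bec7e1
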