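import Mathlib
import Pool.Agent.W_bec7e1.CData

/-!
# The identities between `Φ_a`, `Φ_b`, `β`, `γ`, `q`
-/

set_option linter.unusedSimpArgs false

namespace W_bec7e1

namespace CData

variable {M : Type} [Field M] (d : CData M)

theorem sγ : d.s d.γ = d.r (d.r (d.r d.γ)) := by
  have := congrArg (fun t => d.r (d.r (d.r t))) d.rsγ
  simpa only [d.r4] using this

theorem s_rβ : d.s (d.r d.β) = d.r (d.r (d.r d.β)) := by rw [d.sr, d.sβ]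
theorem s_rrβ : d.s (d.r (d.r d.β)) = d.r (d.r d.β) := by
  rw [d.sr, d.s_rβ, d.r4]
theorem s_rrrβ : d.s (d.r (d.r (d.r d.β))) = d.r d.β := by
  rw [d.sr, d.s_rrβ, d.r4]

theorem s_rγ : d.s (d.r d.γ) = d.r (d.r d.γ) := by rw [d.sr, d.sγ, d.r4]
theorem s_rrγ : d.s (d.r (d.r d.γ)) = d.r d.γ := by
  rw [d.sr, d.s_rγ, d.r4]
theorem s_rrrγ : d.s (d.r (d.r (d.r d.γ))) = d.γ := by
  rw [d.sr, d.s_rrγ, d.r4]

theorem sY' : d.s d.Y = d.γ * d.r d.γ * d.r (d.r d.γ) * d.r (d.r (d.r d.γ)) /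
    (d.β * d.r d.β * d.r (d.r d.β) * d.r (d.r (d.r d.β)) * d.Y) := by
  have hβ := d.β0
  have h1 : d.r d.β ≠ 0 := (map_ne_zero d.r).2 hβ
  have h2 : d.r (d.r d.β) ≠ 0 := (map_ne_zero d.r).2 h1
  have h3 : d.r (d.r (d.r d.β)) ≠ 0 := (map_ne_zero d.r).2 h2
  have hY := d.Y0
  rw [sY, ρ, map_div₀, map_div₀, map_div₀]
  field_simp

theorem Φb_re (y : d.Q) : (d.Φb y).re = d.s y.re := QExt.ext'_re _ _ _ _ _
theorem Φb_im (y : d.Q) : (d.Φb y).im = d.s y.im * d.ρb := QExt.ext'_im _ _ _ _ _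
theorem Φa_re (y : d.Q) : (d.Φa y).re = d.r (d.s y.re) := QExt.ext'_re _ _ _ _ _
theorem Φa_im (y : d.Q) : (d.Φa y).im = d.r (d.s y.im) * d.ρa := QExt.ext'_im _ _ _ _ _
theorem SQφ (x : M) : d.SQ.φ x = d.r (d.r x) := rfl
theorem SQb : d.SQ.b = d.Y := rfl

theorem Φb_β : d.Φb d.βQ = d.βQ := by
  ext
  · rw [Φb_re]; exact d.sβ
  · rw [Φb_im]; simp [βQ]

theorem Φa_γ : d.Φa d.γQ = d.γQ := by
  ext
  · rw [Φa_re]; exact d.rsγ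
  · rw [Φa_im]; simp [γQ]

theorem Φb_Φb (y : d.Q) : d.Φb (d.Φb y) * d.βQ = d.βQ * y := by
  have hβ := d.β0
  have h1 : d.r d.β ≠ 0 := (map_ne_zero d.r).2 hβ
  have h2 : d.r (d.r d.β) ≠ 0 := (map_ne_zero d.r).2 h1
  have h3 : d.r (d.r (d.r d.β)) ≠ 0 := (map_ne_zero d.r).2 h2
  have hγ := d.γ0
  have g1 : d.r d.γ ≠ 0 := (map_ne_zero d.r).2 hγ
  have g2 : d.r (d.r d.γ) ≠ 0 := (map_ne_zero d.r).2 g1
  have g3 : d.r (d.r (d.r d.γ)) ≠ 0 := (map_ne_zero d.r).2 g2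
  have hY := d.Y0
  ext
  · simp only [QExt.mul_re, Φb_re, Φb_im, βQ, QExt.of_re, QExt.of_im, SQφ, SQb, map_zero, zero_mul,
      mul_zero, add_zero, d.s2]
    ring
  · simp only [QExt.mul_im, Φb_re, Φb_im, βQ, QExt.of_re, QExt.of_im, SQφ, SQb, map_zero, zero_mul,
      mul_zero, add_zero, zero_add, d.s2, map_mul, ρb, ρ, map_div₀, sY', s_rβ, s_rrβ, s_rrrβ,
      s_rγ, s_rrγ, s_rrrγ, sγ, d.sβ, d.r4]
    field_simp

theorem Φa_Φa (y : d.Q) : d.Φa (d.Φa y) * d.γQ = d.γQ * y := by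
  have hβ := d.β0
  have h1 : d.r d.β ≠ 0 := (map_ne_zero d.r).2 hβ
  have h2 : d.r (d.r d.β) ≠ 0 := (map_ne_zero d.r).2 h1
  have h3 : d.r (d.r (d.r d.β)) ≠ 0 := (map_ne_zero d.r).2 h2
  have hγ := d.γ0
  have g1 : d.r d.γ ≠ 0 := (map_ne_zero d.r).2 hγ
  have g2 : d.r (d.r d.γ) ≠ 0 := (map_ne_zero d.r).2 g1
  have g3 : d.r (d.r (d.r d.γ)) ≠ 0 := (map_ne_zero d.r).2 g2
  have hY := d.Y0
  ext
  · simp only [QExt.mul_re, Φa_re, Φa_im, γQ, QExt.of_re, QExt.of_im, SQφ, SQb, map_zero, zero_mul,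
      mul_zero, add_zero, d.s2, d.sr, d.r4]
    ring
  · simp only [QExt.mul_im, Φa_re, Φa_im, γQ, QExt.of_re, QExt.of_im, SQφ, SQb, map_zero, zero_mul,
      mul_zero, add_zero, zero_add, d.s2, map_mul, ρa, ρ, map_div₀, sY', s_rβ, s_rrβ, s_rrrβ,
      s_rγ, s_rrγ, s_rrrγ, sγ, d.sβ, d.r4, d.sr, d.rY]
    field_simp

theorem q_Φa_q : d.q * d.Φa d.q * d.γQ = d.Φb d.γQ := by
  have hβ := d.β0
  have h1 : d.r d.β ≠ 0 := (map_ne_zero d.r).2 hβ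
  have h2 : d.r (d.r d.β) ≠ 0 := (map_ne_zero d.r).2 h1
  have h3 : d.r (d.r (d.r d.β)) ≠ 0 := (map_ne_zero d.r).2 h2
  have hγ := d.γ0
  have g1 : d.r d.γ ≠ 0 := (map_ne_zero d.r).2 hγ
  have g2 : d.r (d.r d.γ) ≠ 0 := (map_ne_zero d.r).2 g1
  have g3 : d.r (d.r (d.r d.γ)) ≠ 0 := (map_ne_zero d.r).2 g2
  have hY := d.Y0
  ext
  · simp only [q, QExt.mul_re, QExt.mul_im, Φa_re, Φa_im, Φb_re, Φb_im, γQ, QExt.of_re,
      QExt.of_im, SQφ, SQb, map_zero, zero_mul, QExt.z_re, QExt.z_im, map_one, one_mul, mul_one,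
      mul_zero, add_zero, zero_add, d.s2, map_mul, ρa, ρ, map_div₀, sY', s_rβ, s_rrβ, s_rrrβ,
      s_rγ, s_rrγ, s_rrrγ, sγ, d.sβ, d.r4, d.sr, d.rY]
    field_simp
  · simp only [q, QExt.mul_re, QExt.mul_im, Φa_re, Φa_im, Φb_re, Φb_im, γQ, QExt.of_re,
      QExt.of_im, SQφ, SQb, map_zero, zero_mul, QExt.z_re, QExt.z_im, map_one, one_mul, mul_one,
      mul_zero, add_zero, zero_add, d.s2, map_mul, ρa, ρ, map_div₀, sY', s_rβ, s_rrβ, s_rrrβ,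
      s_rγ, s_rrγ, s_rrrγ, sγ, d.sβ, d.r4, d.sr, d.rY]

theorem q_Φa_Φb (y : d.Q) : d.q * d.Φa (d.Φb y) = d.Φb (d.Φa y) * d.q := by
  have hβ := d.β0
  have h1 : d.r d.β ≠ 0 := (map_ne_zero d.r).2 hβ
  have h2 : d.r (d.r d.β) ≠ 0 := (map_ne_zero d.r).2 h1
  have h3 : d.r (d.r (d.r d.β)) ≠ 0 := (map_ne_zero d.r).2 h2
  have hγ := d.γ0
  have g1 : d.r d.γ ≠ 0 := (map_ne_zero d.r).2 hγ
  have g2 : d.r (d.r d.γ) ≠ 0 := (map_ne_zero d.r).2 g1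
  have g3 : d.r (d.r (d.r d.γ)) ≠ 0 := (map_ne_zero d.r).2 g2
  have hY := d.Y0
  ext
  · simp only [q, QExt.mul_re, QExt.mul_im, Φa_re, Φa_im, Φb_re, Φb_im, γQ, QExt.of_re,
      QExt.of_im, SQφ, SQb, map_zero, zero_mul, QExt.z_re, QExt.z_im, map_one, one_mul, mul_one,
      mul_zero, add_zero, zero_add, d.s2, map_mul, ρa, ρb, ρ, map_div₀, sY', s_rβ, s_rrβ, s_rrrβ,
      s_rγ, s_rrγ, s_rrrγ, sγ, d.sβ, d.r4, d.sr, d.rY]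
    field_simp
  · simp only [q, QExt.mul_re, QExt.mul_im, Φa_re, Φa_im, Φb_re, Φb_im, γQ, QExt.of_re,
      QExt.of_im, SQφ, SQb, map_zero, zero_mul, QExt.z_re, QExt.z_im, map_one, one_mul, mul_one,
      mul_zero, add_zero, zero_add, d.s2, map_mul, ρa, ρb, ρ, map_div₀, sY', s_rβ, s_rrβ, s_rrrβ,
      s_rγ, s_rrγ, s_rrrγ, sγ, d.sβ, d.r4, d.sr, d.rY]
    field_simp

theorem Φb_q_q : d.Φb d.q * d.q * d.Φa d.βQ = d.βQ := by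
  have hβ := d.β0
  have h1 : d.r d.β ≠ 0 := (map_ne_zero d.r).2 hβ
  have h2 : d.r (d.r d.β) ≠ 0 := (map_ne_zero d.r).2 h1
  have h3 : d.r (d.r (d.r d.β)) ≠ 0 := (map_ne_zero d.r).2 h2
  have hγ := d.γ0
  have g1 : d.r d.γ ≠ 0 := (map_ne_zero d.r).2 hγ
  have g2 : d.r (d.r d.γ) ≠ 0 := (map_ne_zero d.r).2 g1
  have g3 : d.r (d.r (d.r d.γ)) ≠ 0 := (map_ne_zero d.r).2 g2
  have hY := d.Y0
  ext
  · simp only [q, QExt.mul_re, QExt.mul_im, Φa_re, Φa_im, Φb_re, Φb_im, βQ, QExt.of_re,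
      QExt.of_im, SQφ, SQb, map_zero, zero_mul, QExt.z_re, QExt.z_im, map_one, one_mul, mul_one,
      mul_zero, add_zero, zero_add, d.s2, map_mul, ρa, ρb, ρ, map_div₀, sY', s_rβ, s_rrβ, s_rrrβ,
      s_rγ, s_rrγ, s_rrrγ, sγ, d.sβ, d.r4, d.sr, d.rY]
    field_simp
  · simp only [q, QExt.mul_re, QExt.mul_im, Φa_re, Φa_im, Φb_re, Φb_im, βQ, QExt.of_re,
      QExt.of_im, SQφ, SQb, map_zero, zero_mul, QExt.z_re, QExt.z_im, map_one, one_mul, mul_one,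
      mul_zero, add_zero, zero_add, d.s2, map_mul, ρa, ρb, ρ, map_div₀, sY', s_rβ, s_rrβ, s_rrrβ,
      s_rγ, s_rrγ, s_rrrγ, sγ, d.sβ, d.r4, d.sr, d.rY]

end CData

end W_bec7e1
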