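import Mathlib
import Pool.Agent.W_bec7e1.Identities
import Pool.Agent.W_bec7e1.Domain

/-!
# The two levels over `Q`
-/

namespace W_bec7e1

open HahnSeries

noncomputable section

namespace CData

variable {M : Type} [Field M] (d : CData M)

theorem mem_k {x : M} : x ∈ d.k ↔ d.r x = x ∧ d.s x = x := Iff.rfl

instance instAlgQ : Algebra d.k (QExt d.SQ) :=
  ((QExt.of d.SQ).comp d.k.subtype).toAlgebra' (by
    rintro ⟨a, ha1, ha2⟩ x
    ext
    · simp [mul_comm]
    · simp only [RingHom.comp_apply, Subfield.subtype_apply, QExt.mul_im, QExt.of_re, QExt.of_im,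
        zero_mul, add_zero, mul_zero, zero_add]
      rw [SQφ, ha1, ha1, mul_comm])

theorem algebraMap_Q (a : d.k) : algebraMap d.k d.Q a = QExt.of d.SQ (a : M) := rfl

theorem Φa_alg (a : d.k) : d.Φa (algebraMap d.k d.Q a) = algebraMap d.k d.Q a := by
  obtain ⟨a, ha1, ha2⟩ := a
  rw [algebraMap_Q]
  ext
  · rw [Φa_re]
    simp [ha1, ha2]
  · rw [Φa_im]; simp

theorem Φb_alg (a : d.k) : d.Φb (algebraMap d.k d.Q a) = algebraMap d.k d.Q a := by
  obtain ⟨a, ha1, ha2⟩ := a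
  rw [algebraMap_Q]
  ext
  · rw [Φb_re]
    simp [ha2]
  · rw [Φb_im]; simp

theorem βQ0 : d.βQ ≠ 0 := fun h => d.β0 (congrArg QExt.re h)
theorem γQ0 : d.γQ ≠ 0 := fun h => d.γ0 (congrArg QExt.re h)

/-- The first level datum. -/
def S₁ : LData d.k d.Q where
  φ := { d.Φa with commutes' := d.Φa_alg }
  b := d.γQ
  φb := d.Φa_γ
  φφ := d.Φa_Φa
  b0 := d.γQ0

theorem S₁φ (x : d.Q) : d.S₁.φ x = d.Φa x := rfl

/-- The first level. -/
abbrev C₁ : Type := QExt d.S₁.toQ

theorem S₁toQφ (x : LaurentSeries d.Q) : d.S₁.toQ.φ x = lmap d.Φa x := rfl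

/-- The extension of `Φ_b` to the first level. -/
def Ψ : d.C₁ →+* d.C₁ :=
  QExt.ext' (S := d.S₁.toQ) (lmap d.Φb) (HahnSeries.C d.q)
    (fun x => by
      ext1
      ext1 n
      rw [S₁toQφ, S₁toQφ, HahnSeries.C_apply, coeff_single_zero_mul, coeff_mul_single_zero]
      simp only [lmap_coeff]
      exact d.q_Φa_Φb _)
    (by
      rw [S₁toQφ, lmap_C]
      change HahnSeries.C d.q * HahnSeries.C (d.Φa d.q) * single 1 d.γQ = lmap d.Φb (single 1 d.γQ)
      rw [lmap_single, ← map_mul, HahnSeries.C_apply, single_mul_single, zero_add, d.q_Φa_q])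

theorem Ψ_re (x : d.C₁) : (d.Ψ x).re = lmap d.Φb x.re := QExt.ext'_re _ _ _ _ _
theorem Ψ_im (x : d.C₁) : (d.Ψ x).im = lmap d.Φb x.im * HahnSeries.C d.q :=
  QExt.ext'_im _ _ _ _ _

theorem Ψ_alg (a : LaurentSeries d.k) :
    d.Ψ (algebraMap (LaurentSeries d.k) d.C₁ a) = algebraMap (LaurentSeries d.k) d.C₁ a := by
  rw [LData.algebraMap_eq]
  ext1
  · rw [Ψ_re]
    ext1
    ext1 n
    simp only [QExt.of_re, lmap_coeff]
    exact d.Φb_alg _
  · rw [Ψ_im]
    simp

/-- `β` in the first level. -/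
def β₁ : d.C₁ := QExt.of d.S₁.toQ (HahnSeries.C d.βQ)

theorem Ψ_β : d.Ψ d.β₁ = d.β₁ := by
  ext1
  · rw [Ψ_re, β₁, QExt.of_re, lmap_C, d.Φb_β]
  · rw [Ψ_im, β₁]; simp

theorem Ψ_Ψ (x : d.C₁) : d.Ψ (d.Ψ x) * d.β₁ = d.β₁ * x := by
  have key : ∀ y : LaurentSeries d.Q,
      lmap d.Φb (lmap d.Φb y) * HahnSeries.C d.βQ = HahnSeries.C d.βQ * y := by
    intro y
    ext1
    ext1 n
    rw [HahnSeries.C_apply, coeff_single_zero_mul, coeff_mul_single_zero]
    simp only [lmap_coeff]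
    exact d.Φb_Φb _
  ext1
  · rw [QExt.mul_re, QExt.mul_re, β₁, QExt.of_re, QExt.of_im, map_zero, mul_zero, zero_mul,
      add_zero, zero_mul, zero_mul, add_zero, Ψ_re, Ψ_re, key]
  · rw [QExt.mul_im, QExt.mul_im, β₁, QExt.of_re, QExt.of_im, mul_zero, zero_add, zero_mul,
      add_zero, Ψ_im, Ψ_im, S₁toQφ, lmap_C, map_mul, lmap_C, mul_assoc, mul_assoc, ← map_mul,
      ← map_mul, ← mul_assoc (d.Φb d.q), d.Φb_q_q, key]

theorem β₁0 : d.β₁ ≠ 0 := by
  intro h
  have h1 := congrArg QExt.re h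
  rw [β₁, QExt.of_re, QExt.zero_re] at h1
  have h2 := congrArg (fun x : LaurentSeries d.Q => x.coeff 0) h1
  simp only [HahnSeries.C_apply, coeff_single_same, coeff_zero] at h2
  exact d.βQ0 h2

/-- The ground field `k((s))` of the first level. -/
def F₁ : Type := LaurentSeries d.k

instance instFieldF₁ : Field d.F₁ := inferInstanceAs (Field (LaurentSeries d.k))

instance instAlgC₁ : Algebra d.F₁ (QExt d.S₁.toQ) :=
  inferInstanceAs (Algebra (LaurentSeries d.k) (QExt d.S₁.toQ))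

/-- The second level datum. -/
def S₂ : LData d.F₁ d.C₁ where
  φ := { d.Ψ with commutes' := d.Ψ_alg }
  b := d.β₁
  φb := d.Ψ_β
  φφ := d.Ψ_Ψ
  b0 := d.β₁0

theorem S₂φ (x : d.C₁) : d.S₂.φ x = d.Ψ x := rfl

/-- The algebra `D`. -/
abbrev D : Type := QExt d.S₂.toQ

/-- The ground field of `D`. -/
abbrev F : Type := LaurentSeries d.F₁

/-- The quaternion algebra is a domain. -/
instance : NoZeroDivisors (QExt d.SQ) where
  eq_zero_or_eq_zero_of_mul_eq_zero := by
    intro x y h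
    by_cases hx : x = 0
    · exact Or.inl hx
    right
    set N : M := d.r (d.r x.re) * x.re - x.im * d.r (d.r x.im) * d.Y with hN
    have h1 : (⟨d.r (d.r x.re), -x.im⟩ : d.Q) * x = QExt.of d.SQ N := by
      ext
      · rw [QExt.mul_re, QExt.of_re, SQφ, SQb, hN]; ring
      · rw [QExt.mul_im, QExt.of_im, SQφ]; ring
    have hN0 : N ≠ 0 := by
      intro h0
      have := d.AN x.re x.im (by rw [hN] at h0; linear_combination h0)
      exact hx (QExt.ext this.1 this.2)
    have h2 : QExt.of d.SQ N * y = 0 := by rw [← h1, mul_assoc, h, mul_zero]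
    have h3 := congrArg QExt.re h2
    have h4 := congrArg QExt.im h2
    rw [QExt.mul_re, QExt.of_re, QExt.of_im, zero_mul, zero_mul, add_zero, QExt.zero_re] at h3
    rw [QExt.mul_im, QExt.of_re, QExt.of_im, zero_mul, add_zero, QExt.zero_im] at h4
    exact QExt.ext ((mul_eq_zero.1 h3).resolve_left hN0) ((mul_eq_zero.1 h4).resolve_left hN0)

instance : NoZeroDivisors d.C₁ := inferInstance
instance : Nontrivial d.C₁ := inferInstance
instance : NoZeroDivisors d.D := inferInstance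
instance : Nontrivial d.D := inferInstance

end CData

end

end W_bec7e1
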