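import Mathlib
import Pool.Agent.W_bec7e1.Kummer
import Pool.Agent.W_bec7e1.Levels
import Pool.Agent.W_bec7e1.LBound

/-!
# Conjugation on `Q` and Galois subfields: preparations
-/

namespace W_bec7e1

/-- Lifting an automorphism of `M` through a normal intermediate field. -/
theorem QL_lift {k S M : Type} [Field k] [Field S] [Field M] [Algebra k S] [Algebra k M]
    [Normal k S] (E : IntermediateField k S) [Normal k E] (e : E →ₐ[k] M) (γ : M ≃ₐ[k] M) :
    ∃ (g : S ≃ₐ[k] S) (g0 : E ≃ₐ[k] E), (∀ x : E, g (x : S) = (g0 x : S)) ∧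
      ∀ x : E, e (g0 x) = γ (e x) := by
  letI : Algebra E M := e.toRingHom.toAlgebra
  have : IsScalarTower k E M := IsScalarTower.of_algebraMap_eq (fun x => (e.commutes x).symm)
  refine ⟨(γ.restrictNormal E).liftNormal S, γ.restrictNormal E, fun x => ?_, fun x => ?_⟩
  · exact (γ.restrictNormal E).liftNormal_commutes S x
  · exact γ.restrictNormal_commutes E x

namespace CData

variable {M : Type} [Field M] (d : CData M)

/-- conjugation on `Q` -/
def QLc (x : d.Q) : d.Q := ⟨d.r (d.r x.re), -x.im⟩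

theorem QLc_re (x : d.Q) : (d.QLc x).re = d.r (d.r x.re) := rfl
theorem QLc_im (x : d.Q) : (d.QLc x).im = -x.im := rfl

theorem QLc_zero : d.QLc 0 = 0 := by
  ext
  · rw [QLc_re]; simp
  · rw [QLc_im]; simp

theorem QLc_one : d.QLc 1 = 1 := by
  ext
  · rw [QLc_re]; simp
  · rw [QLc_im]; simp

theorem QLc_add (x y : d.Q) : d.QLc (x + y) = d.QLc x + d.QLc y := by
  ext
  · simp only [QLc_re, QExt.add_re, map_add]
  · simp only [QLc_im, QExt.add_im]; ring

theorem QLc_mul (x y : d.Q) : d.QLc (x * y) = d.QLc y * d.QLc x := by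
  ext
  · simp only [QLc_re, QLc_im, QExt.mul_re, map_add, map_mul, SQφ, SQb, d.r4, d.rY, map_neg]
    ring
  · simp only [QLc_re, QLc_im, QExt.mul_im, map_mul, SQφ, d.r4]
    ring

theorem QLc_QLc (x : d.Q) : d.QLc (d.QLc x) = x := by
  ext
  · simp only [QLc_re, d.r4]
  · simp only [QLc_im, neg_neg]

theorem QLc_alg (a : d.k) : d.QLc (algebraMap d.k d.Q a) = algebraMap d.k d.Q a := by
  obtain ⟨a, h1, h2⟩ := a
  rw [algebraMap_Q]
  ext
  · rw [QLc_re, QExt.of_re]
    show d.r (d.r a) = a
    rw [h1, h1]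
  · rw [QLc_im, QExt.of_im, neg_zero]

theorem QLc_pow (x : d.Q) (n : ℕ) : d.QLc (x ^ n) = (d.QLc x) ^ n := by
  induction n with
  | zero => rw [pow_zero, pow_zero, QLc_one]
  | succ n ih => rw [pow_succ, QLc_mul, ih, pow_succ']

theorem QLc_aeval (P : Polynomial d.k) (x : d.Q) :
    d.QLc (Polynomial.aeval x P) = Polynomial.aeval (d.QLc x) P := by
  induction P using Polynomial.induction_on' with
  | add p q hp hq => rw [map_add, map_add, QLc_add, hp, hq]
  | monomial n a =>
    rw [Polynomial.aeval_monomial, Polynomial.aeval_monomial, QLc_mul, QLc_alg, QLc_pow]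
    exact (Algebra.commutes a _).symm

theorem QLc_comm (x y : d.Q) (h : x * y = y * x) : d.QLc x * y = y * d.QLc x := by
  have h1 : (x + d.QLc x) * y = y * (x + d.QLc x) := by
    ext
    · simp only [QExt.mul_re, QExt.add_re, QExt.add_im, QLc_re, QLc_im, SQφ, map_add, d.r4]
      ring_nf
      simp
    · simp only [QExt.mul_im, QExt.add_re, QExt.add_im, QLc_re, QLc_im, SQφ, map_add, d.r4]
      ring
  rw [add_mul, mul_add, h] at h1
  exact add_left_cancel h1

theorem QLc_fix [CharZero M] {x : d.Q} (h : d.QLc x = x) : x.im = 0 ∧ d.r (d.r x.re) = x.re := by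
  have h1 := congrArg QExt.re h
  have h2 := congrArg QExt.im h
  rw [QLc_re] at h1
  rw [QLc_im] at h2
  exact ⟨self_eq_neg.1 h2.symm, h1⟩

theorem QL_prod {R : Type} [Field R] (φ : Polynomial R →+* d.Q) (s : Multiset (Polynomial R))
    (h : φ s.prod = 0) : ∃ p ∈ s, φ p = 0 := by
  induction s using Multiset.induction with
  | empty =>
    rw [Multiset.prod_zero, map_one] at h
    exact (one_ne_zero h).elim
  | cons a s ih =>
    rw [Multiset.prod_cons, map_mul] at h
    rcases mul_eq_zero.1 h with h | h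
    · exact ⟨a, Multiset.mem_cons_self a s, h⟩
    · obtain ⟨p, hp, h⟩ := ih h
      exact ⟨p, Multiset.mem_cons_of_mem hp, h⟩

/-- (1): the image of a normal extension is stable under conjugation -/
theorem QL_exists (S : Type) [Field S] [Algebra d.k S] [FiniteDimensional d.k S]
    [IsGalois d.k S] (j : S →ₐ[d.k] d.Q) (s : S) : ∃ a : S, j a = d.QLc (j s) := by
  have hc : ∀ a : S, Commute ((j : S →+* d.Q) a) (d.QLc (j s)) := by
    intro a
    have h1 : j s * j a = j a * j s := by rw [← map_mul, ← map_mul, mul_comm]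
    exact (d.QLc_comm _ _ h1).symm
  set φ : Polynomial S →+* d.Q := Polynomial.eval₂RingHom' (j : S →+* d.Q) (d.QLc (j s)) hc with hφ
  have hint : IsIntegral d.k s := Algebra.IsIntegral.isIntegral s
  have h1 : φ ((minpoly d.k s).map (algebraMap d.k S)) = 0 := by
    have h2 : φ ((minpoly d.k s).map (algebraMap d.k S)) =
        Polynomial.aeval (d.QLc (j s)) (minpoly d.k s) := by
      show Polynomial.eval₂ (j : S →+* d.Q) (d.QLc (j s)) _ = _
      rw [Polynomial.eval₂_map, Polynomial.aeval_def]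
      congr 1
      exact j.comp_algebraMap
    rw [h2, ← QLc_aeval, Polynomial.aeval_algHom_apply, minpoly.aeval, map_zero, QLc_zero]
  have hsplit := Normal.splits (inferInstance : Normal d.k S) s
  have hmonic : ((minpoly d.k s).map (algebraMap d.k S)).Monic := (minpoly.monic hint).map _
  rw [hsplit.eq_prod_roots_of_monic hmonic] at h1
  obtain ⟨p, hp, hp0⟩ := d.QL_prod φ _ h1
  obtain ⟨a, ha, rfl⟩ := Multiset.mem_map.1 hp
  refine ⟨a, ?_⟩
  rw [map_sub] at hp0
  have h3 : φ Polynomial.X = d.QLc (j s) := Polynomial.eval₂_X _ _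
  have h4 : φ (Polynomial.C a) = j a := Polynomial.eval₂_C _ _
  rw [h3, h4] at hp0
  exact (sub_eq_zero.1 hp0).symm

end CData

end W_bec7e1
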