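import Mathlib
import Pool.Agent.W_bec7e1.Kummer
import Pool.Agent.W_bec7e1.Levels
import Pool.Agent.W_bec7e1.QLevelA

/-!
# Galois subfields of `Q`
-/

namespace W_bec7e1

namespace CData

variable {M : Type} [Field M] [CharZero M] (d : CData M)

omit [CharZero M] in
theorem QL_aut (S : Type) [Field S] [Algebra d.k S] [FiniteDimensional d.k S]
    [IsGalois d.k S] (j : S →ₐ[d.k] d.Q) :
    ∃ h : S ≃ₐ[d.k] S, ∀ x, j (h x) = d.QLc (j x) := by
  choose f hf using d.QL_exists S j
  have hinj : Function.Injective j := (j : S →+* d.Q).injective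
  let F : S →ₐ[d.k] S :=
    { toFun := f
      map_one' := hinj (by rw [hf, map_one, QLc_one])
      map_zero' := hinj (by rw [hf, map_zero, QLc_zero])
      map_add' := fun x y => hinj (by rw [hf, map_add, QLc_add, map_add, hf, hf])
      map_mul' := fun x y => hinj (by
        rw [hf, map_mul, QLc_mul, mul_comm (f x) (f y), map_mul, hf, hf])
      commutes' := fun a => hinj (by rw [hf, AlgHom.commutes, QLc_alg]) }
  have hF : ∀ x, F (F x) = x := by
    intro x
    apply hinj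
    show j (f (f x)) = j x
    rw [hf, hf, QLc_QLc]
  exact ⟨AlgEquiv.ofAlgHom F F (AlgHom.ext hF) (AlgHom.ext hF), hf⟩

/-- A Galois extension `S` of `k` inside `Q`, not contained in the centre `L` of `Q`, whose Galois
group has all its involutions central, contradicts `NR`. -/
theorem qlevel (hNR : d.NR) (S : Type) [Field S] [Algebra d.k S] [FiniteDimensional d.k S]
    [IsGalois d.k S] (j : S →ₐ[d.k] d.Q)
    (hS : ∃ x : S, ¬ ((j x).im = 0 ∧ d.r (d.r (j x).re) = (j x).re))
    (hinv : ∀ g h : S ≃ₐ[d.k] S, g * g = 1 → g * h = h * g) : False := by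
  obtain ⟨h, hh⟩ := d.QL_aut S j
  have hinj : Function.Injective j := (j : S →+* d.Q).injective
  have hhx : ∀ x, h (h x) = x := fun x => hinj (by rw [hh, hh, QLc_QLc])
  have hh1 : h * h = 1 := AlgEquiv.ext hhx
  have hcomm : ∀ (g : S ≃ₐ[d.k] S) (x : S), h (g x) = g (h x) := fun g x =>
    congrArg (fun f : S ≃ₐ[d.k] S => f x) (hinv h g hh1)
  let E : IntermediateField d.k S :=
    { carrier := {x | h x = x}
      mul_mem' := fun {a b} ha hb => by
        show h (a * b) = a * b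
        rw [map_mul, show h a = a from ha, show h b = b from hb]
      add_mem' := fun {a b} ha hb => by
        show h (a + b) = a + b
        rw [map_add, show h a = a from ha, show h b = b from hb]
      algebraMap_mem' := fun a => h.commutes a
      inv_mem' := fun a ha => by
        show h a⁻¹ = a⁻¹
        rw [map_inv₀, show h a = a from ha] }
  have hEmem : ∀ x, x ∈ E ↔ h x = x := fun x => Iff.rfl
  have hEg : ∀ (g : S ≃ₐ[d.k] S) (x : S), x ∈ E → g x ∈ E := by
    intro g x hx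
    rw [hEmem] at hx ⊢
    rw [hcomm, hx]
  have hnorm : Normal d.k E := by
    rw [IntermediateField.normal_iff_forall_map_le']
    intro σ
    rintro _ ⟨x, hx, rfl⟩
    exact hEg σ x hx
  have hEL : ∀ x : E, (j (x : S)).im = 0 ∧ d.r (d.r (j (x : S)).re) = (j (x : S)).re := by
    intro x
    apply d.QLc_fix
    rw [← hh]
    exact congrArg j x.2
  let e : E →ₐ[d.k] M :=
    { toFun := fun x => (j (x : S)).re
      map_one' := by
        show (j (1 : S)).re = 1
        rw [map_one]; rfl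
      map_zero' := by
        show (j (0 : S)).re = 0
        rw [map_zero]; rfl
      map_add' := fun x y => by
        show (j ((x : S) + (y : S))).re = _
        rw [map_add]; rfl
      map_mul' := fun x y => by
        show (j ((x : S) * (y : S))).re = _
        rw [map_mul, QExt.mul_re, (hEL x).1, zero_mul, zero_mul, add_zero]
      commutes' := fun a => by
        show (j (algebraMap d.k S a)).re = _
        rw [j.commutes]; rfl }
  have he : ∀ x : E, e x = (j (x : S)).re := fun x => rfl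
  have heL : ∀ x : E, d.r (d.r (e x)) = e x := fun x => (hEL x).2
  have heinj : Function.Injective e := (e : E →+* M).injective
  obtain ⟨x0, hx0⟩ := hS
  have hx0' : h x0 ≠ x0 := fun hx => hx0 (d.QLc_fix (by rw [← hh, hx]))
  obtain ⟨s1, hs1, hs0⟩ : ∃ s1 : S, h s1 = -s1 ∧ s1 ≠ 0 := by
    refine ⟨x0 - h x0, ?_, sub_ne_zero.2 hx0'.symm⟩
    rw [map_sub, hhx]; ring
  have hmemt : s1 ^ 2 ∈ E := by
    rw [hEmem, map_pow, hs1]; ring
  set t : E := ⟨s1 ^ 2, hmemt⟩ with ht
  have ht0 : t ≠ 0 := by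
    intro h0
    have h1 : (t : S) = 0 := by rw [h0]; rfl
    exact hs0 (pow_eq_zero_iff (two_ne_zero)|>.1 h1)
  have hlam0 : e t ≠ 0 := by
    rw [← map_zero e]
    exact fun h0 => ht0 (heinj h0)
  have hkz : CharZero d.k := ⟨fun a b hab => by
    have h1 := congrArg (fun z : d.k => (z : M)) hab
    simpa using h1⟩
  have hSz : CharZero S := charZero_of_injective_algebraMap (algebraMap d.k S).injective
  -- the key facts
  have key : ∀ (γ : M ≃ₐ[d.k] M) (g : S ≃ₐ[d.k] S) (g0 : E ≃ₐ[d.k] E),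
      (∀ x : E, g (x : S) = (g0 x : S)) → (∀ x : E, e (g0 x) = γ (e x)) →
      (∀ x : E, γ (γ (e x)) = e x) →
      ∃ μ : E, γ (e t) = (e μ) ^ 2 * e t ∧
        ((e μ * γ (e μ) = 1 ∧ g * g = 1) ∨ (e μ * γ (e μ) = -1 ∧ g * g ≠ 1)) := by
    intro γ g g0 hg hγ hγγ
    have hμ : g s1 / s1 ∈ E := by
      rw [hEmem, map_div₀, hcomm, hs1, map_neg, neg_div_neg_eq]
    have hgs : g s1 = (g s1 / s1) * s1 := by rw [div_mul_cancel₀ _ hs0]
    set μ : E := ⟨g s1 / s1, hμ⟩ with hμdef
    have hgs' : g s1 = (μ : S) * s1 := hgs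
    have hg0t : g0 t = μ ^ 2 * t := by
      apply Subtype.ext
      rw [← hg t]
      show g (s1 ^ 2) = (μ : S) ^ 2 * s1 ^ 2
      rw [map_pow, hgs']; ring
    have hg0g0 : ∀ x : E, g0 (g0 x) = x := fun x => heinj (by rw [hγ, hγ, hγγ])
    have hgg : ∀ x : E, g (g (x : S)) = (x : S) := fun x => by rw [hg, hg, hg0g0]
    have hν : g (g s1) = ((μ * g0 μ : E) : S) * s1 := by
      rw [hgs', map_mul, hgs', hg μ]
      show (g0 μ : S) * ((μ : S) * s1) = (μ : S) * (g0 μ : S) * s1
      ring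
    have hν2 : (μ * g0 μ) ^ 2 = 1 := by
      have h1 : (g (g s1)) ^ 2 = s1 ^ 2 := by
        rw [← map_pow, ← map_pow]
        exact hgg t
      rw [hν, mul_pow] at h1
      have h2 : (((μ * g0 μ : E) : S)) ^ 2 = 1 := by
        have h3 : s1 ^ 2 ≠ 0 := pow_ne_zero 2 hs0
        exact mul_right_cancel₀ h3 (by rw [h1, one_mul])
      exact Subtype.ext h2
    refine ⟨μ, ?_, ?_⟩
    · rw [← hγ, hg0t, map_mul, map_pow]
    · have heν : e (μ * g0 μ) = e μ * γ (e μ) := by rw [map_mul, hγ]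
      rcases sq_eq_one_iff.1 hν2 with h1 | h1
      · left
        refine ⟨by rw [← heν, h1, map_one], AlgEquiv.ext fun x => ?_⟩
        show g (g x) = x
        have hgs1 : g (g s1) = s1 := by
          rw [hν, h1]
          show (1 : S) * s1 = s1
          rw [one_mul]
        have ha : (x + h x) / 2 ∈ E := by
          rw [hEmem, map_div₀, map_add, hhx, map_ofNat, add_comm]
        have hb : (x - h x) / (2 * s1) ∈ E := by
          rw [hEmem, map_div₀, map_sub, hhx, map_mul, map_ofNat, hs1, mul_neg, div_neg, ← neg_div,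
            neg_sub]
        have hx : x = (x + h x) / 2 + (x - h x) / (2 * s1) * s1 := by
          field_simp
          ring
        have hga := hgg ⟨_, ha⟩
        have hgb := hgg ⟨_, hb⟩
        calc g (g x) = g (g ((x + h x) / 2 + (x - h x) / (2 * s1) * s1)) := by rw [← hx]
          _ = g (g ((x + h x) / 2)) + g (g ((x - h x) / (2 * s1))) * g (g s1) := by
              rw [map_add, map_add, map_mul, map_mul]
          _ = (x + h x) / 2 + (x - h x) / (2 * s1) * s1 := by
              rw [show g (g ((x + h x) / 2)) = (x + h x) / 2 from hga,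
                show g (g ((x - h x) / (2 * s1))) = (x - h x) / (2 * s1) from hgb, hgs1]
          _ = x := hx.symm
      · right
        refine ⟨by rw [← heν, h1, map_neg, map_one], fun hc => ?_⟩
        have h2 : g (g s1) = s1 := congrArg (fun f : S ≃ₐ[d.k] S => f s1) hc
        rw [hν, h1] at h2
        have h3 : (-1 : S) * s1 = s1 := h2
        rw [neg_one_mul] at h3
        exact hs0 (self_eq_neg.1 h3.symm)
  -- the sign does not depend on the lift
  have hsign : ∀ (γ : M ≃ₐ[d.k] M) (μ ν : E), γ (e t) = (e μ) ^ 2 * e t →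
      γ (e t) = (e ν) ^ 2 * e t → e μ * γ (e μ) = e ν * γ (e ν) := by
    intro γ μ ν h1 h2
    have h3 : (e μ) ^ 2 = (e ν) ^ 2 := mul_right_cancel₀ hlam0 (h1.symm.trans h2)
    rcases sq_eq_sq_iff_eq_or_eq_neg.1 h3 with h4 | h4
    · rw [h4]
    · rw [h4, map_neg, neg_mul_neg]
  -- two positive signs imply that the third is positive
  have hprod : ∀ (γ₁ γ₂ γ₃ : M ≃ₐ[d.k] M) (g₁ g₂ : S ≃ₐ[d.k] S) (g₁' g₂' : E ≃ₐ[d.k] E) (ν : E),
      (∀ x : E, g₁ (x : S) = (g₁' x : S)) → (∀ x : E, e (g₁' x) = γ₁ (e x)) →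
      (∀ x : E, g₂ (x : S) = (g₂' x : S)) → (∀ x : E, e (g₂' x) = γ₂ (e x)) →
      (∀ x : E, γ₃ (γ₃ (e x)) = e x) →
      (∀ x : E, γ₁ (γ₂ (e x)) = γ₃ (e x)) → g₁ * g₁ = 1 → g₂ * g₂ = 1 →
      γ₃ (e t) = (e ν) ^ 2 * e t → e ν * γ₃ (e ν) = 1 := by
    intro γ₁ γ₂ γ₃ g₁ g₂ g₁' g₂' ν h1 h1' h2 h2' h33 h123 hg1 hg2 hν
    have hc := hinv g₁ g₂ hg1
    have h12 : (g₁ * g₂) * (g₁ * g₂) = 1 := by
      calc (g₁ * g₂) * (g₁ * g₂) = g₁ * (g₂ * g₁) * g₂ := by simp only [mul_assoc]
        _ = (g₁ * g₁) * (g₂ * g₂) := by rw [← hc]; simp only [mul_assoc]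
        _ = 1 := by rw [hg1, hg2, mul_one]
    obtain ⟨μ, hμ, hμ'⟩ := key γ₃ (g₁ * g₂) (g₁' * g₂')
      (fun x => by
        show g₁ (g₂ (x : S)) = (g₁' (g₂' x) : S)
        rw [h2, h1])
      (fun x => by
        show e (g₁' (g₂' x)) = γ₃ (e x)
        rw [h1', h2', h123]) h33
    rcases hμ' with h | h
    · rw [← hsign γ₃ μ ν hμ hν]
      exact h.1
    · exact (h.2 h12).elim
  obtain ⟨g1, g1', hg1, he1⟩ := QL_lift E e d.LB_r
  obtain ⟨g2, g2', hg2, he2⟩ := QL_lift E e d.LB_s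
  obtain ⟨g3, g3', hg3, he3⟩ := QL_lift E e (d.LB_r * d.LB_s)
  have q1 : ∀ x : E, d.LB_r (d.LB_r (e x)) = e x := heL
  have q2 : ∀ x : E, d.LB_s (d.LB_s (e x)) = e x := fun x => d.s2 _
  have q3 : ∀ x : E, (d.LB_r * d.LB_s) ((d.LB_r * d.LB_s) (e x)) = e x := by
    intro x
    show d.r (d.s (d.r (d.s (e x)))) = e x
    rw [d.sr, d.s2, d.r4]
  obtain ⟨a, ha, ha'⟩ := key _ g1 g1' hg1 he1 q1
  obtain ⟨b, hb, hb'⟩ := key _ g2 g2' hg2 he2 q2
  obtain ⟨c, hc, hc'⟩ := key _ g3 g3' hg3 he3 q3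
  have hneg : (1 : M) ≠ -1 := fun h1 => one_ne_zero (self_eq_neg.1 h1)
  have n1 : ¬ (e a * d.r (e a) = -1 ∧ e b * d.s (e b) = 1 ∧ e c * d.r (d.s (e c)) = 1) := by
    rintro ⟨h1, h2, h3⟩
    have w2 : g2 * g2 = 1 := by
      rcases hb' with h | h
      · exact h.2
      · exact (hneg (h2.symm.trans h.1)).elim
    have w3 : g3 * g3 = 1 := by
      rcases hc' with h | h
      · exact h.2
      · exact (hneg (h3.symm.trans h.1)).elim
    have h4 := hprod _ _ d.LB_r g2 g3 g2' g3' a hg2 he2 hg3 he3 q1 (fun x => by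
      show d.s (d.r (d.s (e x))) = d.r (e x)
      rw [d.sr, d.s2, heL]) w2 w3 ha
    exact hneg (h4.symm.trans h1)
  have n2 : ¬ (e a * d.r (e a) = 1 ∧ e b * d.s (e b) = -1 ∧ e c * d.r (d.s (e c)) = 1) := by
    rintro ⟨h1, h2, h3⟩
    have w1 : g1 * g1 = 1 := by
      rcases ha' with h | h
      · exact h.2
      · exact (hneg (h1.symm.trans h.1)).elim
    have w3 : g3 * g3 = 1 := by
      rcases hc' with h | h
      · exact h.2
      · exact (hneg (h3.symm.trans h.1)).elim
    have h4 := hprod _ _ d.LB_s g3 g1 g3' g1' b hg3 he3 hg1 he1 q2 (fun x => by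
      show d.r (d.s (d.r (e x))) = d.s (e x)
      rw [d.sr, d.r4]) w3 w1 hb
    exact hneg (h4.symm.trans h2)
  have n3 : ¬ (e a * d.r (e a) = 1 ∧ e b * d.s (e b) = 1 ∧ e c * d.r (d.s (e c)) = -1) := by
    rintro ⟨h1, h2, h3⟩
    have w1 : g1 * g1 = 1 := by
      rcases ha' with h | h
      · exact h.2
      · exact (hneg (h1.symm.trans h.1)).elim
    have w2 : g2 * g2 = 1 := by
      rcases hb' with h | h
      · exact h.2
      · exact (hneg (h2.symm.trans h.1)).elim
    have h4 := hprod _ _ (d.LB_r * d.LB_s) g1 g2 g1' g2' c hg1 he1 hg2 he2 q3 (fun x => rfl)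
      w1 w2 hc
    exact hneg (h4.symm.trans h3)
  obtain ⟨l, hl0, hl, lam0, hlam0k, hlam00, τ, hτ, hfin⟩ :=
    d.kummer (e t) (e a) (e b) (e c) hlam0 (heL t) (heL a) (heL b) (heL c) ha hb hc n1 n2 n3
  -- the square of a pure quaternion
  have hpure : d.QLc (j s1) = -(j s1) := by rw [← hh, hs1, map_neg]
  have hre : d.r (d.r (j s1).re) = -(j s1).re := congrArg QExt.re hpure
  have het : e t = (j s1).re ^ 2 + d.Y * ((j s1).im * d.r (d.r (j s1).im)) := by
    show (j (s1 ^ 2)).re = _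
    rw [map_pow, pow_two, QExt.mul_re, SQφ, SQb]
    ring
  refine hNR lam0 hlam0k hlam00 τ hτ (l * (j s1).re) (l * (j s1).im) ?_ ?_
  · rw [map_mul, map_mul, hl, hre]; ring
  · rw [← hfin, het, map_mul, map_mul, hl]; ring

end CData

end W_bec7e1
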