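import Mathlib
import Pool.Agent.W_bec7e1.Domain

/-!
# Dimension over `k((t))` and boundedness of linear maps
-/

namespace W_bec7e1

open HahnSeries

namespace LData

variable {k C : Type} [Field k] [Ring C] [Algebra k C] [FiniteDimensional k C]

/-- The combination `∑ c_i b_i` of the elements `b_i` with coefficients in `k((t))`. -/
noncomputable def Finite_comb {ι : Type} [Fintype ι] (b : ι → C) (c : ι → LaurentSeries k) :
    LaurentSeries C :=
  ∑ i, lmap (algebraMap k C) (c i) * single 0 (b i)

omit [FiniteDimensional k C] in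
theorem Finite_comb_coeff {ι : Type} [Fintype ι] (b : ι → C) (c : ι → LaurentSeries k) (n : ℤ) :
    (Finite_comb b c).coeff n = ∑ i, (c i).coeff n • b i := by
  unfold Finite_comb
  rw [coeff_sum]
  refine Finset.sum_congr rfl fun i _ => ?_
  have h := coeff_mul_single' (lmap (algebraMap k C) (c i)) 0 n (b i)
  rw [add_zero] at h
  rw [h, lmap_coeff, Algebra.smul_def]

omit [FiniteDimensional k C] in
theorem Finite_comb_add {ι : Type} [Fintype ι] (b : ι → C) (c c' : ι → LaurentSeries k) :
    Finite_comb b (c + c') = Finite_comb b c + Finite_comb b c' := by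
  unfold Finite_comb
  rw [← Finset.sum_add_distrib]
  refine Finset.sum_congr rfl fun i _ => ?_
  rw [Pi.add_apply, map_add, add_mul]

omit [FiniteDimensional k C] in
theorem Finite_comb_smul {ι : Type} [Fintype ι] (b : ι → C) (a : LaurentSeries k)
    (c : ι → LaurentSeries k) :
    Finite_comb b (a • c) = lmap (algebraMap k C) a * Finite_comb b c := by
  unfold Finite_comb
  rw [Finset.mul_sum]
  refine Finset.sum_congr rfl fun i _ => ?_
  rw [Pi.smul_apply, smul_eq_mul, map_mul, mul_assoc]

/-- The linear map `(c, d) ↦ ∑ c_i b_i + (∑ d_i b_i) z`. -/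
noncomputable def Finite_lin (S : LData k C) {ι : Type} [Fintype ι] (b : ι → C) :
    ((ι → LaurentSeries k) × (ι → LaurentSeries k)) →ₗ[LaurentSeries k] QExt S.toQ where
  toFun p := ⟨Finite_comb b p.1, Finite_comb b p.2⟩
  map_add' p q := by
    ext1
    · exact Finite_comb_add b p.1 q.1
    · exact Finite_comb_add b p.2 q.2
  map_smul' a p := by
    rw [RingHom.id_apply, smul_eq]
    ext1
    · rw [QExt.mul_re, QExt.of_re, QExt.of_im, zero_mul, zero_mul, add_zero]
      exact Finite_comb_smul b a p.1
    · rw [QExt.mul_im, QExt.of_re, QExt.of_im, zero_mul, add_zero]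
      exact Finite_comb_smul b a p.2

omit [FiniteDimensional k C] in
theorem Finite_comb_map {ι : Type} [Fintype ι] (B : Module.Basis ι k C) (y : LaurentSeries C) :
    Finite_comb B (fun i => y.map (B.coord i)) = y := by
  ext n
  rw [Finite_comb_coeff]
  exact B.sum_repr (y.coeff n)

omit [FiniteDimensional k C] in
theorem Finite_comb_inj {ι : Type} [Fintype ι] (B : Module.Basis ι k C)
    {c : ι → LaurentSeries k} (h : Finite_comb B c = 0) : c = 0 := by
  funext i
  ext n
  have h1 : ∑ j, (c j).coeff n • B j = 0 := by
    rw [← Finite_comb_coeff, h]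
    rfl
  have h2 := Fintype.linearIndependent_iff.1 B.linearIndependent (fun j => (c j).coeff n) h1 i
  exact h2

omit [FiniteDimensional k C] in
theorem Finite_lin_bijective (S : LData k C) {ι : Type} [Fintype ι] (B : Module.Basis ι k C) :
    Function.Bijective (Finite_lin S B) := by
  constructor
  · rw [← LinearMap.ker_eq_bot, LinearMap.ker_eq_bot']
    rintro ⟨c, d⟩ h
    have h1 : Finite_comb B c = 0 := congrArg QExt.re h
    have h2 : Finite_comb B d = 0 := congrArg QExt.im h
    rw [Finite_comb_inj B h1, Finite_comb_inj B h2]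
    rfl
  · intro x
    refine ⟨(fun i => x.re.map (B.coord i), fun i => x.im.map (B.coord i)), ?_⟩
    ext1
    · exact Finite_comb_map B x.re
    · exact Finite_comb_map B x.im

/-- The linear equivalence given by a basis. -/
noncomputable def Finite_equiv (S : LData k C) {ι : Type} [Fintype ι] (B : Module.Basis ι k C) :
    ((ι → LaurentSeries k) × (ι → LaurentSeries k)) ≃ₗ[LaurentSeries k] QExt S.toQ :=
  LinearEquiv.ofBijective (Finite_lin S B) (Finite_lin_bijective S B)

theorem finite (S : LData k C) : Module.Finite (LaurentSeries k) (QExt S.toQ) :=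
  Module.Finite.equiv (Finite_equiv S (Module.finBasis k C))

theorem finrank_eq (S : LData k C) :
    Module.finrank (LaurentSeries k) (QExt S.toQ) = 2 * Module.finrank k C := by
  rw [← (Finite_equiv S (Module.finBasis k C)).finrank_eq, Module.finrank_prod,
    Module.finrank_fin_fun]
  ring

/-- Every `k((t))`-linear endomorphism of the level is bounded. -/
theorem exists_bound (S : LData k C) (f : QExt S.toQ →ₗ[LaurentSeries k] QExt S.toQ) :
    ∃ c : ℤ, ∀ (n : ℤ) (x : QExt S.toQ), dge n x → dge (n - c) (f x) := by
  classical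
  set B := Module.finBasis k C with hB
  set u : Fin (Module.finrank k C) → QExt S.toQ := fun i => Finite_lin S B (Pi.single i 1, 0)
    with hu
  set v : Fin (Module.finrank k C) → QExt S.toQ := fun i => Finite_lin S B (0, Pi.single i 1)
    with hv
  choose m hm using fun i => exists_dge (f (u i))
  choose m' hm' using fun i => exists_dge (f (v i))
  obtain ⟨m0, hm0⟩ : ∃ m0, ∀ i ∈ Finset.univ.image m ∪ Finset.univ.image m', m0 ≤ i :=
    (Finset.univ.image m ∪ Finset.univ.image m').bddBelow
  have h0 : ∀ i, dge m0 (f (u i)) := fun i => (hm i).mono (hm0 _ (Finset.mem_union_left _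
    (Finset.mem_image_of_mem m (Finset.mem_univ i))))
  have h0' : ∀ i, dge m0 (f (v i)) := fun i => (hm' i).mono (hm0 _ (Finset.mem_union_right _
    (Finset.mem_image_of_mem m' (Finset.mem_univ i))))
  have hsm : ∀ (p : ℤ) (a : LaurentSeries k) (y : QExt S.toQ), lge p a → dge m0 y →
      dge (2 * p + m0) (a • y) := by
    intro p a y ha hy
    rw [smul_eq]
    refine dge.mul ?_ hy
    rw [dge_iff]
    refine ⟨?_, ?_⟩
    · exact (lge_lmap (algebraMap k C) ha).mono (by omega)
    · exact lge_zero _
  refine ⟨1 - m0, fun n x hx => ?_⟩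
  obtain ⟨hx1, hx2⟩ := (dge_iff n x).1 hx
  set c : Fin (Module.finrank k C) → LaurentSeries k := fun i => x.re.map (B.coord i) with hc
  set d : Fin (Module.finrank k C) → LaurentSeries k := fun i => x.im.map (B.coord i) with hd
  have hxe : x = ∑ i, c i • u i + ∑ i, d i • v i := by
    have e1 : x = Finite_lin S B (c, d) := by
      ext1
      · exact (Finite_comb_map B x.re).symm
      · exact (Finite_comb_map B x.im).symm
    have e2 : ((c, d) : (Fin (Module.finrank k C) → LaurentSeries k) ×
        (Fin (Module.finrank k C) → LaurentSeries k)) =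
        ∑ i, c i • (Pi.single i 1, 0) + ∑ i, d i • (0, Pi.single i 1) := by
      refine Prod.ext ?_ ?_
      · rw [Prod.fst_add, Prod.fst_sum, Prod.fst_sum]
        funext j
        simp [Pi.single_apply]
      · rw [Prod.snd_add, Prod.snd_sum, Prod.snd_sum]
        funext j
        simp [Pi.single_apply]
    rw [e1, e2, map_add, map_sum, map_sum]
    simp only [map_smul, hu, hv]
  have hci : ∀ i, lge (n / 2) (c i) := by
    intro i l hl
    have h1 : x.re.coeff l = 0 := hx1 l (by omega)
    change B.coord i (x.re.coeff l) = 0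
    rw [h1, map_zero]
  have hdi : ∀ i, lge (n / 2) (d i) := by
    intro i l hl
    have h1 : x.im.coeff l = 0 := hx2 l (by omega)
    change B.coord i (x.im.coeff l) = 0
    rw [h1, map_zero]
  rw [hxe, map_add, map_sum, map_sum]
  simp only [map_smul]
  refine dge.add (dge.sum _ _ fun i _ => ?_) (dge.sum _ _ fun i _ => ?_)
  · exact (hsm _ _ _ (hci i) (h0 i)).mono (by omega)
  · exact (hsm _ _ _ (hdi i) (h0' i)).mono (by omega)

end LData

end W_bec7e1
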