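import Mathlib
import Pool.Agent.W_bec7e1.Domain
import Pool.Agent.W_bec7e1.Finite

/-!
# Automorphisms of subfields of a level preserve the valuation
-/

namespace W_bec7e1

open HahnSeries

namespace LData

variable {k C : Type} [Field k] [Ring C] [Nontrivial C] [NoZeroDivisors C]
  [Algebra k C] [FiniteDimensional k C] (S : LData k C)
  {K : Type} [Field K] [Algebra (LaurentSeries k) K] [FiniteDimensional (LaurentSeries k) K]
  (f : K →ₐ[LaurentSeries k] QExt S.toQ)

include f in
/-- `k((t))`-automorphisms of a subfield of the level preserve the valuation. -/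
theorem dge_aut (g : K ≃ₐ[LaurentSeries k] K) (n : ℤ) (x : K) (hx : dge n (f x)) :
    dge n (f (g x)) := by
  have hinj : Function.Injective f := RingHom.injective (f : K →+* QExt S.toQ)
  obtain ⟨h, hh⟩ := LinearMap.exists_leftInverse_of_injective f.toLinearMap
    (LinearMap.ker_eq_bot.2 hinj)
  have hh' : ∀ y : K, h (f y) = y := fun y => LinearMap.congr_fun hh y
  obtain ⟨c, hc⟩ := S.exists_bound (f.toLinearMap ∘ₗ g.toLinearMap ∘ₗ h)
  have hc' : ∀ (l : ℤ) (y : K), dge l (f y) → dge (l - c) (f (g y)) := by
    intro l y hy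
    have h1 := hc l (f y) hy
    have h2 : (f.toLinearMap ∘ₗ g.toLinearMap ∘ₗ h) (f y) = f (g y) := by
      simp [hh']
    rwa [h2] at h1
  by_cases h0 : f (g x) = 0
  · rw [h0]
    exact dge_zero n
  · obtain ⟨m, hm, hm'⟩ := exists_low h0
    refine hm.mono ?_
    by_contra hlt
    rw [not_le] at hlt
    have hN : ∀ N : ℕ, (N : ℤ) * n - c ≤ N * m := by
      intro N
      by_contra hcon
      rw [not_le] at hcon
      have h1 : dge ((N : ℤ) * n) (f (x ^ N)) := by
        rw [map_pow]
        exact dge_pow hx N
      have h2 := hc' _ _ h1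
      rw [map_pow, map_pow] at h2
      exact cf_pow_ne_zero hm hm' N (h2 _ hcon)
    have h3 := hN (c.toNat + 1)
    have h4 := Int.self_le_toNat c
    push_cast at h3
    nlinarith

end LData

end W_bec7e1
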