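import Mathlib
import Pool.Agent.W_bec7e1.AutVal

/-!
# Galois subfields of a level and their residue fields
-/

namespace W_bec7e1

open HahnSeries

namespace LData

section Aux

variable {k C : Type} [Field k] [Ring C] [Algebra k C] {S : LData k C}

theorem Residue_dge_one : dge 0 (1 : QExt S.toQ) := by
  rw [dge_iff]
  refine ⟨?_, ?_⟩
  · exact lge_one
  · exact lge_zero _

theorem Residue_cf_one : cf (1 : QExt S.toQ) 0 = 1 := by
  have h := cf_even (1 : QExt S.toQ) 0
  rw [mul_zero] at h
  rw [h]
  simp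

theorem Residue_cf_mul_zero {x y : QExt S.toQ} (hx : dge 0 x) (hy : dge 0 y) :
    cf (x * y) 0 = cf x 0 * cf y 0 := by
  have h := cf_mul hx hy
  simpa [tw, bf] using h

theorem Residue_cf_sum {ι : Type} (s : Finset ι) (g : ι → QExt S.toQ) (n : ℤ) :
    cf (∑ i ∈ s, g i) n = ∑ i ∈ s, cf (g i) n := by
  classical
  induction s using Finset.induction_on with
  | empty => simp
  | insert a s ha ih => rw [Finset.sum_insert ha, Finset.sum_insert ha, cf_add, ih]

theorem Residue_dge_succ {n : ℤ} {x : QExt S.toQ} (hx : dge n x) (h : cf x n = 0) :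
    dge (n + 1) x := by
  intro m hm
  rcases lt_or_eq_of_le (Int.lt_add_one_iff.1 hm) with h' | h'
  · exact hx m h'
  · rw [h', h]

theorem Residue_of_dge {n : ℤ} {a : LaurentSeries C} (ha : lge n a) :
    dge (2 * n) (QExt.of S.toQ a) := by
  rw [dge_iff]
  refine ⟨?_, ?_⟩
  · rw [QExt.of_re]; exact ha.mono (by omega)
  · rw [QExt.of_im]; exact lge_zero _

theorem Residue_of_cf (n : ℤ) (a : LaurentSeries C) :
    cf (QExt.of S.toQ a) (2 * n) = a.coeff n := by
  rw [cf_even, QExt.of_re]

/-- Multiplication by `t ^ n`. -/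
theorem Residue_shift_dge (n : ℤ) {m : ℤ} {x : QExt S.toQ} (hx : dge m x) :
    dge (m + 2 * n) ((algebraMap (LaurentSeries k) (QExt S.toQ) (single n 1)) * x) := by
  rw [algebraMap_eq, lmap_single, map_one]
  exact ((Residue_of_dge (lge_single n 1)).mul hx).mono (by omega)

theorem Residue_shift_cf (n : ℤ) {m : ℤ} {x : QExt S.toQ} (hx : dge m x) :
    cf ((algebraMap (LaurentSeries k) (QExt S.toQ) (single n 1)) * x) (m + 2 * n) = cf x m := by
  rw [algebraMap_eq, lmap_single, map_one]
  have h := cf_mul (Residue_of_dge (S := S) (lge_single n (1 : C))) hx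
  rw [Residue_of_cf, tw_even, bf_even_left, add_comm] at h
  simpa using h

end Aux

section Main

variable {k C : Type} [Field k] [Ring C] [Nontrivial C] [NoZeroDivisors C]
  [Algebra k C] {S : LData k C}
  {K : Type} [Field K] [Algebra (LaurentSeries k) K]
  (f : K →ₐ[LaurentSeries k] QExt S.toQ)

omit [Nontrivial C] [NoZeroDivisors C] in
theorem Residue_f_C_dge (a : k) : dge 0 (f (algebraMap (LaurentSeries k) K (HahnSeries.C a))) := by
  rw [AlgHom.commutes, algebraMap_eq, lmap_C]
  have := Residue_of_dge (S := S) (lge_single 0 (algebraMap k C a))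
  simpa using this

omit [Nontrivial C] [NoZeroDivisors C] in
theorem Residue_f_C_cf (a : k) :
    cf (f (algebraMap (LaurentSeries k) K (HahnSeries.C a))) 0 = algebraMap k C a := by
  rw [AlgHom.commutes, algebraMap_eq, lmap_C]
  have h := Residue_of_cf (S := S) 0 (HahnSeries.C (algebraMap k C a))
  rw [mul_zero] at h
  rw [h]
  simp

omit [Nontrivial C] [NoZeroDivisors C] in
theorem Residue_f_alg_cf (a : LaurentSeries k) :
    cf (f (algebraMap (LaurentSeries k) K a)) 0 = algebraMap k C (a.coeff 0) := by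
  rw [AlgHom.commutes, algebraMap_eq]
  have h := Residue_of_cf (S := S) 0 (lmap (algebraMap k C) a)
  rw [mul_zero] at h
  rw [h, lmap_coeff]

/-- The residue subalgebra. -/
def resAlg : Subalgebra k C where
  carrier := {c | ∃ x : K, dge 0 (f x) ∧ cf (f x) 0 = c}
  mul_mem' := by
    rintro a b ⟨x, hx, rfl⟩ ⟨y, hy, rfl⟩
    refine ⟨x * y, ?_, ?_⟩
    · rw [map_mul]; simpa using hx.mul hy
    · rw [map_mul]; exact Residue_cf_mul_zero hx hy
  add_mem' := by
    rintro a b ⟨x, hx, rfl⟩ ⟨y, hy, rfl⟩
    refine ⟨x + y, ?_, ?_⟩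
    · rw [map_add]; exact hx.add hy
    · rw [map_add, cf_add]
  algebraMap_mem' := by
    intro a
    exact ⟨algebraMap (LaurentSeries k) K (HahnSeries.C a), Residue_f_C_dge f a,
      Residue_f_C_cf f a⟩

omit [Nontrivial C] [NoZeroDivisors C] in
theorem resAlg_comm (a b : resAlg f) : a * b = b * a := by
  obtain ⟨a, x, hx, rfl⟩ := a
  obtain ⟨b, y, hy, rfl⟩ := b
  apply Subtype.ext
  change cf (f x) 0 * cf (f y) 0 = cf (f y) 0 * cf (f x) 0
  rw [← Residue_cf_mul_zero hx hy, ← Residue_cf_mul_zero hy hx, ← map_mul, ← map_mul, mul_comm]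

theorem Residue_exists_field [FiniteDimensional k C] :
    ∃ (E : Type) (_ : Field E) (_ : Algebra k E) (_ : FiniteDimensional k E) (g : E →ₐ[k] C),
      Function.Injective g ∧ (∀ y : E, ∃ x : K, dge 0 (f x) ∧ cf (f x) 0 = g y) ∧
      ∀ x : K, dge 0 (f x) → ∃ y : E, cf (f x) 0 = g y := by
  let i1 : CommRing (resAlg f) :=
    { (inferInstance : Ring (resAlg f)) with mul_comm := resAlg_comm f }
  have i2 : IsDomain (resAlg f) := by
    have : NoZeroDivisors (resAlg f) := by
      constructor
      intro a b hab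
      have h : (a : C) * (b : C) = 0 := by
        have := congrArg (Subtype.val) hab
        exact this
      rcases mul_eq_zero.1 h with h | h
      · left; exact Subtype.ext h
      · right; exact Subtype.ext h
    have : Nontrivial (resAlg f) := ⟨⟨0, 1, fun h => zero_ne_one (α := C) (congrArg Subtype.val h)⟩⟩
    exact NoZeroDivisors.to_isDomain _
  have i3 : FiniteDimensional k (resAlg f) := by
    exact FiniteDimensional.of_injective (resAlg f).val.toLinearMap (fun a b h => Subtype.ext h)
  let i4 : Field (resAlg f) := fieldOfFiniteDimensional k (resAlg f)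
  refine ⟨resAlg f, i4, (inferInstance : Algebra k (resAlg f)), i3, (resAlg f).val, ?_, ?_, ?_⟩
  · intro a b h; exact Subtype.ext h
  · rintro ⟨c, x, hx, hc⟩
    exact ⟨x, hx, hc⟩
  · intro x hx
    exact ⟨⟨cf (f x) 0, x, hx, rfl⟩, rfl⟩

end Main

section Act

variable {k C : Type} [Field k] [Ring C] [Nontrivial C] [NoZeroDivisors C]
  [Algebra k C] [FiniteDimensional k C] {S : LData k C}
  {K : Type} [Field K] [Algebra (LaurentSeries k) K] [FiniteDimensional (LaurentSeries k) K]
  (f : K →ₐ[LaurentSeries k] QExt S.toQ)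
  {E : Type} [Field E] [Algebra k E] (g : E →ₐ[k] C)

theorem Residue_exists_act (hg : Function.Injective g)
    (h1 : ∀ y : E, ∃ x : K, dge 0 (f x) ∧ cf (f x) 0 = g y)
    (h2 : ∀ x : K, dge 0 (f x) → ∃ y : E, cf (f x) 0 = g y) :
    ∃ ρ : (K ≃ₐ[LaurentSeries k] K) →* (E ≃ₐ[k] E),
      ∀ (σ : K ≃ₐ[LaurentSeries k] K) (x : K) (y : E), dge 0 (f x) → cf (f x) 0 = g y →
        cf (f (σ x)) 0 = g (ρ σ y) := by
  choose l hl hl' using h1
  choose r hr using h2
  let a : (K ≃ₐ[LaurentSeries k] K) → E → E := fun σ y => r (σ (l y)) (dge_aut S f σ 0 _ (hl y))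
  have ha : ∀ (σ : K ≃ₐ[LaurentSeries k] K) (x : K) (y : E), dge 0 (f x) → cf (f x) 0 = g y →
      cf (f (σ x)) 0 = g (a σ y) := by
    intro σ x y hx hxy
    have e1 : cf (f (σ (l y))) 0 = g (a σ y) := hr _ _
    rw [← e1]
    have e2 : dge 1 (f (x - l y)) := by
      have : dge (0 + 1) (f (x - l y)) := by
        apply Residue_dge_succ
        · rw [map_sub]; exact hx.sub (hl y)
        · rw [map_sub, cf_sub, hxy, hl', sub_self]
      simpa using this
    have e3 := dge_aut S f σ 1 _ e2 0 (by norm_num)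
    rw [map_sub, map_sub, cf_sub] at e3
    exact sub_eq_zero.1 e3
  have hσl : ∀ (σ : K ≃ₐ[LaurentSeries k] K) (y : E), cf (f (σ (l y))) 0 = g (a σ y) :=
    fun σ y => ha σ (l y) y (hl y) (hl' y)
  have hσd : ∀ (σ : K ≃ₐ[LaurentSeries k] K) (y : E), dge 0 (f (σ (l y))) :=
    fun σ y => dge_aut S f σ 0 _ (hl y)
  let A : (K ≃ₐ[LaurentSeries k] K) → (E →ₐ[k] E) := fun σ =>
    { toFun := a σ
      map_one' := by
        apply hg
        rw [← ha σ 1 1 (by rw [map_one]; exact Residue_dge_one)
          (by rw [map_one, map_one]; exact Residue_cf_one), map_one, map_one, map_one,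
          Residue_cf_one]
      map_zero' := by
        apply hg
        rw [← ha σ 0 0 (by rw [map_zero]; exact dge_zero _)
          (by rw [map_zero, map_zero, cf_zero]), map_zero, map_zero, map_zero, cf_zero]
      map_mul' := by
        intro y z
        apply hg
        rw [← ha σ (l y * l z) (y * z)
          (by rw [map_mul]; simpa using (hl y).mul (hl z))
          (by rw [map_mul, map_mul, Residue_cf_mul_zero (hl y) (hl z), hl', hl'])]
        rw [map_mul, map_mul, map_mul, Residue_cf_mul_zero (hσd σ y) (hσd σ z), hσl, hσl]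
      map_add' := by
        intro y z
        apply hg
        rw [← ha σ (l y + l z) (y + z)
          (by rw [map_add]; exact (hl y).add (hl z))
          (by rw [map_add, map_add, cf_add, hl', hl'])]
        rw [map_add, map_add, map_add, cf_add, hσl, hσl]
      commutes' := by
        intro c
        apply hg
        rw [← ha σ (algebraMap (LaurentSeries k) K (HahnSeries.C c)) (algebraMap k E c)
          (Residue_f_C_dge f c) (by rw [Residue_f_C_cf, AlgHom.commutes])]
        rw [AlgEquiv.commutes, Residue_f_C_cf, AlgHom.commutes] }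
  let ρ₀ : (K ≃ₐ[LaurentSeries k] K) →* (E →ₐ[k] E) :=
    { toFun := A
      map_one' := by
        apply AlgHom.ext
        intro y
        apply hg
        change g (a 1 y) = g y
        rw [← hσl, ← hl' y]
        rfl
      map_mul' := by
        intro σ τ
        apply AlgHom.ext
        intro y
        apply hg
        change g (a (σ * τ) y) = g (a σ (a τ y))
        rw [← hσl, ← ha σ (τ (l y)) (a τ y) (hσd τ y) (hσl τ y)]
        rfl }
  refine ⟨(AlgEquiv.algHomUnitsEquiv k E).toMonoidHom.comp ρ₀.toHomUnits, ?_⟩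
  intro σ x y hx hxy
  exact ha σ x y hx hxy

end Act

variable {k C : Type} [Field k] [CharZero k] [Ring C] [Nontrivial C] [NoZeroDivisors C]
  [Algebra k C] [FiniteDimensional k C] (S : LData k C)
  {K : Type} [Field K] [Algebra (LaurentSeries k) K] [FiniteDimensional (LaurentSeries k) K]
  (f : K →ₐ[LaurentSeries k] QExt S.toQ)

omit [NoZeroDivisors C] [FiniteDimensional k C] [CharZero k]
  [FiniteDimensional (LaurentSeries k) K] in
theorem Residue_f_ne_zero {x : K} (hx : x ≠ 0) : f x ≠ 0 := by
  intro h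
  exact hx ((RingHom.injective (f : K →+* QExt S.toQ)) (by simpa using h))

theorem Residue_natCast_mul (k : Type) {C : Type} [Field k] [CharZero k] [Ring C] [Algebra k C]
    {n : ℕ} (hn : n ≠ 0) {c : C} (h : (n : C) * c = 0) : c = 0 := by
  have h1 : ((n : k)⁻¹ • ((n : C) * c)) = c := by
    have : (n : C) * c = (n : k) • c := by
      rw [Algebra.smul_def, map_natCast]
    rw [this, smul_smul, inv_mul_cancel₀ (Nat.cast_ne_zero.2 hn), one_smul]
  rw [← h1, h, smul_zero]

/-- A wild automorphism is trivial. -/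
theorem Residue_wild (σ : K ≃ₐ[LaurentSeries k] K)
    (hσ : ∀ (n : ℤ) (x : K), dge n (f x) → dge (n + 1) (f (σ x - x))) : σ = 1 := by
  apply AlgEquiv.ext
  intro x
  by_contra hx
  change ¬ σ x = x at hx
  have hy0 : σ x - x ≠ 0 := sub_ne_zero.2 hx
  obtain ⟨m, hm, hm'⟩ := exists_low (Residue_f_ne_zero S f hy0)
  apply hm'
  have e1 : ∀ j : ℕ, dge (m + 1) (f ((σ ^ j) (σ x - x) - (σ x - x))) := by
    intro j
    induction j with
    | zero => simpa using dge_zero (S := S) (m + 1)
    | succ j ih =>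
      have : (σ ^ (j + 1)) (σ x - x) - (σ x - x) =
          (σ ^ j) (σ (σ x - x) - (σ x - x)) + ((σ ^ j) (σ x - x) - (σ x - x)) := by
        rw [pow_succ, AlgEquiv.mul_apply, map_sub (σ ^ j) (σ (σ x - x)) (σ x - x)]
        ring
      rw [this, map_add]
      exact (dge_aut S f _ _ _ (hσ m _ hm)).add ih
  have e2 : ∀ j : ℕ, cf (f ((σ ^ j) (σ x - x))) m = cf (f (σ x - x)) m := by
    intro j
    have := e1 j m (by omega)
    rw [map_sub f, cf_sub] at this
    exact sub_eq_zero.1 this
  have e3 : ∀ N : ℕ, ∑ j ∈ Finset.range N, (σ ^ j) (σ x - x) = (σ ^ N) x - x := by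
    intro N
    induction N with
    | zero => simp
    | succ N ih =>
      rw [Finset.sum_range_succ, ih, pow_succ, AlgEquiv.mul_apply, map_sub]
      ring
  have hfin : IsOfFinOrder σ := isOfFinOrder_of_finite σ
  have hN : orderOf σ ≠ 0 := (orderOf_pos_iff.2 hfin).ne'
  have e4 := e3 (orderOf σ)
  rw [pow_orderOf_eq_one, AlgEquiv.one_apply, sub_self] at e4
  have e5 : cf (f (∑ j ∈ Finset.range (orderOf σ), (σ ^ j) (σ x - x))) m = 0 := by
    rw [e4, map_zero, cf_zero]
  rw [map_sum, Residue_cf_sum] at e5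
  simp only [e2, Finset.sum_const, Finset.card_range, nsmul_eq_mul] at e5
  exact Residue_natCast_mul k hN e5

omit [CharZero k] [FiniteDimensional k C] [FiniteDimensional (LaurentSeries k) K] in
/-- Division. -/
theorem Residue_div {n m : ℤ} {a b : K} (ha : dge n (f a)) (hb : dge m (f b))
    (hb' : cf (f b) m ≠ 0) : dge (n - m) (f (a / b)) := by
  by_cases h : a = 0
  · rw [h, zero_div, map_zero]; exact dge_zero _
  have hb0 : b ≠ 0 := by
    rintro rfl
    rw [map_zero, cf_zero] at hb'
    exact hb' rfl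
  obtain ⟨l, hl, hl'⟩ := exists_low (Residue_f_ne_zero S f (div_ne_zero h hb0))
  have h3 := cf_mul_ne_zero hl hb hl' hb'
  rw [← map_mul, div_mul_cancel₀ _ hb0] at h3
  by_contra hc
  have : l + m < n := by
    by_contra h4
    exact hc (hl.mono (by omega))
  exact h3 (ha _ this)

/-- The residue field of a Galois subfield of the level. -/
theorem exists_residue [IsGalois (LaurentSeries k) K] :
    ∃ (E : Type) (_ : Field E) (_ : Algebra k E) (_ : FiniteDimensional k E) (_ : IsGalois k E)
      (g : E →ₐ[k] C) (ρ : (K ≃ₐ[LaurentSeries k] K) →* (E ≃ₐ[k] E)),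
      Function.Surjective ρ ∧
      (∀ y : E, ∃ x : K, dge 0 (f x) ∧ cf (f x) 0 = g y) ∧
      (Function.Injective ρ ∨
        (Nat.card ρ.ker = 2 ∧ ∃ c : C, c ≠ 0 ∧ ∀ y : E, g y * c = c * S.φ (g y))) := by
  obtain ⟨E, i1, i2, i3, g, hg, h1, h2⟩ := Residue_exists_field f
  obtain ⟨ρ, hρ⟩ := Residue_exists_act f g hg h1 h2
  -- fixed field
  have hfix : ∀ y : E, (∀ σ, ρ σ y = y) → ∃ c : k, algebraMap k E c = y := by
    intro y hy
    obtain ⟨x, hx, hxy⟩ := h1 y
    classical
    have : Fintype (K ≃ₐ[LaurentSeries k] K) := Fintype.ofFinite _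
    have e1 : ∀ τ : K ≃ₐ[LaurentSeries k] K, τ (∑ σ : K ≃ₐ[LaurentSeries k] K, σ x) =
        ∑ σ : K ≃ₐ[LaurentSeries k] K, σ x := by
      intro τ
      rw [map_sum]
      exact Fintype.sum_equiv (Equiv.mulLeft τ) _ _ (fun σ => rfl)
    have e2 := (IsGalois.mem_bot_iff_fixed (F := LaurentSeries k) (E := K) _).2 e1
    rw [IntermediateField.mem_bot] at e2
    obtain ⟨c, hc⟩ := e2
    have e3 : cf (f (∑ σ : K ≃ₐ[LaurentSeries k] K, σ x)) 0 =
        (Fintype.card (K ≃ₐ[LaurentSeries k] K) : C) * g y := by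
      rw [map_sum, Residue_cf_sum]
      simp only [hρ _ x y hx hxy, hy, Finset.sum_const, Finset.card_univ, nsmul_eq_mul]
    rw [← hc, Residue_f_alg_cf] at e3
    refine ⟨(Fintype.card (K ≃ₐ[LaurentSeries k] K) : k)⁻¹ * c.coeff 0, ?_⟩
    apply hg
    rw [AlgHom.commutes, map_mul, e3, ← mul_assoc, ← map_natCast (algebraMap k C), ← map_mul,
      inv_mul_cancel₀ (Nat.cast_ne_zero.2 Fintype.card_ne_zero), map_one, one_mul]
  have hfix' : IntermediateField.fixedField ρ.range = ⊥ := by
    rw [eq_bot_iff]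
    intro y hy
    rw [IntermediateField.mem_fixedField_iff] at hy
    rw [IntermediateField.mem_bot]
    exact hfix y (fun σ => hy (ρ σ) ⟨σ, rfl⟩)
  have hgal : IsGalois k E := by
    apply IsGalois.of_fixedField_eq_bot
    rw [eq_bot_iff, ← hfix']
    intro y hy
    rw [IntermediateField.mem_fixedField_iff] at hy ⊢
    exact fun τ _ => hy τ (Subgroup.mem_top τ)
  have hsurj : Function.Surjective ρ := by
    rw [← MonoidHom.range_eq_top, ← IntermediateField.fixingSubgroup_fixedField ρ.range, hfix',
      IntermediateField.fixingSubgroup_bot]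
  refine ⟨E, i1, i2, i3, hgal, g, ρ, hsurj, h1, ?_⟩
  -- the kernel moves elements of even order upwards
  have hker0 : ∀ σ ∈ ρ.ker, ∀ x : K, dge 0 (f x) → dge 1 (f (σ x - x)) := by
    intro σ hσ x hx
    obtain ⟨y, hy⟩ := h2 x hx
    have e := hρ σ x y hx hy
    rw [MonoidHom.mem_ker.1 hσ, AlgEquiv.one_apply] at e
    have : dge (0 + 1) (f (σ x - x)) := by
      apply Residue_dge_succ
      · rw [map_sub]; exact (dge_aut S f σ 0 x hx).sub hx
      · rw [map_sub, cf_sub, e, hy, sub_self]
    simpa using this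
  have hkereven : ∀ σ ∈ ρ.ker, ∀ (n : ℤ) (x : K), dge (2 * n) (f x) →
      dge (2 * n + 1) (f (σ x - x)) := by
    intro σ hσ n x hx
    have e1 : dge 0 (f (algebraMap (LaurentSeries k) K (single (-n) 1) * x)) := by
      rw [map_mul, AlgHom.commutes]
      exact (Residue_shift_dge (-n) hx).mono (by omega)
    have e2 := hker0 σ hσ _ e1
    rw [map_mul, AlgEquiv.commutes, ← mul_sub, map_mul, AlgHom.commutes] at e2
    have e3 := Residue_shift_dge (k := k) n e2
    rw [← mul_assoc, ← map_mul, single_mul_single, add_neg_cancel, mul_one, single_zero_one,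
      map_one, one_mul] at e3
    exact e3.mono (by omega)
  by_cases hodd : ∃ (n : ℤ) (x : K), dge (2 * n + 1) (f x) ∧ cf (f x) (2 * n + 1) ≠ 0
  · -- the ramified case
    obtain ⟨n, x, hx, hx'⟩ := hodd
    obtain ⟨p, hp, hp'⟩ : ∃ p : K, dge 1 (f p) ∧ cf (f p) 1 ≠ 0 := by
      refine ⟨algebraMap (LaurentSeries k) K (single (-n) 1) * x, ?_, ?_⟩
      · rw [map_mul, AlgHom.commutes]
        exact (Residue_shift_dge (-n) hx).mono (by omega)
      · rw [map_mul, AlgHom.commutes]
        have := Residue_shift_cf (k := k) (-n) hx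
        have e : 2 * n + 1 + 2 * -n = 1 := by ring
        rw [e] at this
        rw [this]
        exact hx'
    have hp0 : p ≠ 0 := by
      rintro rfl
      rw [map_zero, cf_zero] at hp'
      exact hp' rfl
    -- the quotient `w = σ p / p`
    have hw : ∀ σ : K ≃ₐ[LaurentSeries k] K, dge 0 (f (σ p / p)) := by
      intro σ
      have := Residue_div S f (dge_aut S f σ 1 p hp) hp hp'
      simpa using this
    have hwcf : ∀ σ : K ≃ₐ[LaurentSeries k] K,
        cf (f (σ p)) 1 = cf (f (σ p / p)) 0 * cf (f p) 1 := by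
      intro σ
      have := cf_mul (hw σ) hp
      rw [← map_mul, div_mul_cancel₀ _ hp0] at this
      simpa [tw, bf] using this
    have hp2 : dge 2 (f (p * p)) := by
      rw [map_mul]; simpa using hp.mul hp
    have hp2' : cf (f (p * p)) 2 ≠ 0 := by
      have := cf_mul_ne_zero hp hp hp' hp'
      rw [← map_mul] at this
      simpa using this
    have hsq : ∀ σ ∈ ρ.ker, cf (f (σ p / p)) 0 = 1 ∨ cf (f (σ p / p)) 0 = -1 := by
      intro σ hσ
      have e1 := hkereven σ hσ 1 (p * p) (by simpa using hp2) 2 (by norm_num)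
      rw [map_sub f, cf_sub, sub_eq_zero] at e1
      have e2 : σ (p * p) = (σ p / p) * (σ p / p) * (p * p) := by
        rw [map_mul]; field_simp
      have hww : dge 0 (f ((σ p / p) * (σ p / p))) := by
        rw [map_mul]; simpa using (hw σ).mul (hw σ)
      have e3 := cf_mul hww hp2
      rw [← map_mul, ← e2] at e3
      have e4 : cf (f (σ (p * p))) 2 = cf (f (σ p / p * (σ p / p))) 0 * cf (f (p * p)) 2 := by
        simpa [tw, bf] using e3
      have e7 : cf (f (σ p / p * (σ p / p))) 0 = cf (f (σ p / p)) 0 * cf (f (σ p / p)) 0 := by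
        rw [map_mul]; exact Residue_cf_mul_zero (hw σ) (hw σ)
      rw [e1, e7] at e4
      have e5 : (cf (f (σ p / p)) 0 * cf (f (σ p / p)) 0 - 1) * cf (f (p * p)) 2 = 0 := by
        rw [sub_mul, one_mul, ← e4, sub_self]
      have e6 := (mul_eq_zero.1 e5).resolve_right hp2'
      exact mul_self_eq_one_iff.1 (sub_eq_zero.1 e6)
    have hone : ∀ σ ∈ ρ.ker, cf (f (σ p / p)) 0 = 1 → σ = 1 := by
      intro σ hσ hσ1
      have hpp : dge 2 (f (σ p - p)) := by
        have : dge (1 + 1) (f (σ p - p)) := by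
          apply Residue_dge_succ
          · rw [map_sub]; exact (dge_aut S f σ 1 p hp).sub hp
          · rw [map_sub, cf_sub, hwcf, hσ1, one_mul, sub_self]
        simpa using this
      apply Residue_wild S f σ
      intro m x hx
      rcases Int.even_or_odd' m with ⟨j, rfl | rfl⟩
      · exact hkereven σ hσ j x hx
      · have e1 : dge (2 * j) (f (x / p)) := by
          have := Residue_div S f hx hp hp'
          simpa using this
        have e2 : σ x - x = (σ (x / p) - x / p) * σ p + (x / p) * (σ p - p) := by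
          rw [map_div₀]
          have : σ p ≠ 0 := by
            intro h
            exact hp0 (σ.injective (by rw [h, map_zero]))
          field_simp
          ring
        rw [e2, map_add, map_mul, map_mul]
        exact (((hkereven σ hσ j _ e1).mul (dge_aut S f σ 1 p hp)).mono (by omega)).add
          ((e1.mul hpp).mono (by omega))
    -- two elements with value `-1` multiply to the identity
    have hmul : ∀ σ ∈ ρ.ker, ∀ τ ∈ ρ.ker, σ ≠ 1 → τ ≠ 1 → σ * τ = 1 := by
      intro σ hσ τ hτ hσ1 hτ1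
      have a1 : cf (f (σ p / p)) 0 = -1 := (hsq σ hσ).resolve_left (fun h => hσ1 (hone σ hσ h))
      have a2 : cf (f (τ p / p)) 0 = -1 := (hsq τ hτ).resolve_left (fun h => hτ1 (hone τ hτ h))
      apply hone _ (ρ.ker.mul_mem hσ hτ)
      have e1 : (σ * τ) p / p = σ (τ p / p) * (σ p / p) := by
        rw [AlgEquiv.mul_apply, map_div₀]
        have : σ p ≠ 0 := by
          intro h
          exact hp0 (σ.injective (by rw [h, map_zero]))
        field_simp
      rw [e1, map_mul, Residue_cf_mul_zero (dge_aut S f σ 0 _ (hw τ)) (hw σ), a1]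
      have e2 := hker0 σ hσ _ (hw τ) 0 (by norm_num)
      rw [map_sub f, cf_sub, sub_eq_zero] at e2
      rw [e2, a2]
      simp
    by_cases hinj : Function.Injective ρ
    · exact Or.inl hinj
    right
    constructor
    · obtain ⟨τ, hτ, hτ1⟩ : ∃ τ ∈ ρ.ker, τ ≠ 1 := by
        by_contra hc
        push Not at hc
        apply hinj
        rw [← MonoidHom.ker_eq_bot_iff, eq_bot_iff]
        intro σ hσ
        exact Subgroup.mem_bot.2 (hc σ hσ)
      have : ∀ σ : ρ.ker, σ = 1 ∨ σ = ⟨τ, hτ⟩ := by
        intro σ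
        by_cases h : (σ : K ≃ₐ[LaurentSeries k] K) = 1
        · left; exact Subtype.ext h
        · right
          apply Subtype.ext
          change (σ : K ≃ₐ[LaurentSeries k] K) = τ
          rw [eq_inv_of_mul_eq_one_left (hmul σ σ.2 τ hτ h hτ1),
            ← eq_inv_of_mul_eq_one_left (hmul τ hτ τ hτ hτ1 hτ1)]
      rw [Nat.card_eq_two_iff]
      refine ⟨1, ⟨τ, hτ⟩, ?_, ?_⟩
      · intro h
        apply hτ1
        exact (congrArg Subtype.val h).symm
      · rw [Set.eq_univ_iff_forall]
        intro σ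
        rcases this σ with h | h
        · rw [h]; simp
        · rw [h]; simp
    · refine ⟨cf (f p) 1, hp', ?_⟩
      intro y
      obtain ⟨x, hx, hxy⟩ := h1 y
      have e1 := cf_mul hx hp
      have e2 := cf_mul hp hx
      rw [← map_mul, mul_comm p x, map_mul] at e2
      have e3 : cf (f x * f p) 1 = cf (f x) 0 * cf (f p) 1 := by
        simpa [tw, bf] using e1
      have e4 : cf (f x * f p) 1 = cf (f p) 1 * S.φ (cf (f x) 0) := by
        simpa [tw, bf] using e2
      rw [← hxy, ← e3, e4]
  · left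
    push Not at hodd
    rw [injective_iff_map_eq_one]
    intro σ hσ
    have hσ' : σ ∈ ρ.ker := MonoidHom.mem_ker.2 hσ
    apply Residue_wild S f σ
    intro m x hx
    rcases Int.even_or_odd' m with ⟨j, rfl | rfl⟩
    · exact hkereven σ hσ' j x hx
    · have e1 := Residue_dge_succ hx (hodd j x hx)
      have e2 : dge (2 * (j + 1)) (f x) := e1.mono (by omega)
      exact (hkereven σ hσ' (j + 1) x e2).mono (by omega)

end LData

end W_bec7e1
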