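import Mathlib
import Pool.Agent.W_bec7e1.Residue
import Pool.Agent.W_bec7e1.QLevel
import Pool.Agent.W_bec7e1.LBound
import Pool.Agent.W_bec7e1.GroupLemma

/-!
# Every Galois maximal subfield of `D` is dihedral
-/

set_option synthInstance.maxHeartbeats 400000

namespace W_bec7e1

open HahnSeries LData

namespace CData

variable {M : Type} [Field M] (d : CData M)

/-- `Q` is `M × M` as a vector space over `k`. -/
def Qequiv : d.Q ≃ₗ[d.k] M × M where
  toFun x := (x.re, x.im)
  invFun p := ⟨p.1, p.2⟩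
  map_add' x y := rfl
  map_smul' a x := by
    rw [Algebra.smul_def, algebraMap_Q]
    ext
    · simp [Subfield.smul_def]
    · simp [Subfield.smul_def]
  left_inv x := rfl
  right_inv p := rfl

/-- finite-dimensionality of `Q` over `k`, with its dimension -/
theorem finite_Q : FiniteDimensional d.k d.Q ∧ Module.finrank d.k d.Q = 16 := by
  obtain ⟨h1, _, h2, _⟩ := d.M_galois
  refine ⟨LinearEquiv.finiteDimensional d.Qequiv.symm, ?_⟩
  rw [LinearEquiv.finrank_eq d.Qequiv, Module.finrank_prod, h2]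

/-- the leading-coefficient comparison at the outer level -/
theorem outer {E₁ E₂ : Type} [Field E₁] [Algebra (LaurentSeries d.k) E₁] [Field E₂]
    [Algebra d.k E₂] (g₁ : E₁ →ₐ[LaurentSeries d.k] d.C₁) (g₂ : E₂ →ₐ[d.k] d.Q)
    (hlift : ∀ y : E₂, ∃ x : E₁, dge 0 (g₁ x) ∧ cf (g₁ x) 0 = g₂ y)
    (c : d.C₁) (hc : c ≠ 0) (h : ∀ y : E₁, g₁ y * c = c * d.Ψ (g₁ y)) :
    ∃ c₀ : d.Q, c₀ ≠ 0 ∧ ((∀ y, g₂ y * c₀ = c₀ * d.Φb (g₂ y)) ∨
      (∀ y, g₂ y * c₀ = c₀ * d.Φa (d.Φb (g₂ y)))) := by
  obtain ⟨n, hn, hn'⟩ := exists_low hc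
  refine ⟨cf c n, hn', ?_⟩
  have key : ∀ y, g₂ y * cf c n = cf c n * d.S₁.tw n (d.Φb (g₂ y)) := by
    intro y
    obtain ⟨x, hx, hx'⟩ := hlift y
    have h1 := congrArg (fun t => cf t n) (h x)
    have h2 : dge 0 (d.Ψ (g₁ x)) := by
      obtain ⟨h3, h4⟩ := (dge_iff _ _).1 hx
      rw [dge_iff, Ψ_re, Ψ_im]
      refine ⟨lge_lmap _ h3, ?_⟩
      have h5 := (lge_lmap d.Φb h4).mul (lge_single 0 d.q)
      exact h5.mono (by omega)
    have h6 : cf (d.Ψ (g₁ x)) 0 = d.Φb (cf (g₁ x) 0) := by
      have e : (0 : ℤ) = 2 * 0 := by ring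
      rw [e, cf_even, cf_even, Ψ_re, lmap_coeff]
    have h7 := cf_mul hx hn
    have h8 := cf_mul hn h2
    rw [zero_add] at h7
    rw [add_zero] at h8
    rw [h7, h8, h6, hx'] at h1
    have e : (0 : ℤ) = 2 * 0 := by ring
    have h9 : d.S₁.tw 0 (cf c n) = cf c n := by rw [e]; exact tw_even _ _
    have h10 : d.S₁.bf 0 n = 1 := by rw [e]; exact bf_even_left _ _
    have h11 : d.S₁.bf n 0 = 1 := by rw [e]; exact bf_even_right _ _
    rw [h9, h10, h11, mul_one, mul_one] at h1
    exact h1
  rcases Int.even_or_odd' n with ⟨j, hj | hj⟩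
  · left
    intro y
    rw [key y, hj, tw_even]
  · right
    intro y
    rw [key y, hj, tw_odd]
    rfl

/-- elements of `L` commute with everything -/
theorem L_central (x : d.Q) (h1 : x.im = 0) (h2 : d.r (d.r x.re) = x.re) (y : d.Q) :
    x * y = y * x := by
  ext
  · rw [QExt.mul_re, QExt.mul_re, h1, map_zero, mul_zero, zero_mul, zero_mul, mul_comm]
  · rw [QExt.mul_im, QExt.mul_im, h1, SQφ, SQφ, h2]; ring

theorem cancelQ {c x y : d.Q} (hc : c ≠ 0) (h : c * x = c * y) : x = y := by
  have h1 : c * (x - y) = 0 := by rw [mul_sub, h, sub_self]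
  exact sub_eq_zero.1 ((mul_eq_zero.1 h1).resolve_left hc)

/-- A `k`-algebra hom `E → Q` with values in `L` as a hom `E → M`. -/
def toM {E : Type} [Field E] [Algebra d.k E] (g : E →ₐ[d.k] d.Q)
    (h : ∀ y, (g y).im = 0 ∧ d.r (d.r (g y).re) = (g y).re) : E →ₐ[d.k] M where
  toFun y := (g y).re
  map_one' := by rw [map_one]; rfl
  map_zero' := by rw [map_zero]; rfl
  map_add' x y := by rw [map_add]; rfl
  map_mul' x y := by rw [map_mul, QExt.mul_re, (h x).1]; simp
  commutes' a := by rw [AlgHom.commutes, algebraMap_Q]; rfl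

instance charZero_k [CharZero M] : CharZero d.k :=
  ⟨fun a b hab => Nat.cast_injective (R := M)
    (by simpa using congrArg (algebraMap d.k M) hab)⟩

instance charZero_F₁ [CharZero M] : CharZero d.F₁ :=
  charZero_of_injective_ringHom (f := (HahnSeries.C : d.k →+* LaurentSeries d.k))
    HahnSeries.C_injective

/-- The main theorem about subfields of `D`. -/
theorem main [CharZero M] (hNR : d.NR) (K : Type) [Field K] [Algebra d.F K]
    [FiniteDimensional d.F K] [IsGalois d.F K] (hK : Module.finrank d.F K = 8)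
    (f : K →ₐ[d.F] d.D) : Nonempty ((K ≃ₐ[d.F] K) ≃* DihedralGroup 4) := by
  by_contra hD
  have hfQ : FiniteDimensional d.k d.Q := d.finite_Q.1
  have hfC : FiniteDimensional d.F₁ d.C₁ := LData.finite d.S₁
  obtain ⟨E₁, iE, iA, iF, iG, g₁, ρ₁₀, hρ₁₀, hl₁, hk₁₀⟩ := LData.exists_residue d.S₂ f
  let iA' : Algebra (LaurentSeries d.k) E₁ := iA
  have iF' : FiniteDimensional (LaurentSeries d.k) E₁ := iF
  have iG' : IsGalois (LaurentSeries d.k) E₁ := iG
  obtain ⟨g₁', ρ₁, hρ₁, hk₁⟩ : ∃ (g₁' : E₁ →ₐ[LaurentSeries d.k] d.C₁)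
      (ρ₁ : (K ≃ₐ[d.F] K) →* (E₁ ≃ₐ[LaurentSeries d.k] E₁)), Function.Surjective ρ₁ ∧
      (Function.Injective ρ₁ ∨
        (Nat.card ρ₁.ker = 2 ∧ ∃ c : d.C₁, c ≠ 0 ∧ ∀ y : E₁, g₁' y * c = c * d.Ψ (g₁' y))) :=
    ⟨g₁, ρ₁₀, hρ₁₀, hk₁₀⟩
  obtain ⟨E₂, iE₂, iA₂, iF₂, iG₂, g₂, ρ₂, hρ₂, hl₂, hk₂⟩ := LData.exists_residue d.S₁ g₁'
  have card0 : Nat.card (K ≃ₐ[d.F] K) = 8 := by rw [IsGalois.card_aut_eq_finrank, hK]
  have card2 : Nat.card (E₂ ≃ₐ[d.k] E₂) = Module.finrank d.k E₂ := IsGalois.card_aut_eq_finrank _ _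
  have hker : ∀ {G H : Type} [Group G] [Group H] (ρ : G →* H), Function.Surjective ρ →
      Nat.card G = Nat.card H * Nat.card ρ.ker := by
    intro G H _ _ ρ hρ
    rw [Subgroup.card_eq_card_quotient_mul_card_subgroup ρ.ker]
    congr 1
    exact Nat.card_congr (QuotientGroup.quotientKerEquivOfSurjective ρ hρ).toEquiv
  have c1 := hker ρ₁ hρ₁
  have c2 := hker ρ₂ hρ₂
  rw [card0] at c1
  have hinj : ∀ {G H : Type} [Group G] [Group H] (ρ : G →* H), Function.Injective ρ →
      Nat.card ρ.ker = 1 := by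
    intro G H _ _ ρ hρ
    rw [(MonoidHom.ker_eq_bot_iff ρ).2 hρ]
    simp
  have hfix : ∀ (c : d.Q) (ψ : d.Q → d.Q), c ≠ 0 → (∀ y, g₂ y * c = c * ψ (g₂ y)) →
      (∀ y, (g₂ y).im = 0 ∧ d.r (d.r (g₂ y).re) = (g₂ y).re) → ∀ y, g₂ y = ψ (g₂ y) := by
    intro c ψ hc h1 h2 y
    apply d.cancelQ hc
    rw [← h1 y]
    exact (d.L_central _ (h2 y).1 (h2 y).2 c).symm
  rcases hk₁ with hk₁ | ⟨hk₁, c, hc, hcomm⟩
  · have e1 := hinj ρ₁ hk₁
    rcases hk₂ with hk₂ | ⟨hk₂, c', hc', hcomm'⟩
    · -- both unramified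
      have e2 := hinj ρ₂ hk₂
      apply d.qlevel hNR E₂ g₂
      · by_contra hall
        push Not at hall
        have h4 := d.finrank_le_four (d.toM g₂ hall) (fun x => (hall x).2)
        rw [← card2] at h4
        rw [e1] at c1
        rw [e2] at c2
        omega
      · intro g h hg
        obtain ⟨g', rfl⟩ := hρ₂ g
        obtain ⟨g', rfl⟩ := hρ₁ g'
        obtain ⟨h', rfl⟩ := hρ₂ h
        obtain ⟨h', rfl⟩ := hρ₁ h'
        have h3 : g' * g' = 1 := by
          apply hk₁
          apply hk₂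
          rw [map_mul, map_mul, hg, map_one, map_one]
        have h4 := involutions_central card0 hD g' h' h3
        rw [← map_mul, ← map_mul, ← map_mul, ← map_mul, h4]
    · -- ramified at the inner level
      have hcard : Nat.card (E₂ ≃ₐ[d.k] E₂) = 4 := by
        rw [e1] at c1
        rw [hk₂] at c2
        omega
      apply d.qlevel hNR E₂ g₂
      · by_contra hall
        push Not at hall
        have h5 := hfix c' _ hc' hcomm' hall
        have h4 := d.finrank_le_two (d.toM g₂ hall) (fun x => (hall x).2)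
          (Or.inr (Or.inr fun x => by
            have := congrArg QExt.re (h5 x)
            rw [S₁φ, Φa_re] at this
            exact this.symm))
        rw [← card2, hcard] at h4
        omega
      · intro g h _
        exact commutative_of_card (Or.inr hcard) g h
  · obtain ⟨c₀, hc₀, hcomm₀⟩ := d.outer g₁' g₂ hl₂ c hc hcomm
    rcases hk₂ with hk₂ | ⟨hk₂, c', hc', hcomm'⟩
    · -- ramified at the outer level
      have e2 := hinj ρ₂ hk₂
      have hcard : Nat.card (E₂ ≃ₐ[d.k] E₂) = 4 := by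
        rw [hk₁] at c1
        rw [e2] at c2
        omega
      apply d.qlevel hNR E₂ g₂
      · by_contra hall
        push Not at hall
        have h4 := d.finrank_le_two (d.toM g₂ hall) (fun x => (hall x).2) (by
          rcases hcomm₀ with h6 | h6
          · right; left
            intro x
            have := congrArg QExt.re (hfix c₀ _ hc₀ h6 hall x)
            rw [Φb_re] at this
            exact this.symm
          · left
            intro x
            have := congrArg QExt.re (hfix c₀ (fun y => d.Φa (d.Φb y)) hc₀ h6 hall x)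
            rw [Φa_re, Φb_re, d.s2] at this
            exact this.symm)
        rw [← card2, hcard] at h4
        omega
      · intro g h _
        exact commutative_of_card (Or.inr hcard) g h
    · -- ramified twice
      have hcard : Nat.card (E₂ ≃ₐ[d.k] E₂) = 2 := by
        rw [hk₁] at c1
        rw [hk₂] at c2
        omega
      apply d.qlevel hNR E₂ g₂
      · by_contra hall
        push Not at hall
        have h7 : ∀ x, d.r (d.s (g₂ x).re) = (g₂ x).re := by
          intro x
          have := congrArg QExt.re (hfix c' _ hc' hcomm' hall x)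
          rw [S₁φ, Φa_re] at this
          exact this.symm
        have h8 : (∀ x, d.r (g₂ x).re = (g₂ x).re) ∧ (∀ x, d.s (g₂ x).re = (g₂ x).re) := by
          rcases hcomm₀ with h6 | h6
          · have h9 : ∀ x, d.s (g₂ x).re = (g₂ x).re := by
              intro x
              have := congrArg QExt.re (hfix c₀ _ hc₀ h6 hall x)
              rw [Φb_re] at this
              exact this.symm
            refine ⟨fun x => ?_, h9⟩
            have := h7 x
            rwa [h9 x] at this
          · have h9 : ∀ x, d.r (g₂ x).re = (g₂ x).re := by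
              intro x
              have := congrArg QExt.re (hfix c₀ (fun y => d.Φa (d.Φb y)) hc₀ h6 hall x)
              rw [Φa_re, Φb_re, d.s2] at this
              exact this.symm
            refine ⟨h9, fun x => ?_⟩
            have := h7 x
            apply d.r.injective
            rw [this, h9 x]
        have h4 := d.finrank_eq_one (d.toM g₂ hall) h8.1 h8.2
        rw [← card2, hcard] at h4
        omega
      · intro g h _
        exact commutative_of_card (Or.inl hcard) g h

end CData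

end W_bec7e1
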