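import Mathlib
import Pool.Agent.W_bec7e1.Main
import Pool.Agent.W_bec7e1.Center

/-!
# `D` is a central division algebra of degree 8 over `F`
-/

namespace W_bec7e1

open HahnSeries LData

set_option linter.unusedSectionVars false

theorem exists_lmap_eq {R R' : Type} [Ring R] [Ring R'] (f : R →+* R')
    (hf : Function.Injective f) (x : LaurentSeries R') (h : ∀ n, ∃ a, f a = x.coeff n) :
    ∃ y : LaurentSeries R, lmap f y = x := by
  choose g hg using h
  refine ⟨⟨g, ?_⟩, ?_⟩
  · refine x.isPWO_support.mono ?_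
    intro n hn
    rw [HahnSeries.mem_support, ← hg n]
    rw [Function.mem_support] at hn
    exact fun h => hn (hf (by rw [h, map_zero]))
  · ext n
    exact hg n

/-- `x` is central. -/
def IsCen {R : Type} [Ring R] (x : R) : Prop := ∀ y, x * y = y * x

namespace LData

variable {k C : Type} [Field k] [Ring C] [Algebra k C]

theorem isCen_iff [Nontrivial C] [NoZeroDivisors C] (S : LData k C) (c₀ : C) (hc₀ : IsCen c₀)
    (hφ : S.φ c₀ ≠ c₀) (x : QExt S.toQ) :
    IsCen x ↔ x.im = 0 ∧ ∀ n, IsCen (x.re.coeff n) ∧ S.φ (x.re.coeff n) = x.re.coeff n :=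
  S.central_iff c₀ hc₀ hφ x

/-- Criterion for the level to be central over `k((t))`. -/
theorem isCentral_of (S : LData k C) [Nontrivial C]
    (h : ∀ x : QExt S.toQ, IsCen x → x.im = 0 ∧ ∀ n, ∃ a : k, algebraMap k C a = x.re.coeff n) :
    Algebra.IsCentral (LaurentSeries k) (QExt S.toQ) := by
  constructor
  intro x hx
  rw [Subalgebra.mem_center_iff] at hx
  obtain ⟨h1, h2⟩ := h x (fun y => (hx y).symm)
  rw [Algebra.mem_bot]
  obtain ⟨y, hy⟩ := exists_lmap_eq (algebraMap k C) (algebraMap k C).injective _ h2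
  exact ⟨y, QExt.ext hy h1.symm⟩

theorem isSimple_of [Nontrivial C] [NoZeroDivisors C] [FiniteDimensional k C] (S : LData k C) :
    IsSimpleRing (QExt S.toQ) := by
  have h := LData.finite S
  have : IsDomain (QExt S.toQ) := NoZeroDivisors.to_isDomain _
  exact @DivisionRing.isSimpleRing (QExt S.toQ)
    (divisionRingOfFiniteDimensional (LaurentSeries k) (QExt S.toQ))

end LData

namespace CData

variable {M : Type} [Field M] [CharZero M] (d : CData M)

theorem rA : d.r d.A = -d.A := by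
  rw [A, map_div₀, map_add, map_inv₀, d.rT, map_ofNat, inv_neg]; ring
theorem rB : d.r d.B = -d.B := by
  rw [B, map_div₀, map_sub, map_inv₀, d.rT, map_mul, map_ofNat, d.ri, inv_neg]; ring
theorem sA : d.s d.A = d.A := by
  rw [A, map_div₀, map_add, map_inv₀, d.sT, map_ofNat, inv_inv, add_comm]
theorem sB : d.s d.B = -d.B := by
  rw [B, map_div₀, map_sub, map_inv₀, d.sT, map_mul, map_ofNat, d.si, inv_inv]; ring

theorem A_ne_zero : d.A ≠ 0 := by
  intro h
  apply d.T4
  have hT := d.T0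
  rw [A] at h
  have h2 : d.T + d.T⁻¹ = 0 := by
    rcases div_eq_zero_iff.1 h with h | h
    · exact h
    · exact absurd h two_ne_zero
  have h3 : d.T ^ 2 = -1 := by
    field_simp at h2
    linear_combination h2
  linear_combination (d.T ^ 2 - 1) * h3

theorem B_ne_zero : d.B ≠ 0 := by
  intro h
  apply d.T4
  have hT := d.T0
  have hi0 : d.i ≠ 0 := by
    intro h0
    have := d.ii
    rw [h0] at this
    simp at this
  rw [B] at h
  have h2 : d.T - d.T⁻¹ = 0 := by
    rcases div_eq_zero_iff.1 h with h | h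
    · exact h
    · exact absurd h (mul_ne_zero two_ne_zero hi0)
  have h3 : d.T ^ 2 = 1 := by
    field_simp at h2
    linear_combination h2
  linear_combination (d.T ^ 2 + 1) * h3

/-- central elements of `Q` -/
theorem central_Q (x : d.Q) : IsCen x ↔ x.im = 0 ∧ d.r (d.r x.re) = x.re := by
  constructor
  · intro h
    obtain ⟨m, hm⟩ := d.r2
    have h1 := congrArg QExt.im (h (QExt.of d.SQ m))
    rw [QExt.mul_im, QExt.mul_im, QExt.of_re, QExt.of_im, mul_zero, zero_add, zero_mul, add_zero,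
      SQφ] at h1
    have h2 : x.im * (d.r (d.r m) - m) = 0 := by linear_combination h1
    have h3 : x.im = 0 := (mul_eq_zero.1 h2).resolve_right (sub_ne_zero.2 hm)
    refine ⟨h3, ?_⟩
    have h4 := congrArg QExt.im (h (QExt.z d.SQ))
    rw [QExt.mul_im, QExt.mul_im, QExt.z_re, QExt.z_im, h3, zero_mul, add_zero, zero_mul, zero_add,
      SQφ, mul_one, one_mul] at h4
    exact h4.symm
  · rintro ⟨h1, h2⟩ y
    exact d.L_central x h1 h2 y

theorem central_C₁ (x : d.C₁) : IsCen x ↔ x.im = 0 ∧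
      ∀ n, IsCen (x.re.coeff n) ∧ d.Φa (x.re.coeff n) = x.re.coeff n := by
  apply LData.isCen_iff d.S₁ (QExt.of d.SQ d.A)
  · rw [central_Q]
    exact ⟨rfl, by rw [QExt.of_re, rA, map_neg, rA, neg_neg]⟩
  · intro h
    have h1 := congrArg QExt.re h
    rw [S₁φ, Φa_re, QExt.of_re, sA, rA] at h1
    exact d.A_ne_zero (self_eq_neg.1 h1.symm)

/-- `B` in the first level. -/
noncomputable def B₁ : d.C₁ := QExt.of d.S₁.toQ (HahnSeries.C (QExt.of d.SQ d.B))

theorem B₁_coeff (n : ℤ) : d.B₁.re.coeff n = 0 ∨ d.B₁.re.coeff n = QExt.of d.SQ d.B := by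
  have h : d.B₁.re = HahnSeries.C (QExt.of d.SQ d.B) := rfl
  rw [h, HahnSeries.C_apply]
  by_cases hn : n = 0
  · right; rw [hn, coeff_single_same]
  · left; rw [coeff_single_of_ne hn]

theorem B₁_central : IsCen d.B₁ := by
  apply (d.central_C₁ d.B₁).2
  refine ⟨rfl, fun n => ?_⟩
  rcases d.B₁_coeff n with h | h
  · rw [h]
    exact ⟨fun y => by rw [zero_mul, mul_zero], map_zero _⟩
  · rw [h]
    refine ⟨?_, ?_⟩
    · rw [central_Q]
      exact ⟨rfl, by rw [QExt.of_re, rB, map_neg, rB, neg_neg]⟩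
    · ext
      · rw [Φa_re, QExt.of_re, sB, map_neg, rB, neg_neg]
      · rw [Φa_im]; simp

theorem Ψ_B₁ : d.Ψ d.B₁ ≠ d.B₁ := by
  intro h
  have h1 := congrArg QExt.re h
  rw [Ψ_re, B₁, QExt.of_re, lmap_C] at h1
  have h2 := HahnSeries.C_injective h1
  have h3 := congrArg QExt.re h2
  rw [Φb_re, QExt.of_re, sB] at h3
  exact d.B_ne_zero (self_eq_neg.1 h3.symm)

theorem central_D (x : d.D) (hx : IsCen x) : x.im = 0 ∧
      ∀ n, IsCen (x.re.coeff n) ∧ d.S₂.φ (x.re.coeff n) = x.re.coeff n :=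
  (LData.isCen_iff d.S₂ d.B₁ d.B₁_central d.Ψ_B₁ x).1 hx

theorem isCentral : Algebra.IsCentral d.F d.D := by
  apply LData.isCentral_of d.S₂
  intro x hx
  obtain ⟨h1, h2⟩ := d.central_D x hx
  refine ⟨h1, ?_⟩
  intro n
  obtain ⟨h4, h5⟩ := h2 n
  rw [S₂φ] at h5
  rw [central_C₁] at h4
  obtain ⟨h6, h7⟩ := h4
  have h8 : ∀ m, ∃ a : d.k, algebraMap d.k d.Q a = (x.re.coeff n).re.coeff m := by
    intro m
    obtain ⟨h9, h10⟩ := h7 m
    rw [central_Q] at h9
    have h11 := congrArg (fun t : d.C₁ => t.re.coeff m) h5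
    simp only [Ψ_re, lmap_coeff] at h11
    have h12 := congrArg QExt.re h11
    have h13 := congrArg QExt.re h10
    rw [Φb_re] at h12
    rw [Φa_re, h12] at h13
    exact ⟨⟨((x.re.coeff n).re.coeff m).re, h13, h12⟩, QExt.ext rfl h9.1.symm⟩
  obtain ⟨y, hy⟩ := exists_lmap_eq (algebraMap d.k d.Q) (algebraMap d.k d.Q).injective _ h8
  exact ⟨y, QExt.ext hy h6.symm⟩

theorem finite_D : FiniteDimensional d.F d.D ∧ Module.finrank d.F d.D = 64 := by
  have hfQ : FiniteDimensional d.k d.Q := d.finite_Q.1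
  have hfC : FiniteDimensional d.F₁ d.C₁ := LData.finite d.S₁
  refine ⟨LData.finite d.S₂, ?_⟩
  have h1 : Module.finrank d.F₁ d.C₁ = 2 * Module.finrank d.k d.Q := LData.finrank_eq d.S₁
  have h2 := LData.finrank_eq d.S₂
  rw [h1, d.finite_Q.2] at h2
  exact h2

theorem isSimple : IsSimpleRing d.D := by
  have hfQ : FiniteDimensional d.k d.Q := d.finite_Q.1
  have hfC : FiniteDimensional d.F₁ d.C₁ := LData.finite d.S₁
  exact LData.isSimple_of d.S₂

end CData

end W_bec7e1
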