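import Mathlib
import Pool.Agent.W_bec7e1.Laurent

/-!
# Leading terms of Laurent series over a field and of quadratic forms in them
-/

namespace W_bec7e1

open HahnSeries

variable {K : Type} [Field K]

/-- `a = c t ^ n + higher order terms`, with `c ≠ 0`. -/
def LT (a : LaurentSeries K) (n : ℤ) (c : K) : Prop := lge n a ∧ a.coeff n = c ∧ c ≠ 0

theorem exists_LT {a : LaurentSeries K} (ha : a ≠ 0) : ∃ n c, LT a n c := by
  obtain ⟨n, h1, h2⟩ := exists_lowest ha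
  exact ⟨n, _, h1, rfl, h2⟩

theorem LT.ne_zero {a : LaurentSeries K} {n : ℤ} {c : K} (h : LT a n c) : a ≠ 0 := by
  rintro rfl
  obtain ⟨_, h2, h3⟩ := h
  simp only [coeff_zero] at h2
  exact h3 h2.symm

theorem LT.unique {a : LaurentSeries K} {n m : ℤ} {c e : K} (h : LT a n c) (h' : LT a m e) :
    n = m ∧ c = e := by
  obtain ⟨h1, h2, h3⟩ := h
  obtain ⟨h4, h5, h6⟩ := h'
  have : n = m := lge_lowest_unique h1 (h2 ▸ h3) h4 (h5 ▸ h6)
  subst this
  exact ⟨rfl, by rw [← h2, h5]⟩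

theorem LT.mul {a b : LaurentSeries K} {n m : ℤ} {c e : K} (h : LT a n c) (h' : LT b m e) :
    LT (a * b) (n + m) (c * e) := by
  obtain ⟨h1, h2, h3⟩ := h
  obtain ⟨h4, h5, h6⟩ := h'
  exact ⟨h1.mul h4, by rw [coeff_mul_lowest h1 h4, h2, h5], mul_ne_zero h3 h6⟩

theorem LT_C {c : K} (hc : c ≠ 0) : LT (HahnSeries.C c : LaurentSeries K) 0 c :=
  ⟨lge_single 0 c, by simp [HahnSeries.C_apply], hc⟩

theorem LT_single {c : K} (n : ℤ) (hc : c ≠ 0) : LT (single n c : LaurentSeries K) n c :=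
  ⟨lge_single n c, by simp, hc⟩

theorem LT.lmap {K' : Type} [Field K'] (f : K →+* K') {a : LaurentSeries K} {n : ℤ} {c : K}
    (h : LT a n c) : LT (lmap f a) n (f c) := by
  obtain ⟨h1, h2, h3⟩ := h
  exact ⟨lge_lmap f h1, by rw [lmap_coeff, h2], (map_ne_zero f).2 h3⟩

theorem LT.sq {a : LaurentSeries K} {n : ℤ} {c : K} (h : LT a n c) : LT (a ^ 2) (2 * n) (c ^ 2) := by
  have := h.mul h
  rw [← pow_two, ← pow_two, ← two_mul] at this
  exact this

/-- adding a series of higher order does not change the leading term -/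
theorem LT.add_of_lge {a b : LaurentSeries K} {n : ℤ} {c : K} (h : LT a n c) (hb : lge (n + 1) b) :
    LT (a + b) n c := by
  obtain ⟨h1, h2, h3⟩ := h
  refine ⟨h1.add (hb.mono (by omega)), ?_, h3⟩
  rw [coeff_add, h2, hb n (by omega), add_zero]

theorem LT.sub_of_lge {a b : LaurentSeries K} {n : ℤ} {c : K} (h : LT a n c) (hb : lge (n + 1) b) :
    LT (a - b) n c := by
  rw [sub_eq_add_neg]
  exact h.add_of_lge hb.neg

theorem LT.neg {a : LaurentSeries K} {n : ℤ} {c : K} (h : LT a n c) : LT (-a) n (-c) := by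
  obtain ⟨h1, h2, h3⟩ := h
  exact ⟨h1.neg, by rw [coeff_neg, h2], neg_ne_zero.2 h3⟩

/-- two leading terms of different orders -/
theorem LT.add_of_ne {a b : LaurentSeries K} {n m : ℤ} {c e : K} (h : LT a n c) (h' : LT b m e)
    (hne : n ≠ m) : (LT (a + b) n c) ∨ (LT (a + b) m e) := by
  rcases lt_or_gt_of_ne hne with hl | hl
  · exact Or.inl (h.add_of_lge (h'.1.mono (by omega)))
  · right
    rw [add_comm]
    exact h'.add_of_lge (h.1.mono (by omega))

/-- a common order of two series, not both zero -/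
theorem exists_common_order {a b : LaurentSeries K} (hab : a ≠ 0 ∨ b ≠ 0) :
    ∃ m : ℤ, lge m a ∧ lge m b ∧ (a.coeff m ≠ 0 ∨ b.coeff m ≠ 0) := by
  by_cases ha : a = 0
  · have hb : b ≠ 0 := by
      rcases hab with h | h
      · exact absurd ha h
      · exact h
    obtain ⟨n, h1, h2⟩ := exists_lowest hb
    exact ⟨n, ha ▸ lge_zero n, h1, Or.inr h2⟩
  by_cases hb : b = 0
  · obtain ⟨n, h1, h2⟩ := exists_lowest ha
    exact ⟨n, h1, hb ▸ lge_zero n, Or.inl h2⟩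
  obtain ⟨n, h1, h2⟩ := exists_lowest ha
  obtain ⟨m, h3, h4⟩ := exists_lowest hb
  rcases le_total n m with h | h
  · exact ⟨n, h1, h3.mono h, Or.inl h2⟩
  · exact ⟨m, h1.mono h, h3, Or.inr h4⟩

/-- The leading term of a norm form `a² - W b²`, `W` of order 0 with leading coefficient `w` such
that `X² = w Z²` has only the trivial solution. -/
theorem LT_norm {W : LaurentSeries K} {w : K} (hW : LT W 0 w)
    (hw : ∀ X Z : K, X ^ 2 = w * Z ^ 2 → X = 0 ∧ Z = 0) (a b : LaurentSeries K)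
    (hab : a ≠ 0 ∨ b ≠ 0) :
    ∃ (m : ℤ) (X Z : K), LT (a ^ 2 - W * b ^ 2) (2 * m) (X ^ 2 - w * Z ^ 2) := by
  obtain ⟨m, h1, h2, h3⟩ := exists_common_order hab
  obtain ⟨hW1, hW2, hW3⟩ := hW
  refine ⟨m, a.coeff m, b.coeff m, ?_, ?_, ?_⟩
  · rw [two_mul, pow_two, pow_two]
    have := hW1.mul (h2.mul h2)
    rw [zero_add] at this
    exact (h1.mul h1).sub this
  · have e1 : (a ^ 2).coeff (2 * m) = a.coeff m ^ 2 := by
      rw [two_mul, pow_two, coeff_mul_lowest h1 h1, pow_two]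
    have e2 : (W * b ^ 2).coeff (2 * m) = w * b.coeff m ^ 2 := by
      have := coeff_mul_lowest hW1 (h2.mul h2)
      rw [zero_add, coeff_mul_lowest h2 h2, hW2] at this
      rw [two_mul, pow_two, pow_two, this]
    rw [coeff_sub, e1, e2]
  · intro h
    obtain ⟨h4, h5⟩ := hw _ _ (sub_eq_zero.1 h)
    rcases h3 with h3 | h3
    · exact h3 h4
    · exact h3 h5

/-- The leading term of `Θ a² + W b² - Θ W c²`, `Θ` of odd order. -/
theorem LT_form {Θ W : LaurentSeries K} {t w : K} {e : ℤ} (hΘ : LT Θ e t) (he : Odd e)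
    (hW : LT W 0 w) (hw : ∀ X Z : K, X ^ 2 = w * Z ^ 2 → X = 0 ∧ Z = 0)
    (a b c : LaurentSeries K) (h : Θ * a ^ 2 + W * b ^ 2 - Θ * W * c ^ 2 ≠ 0) :
    ∃ (m : ℤ) (v : K), LT (Θ * a ^ 2 + W * b ^ 2 - Θ * W * c ^ 2) m v ∧
      ((∃ X : K, v = w * X ^ 2) ∨ (∃ X Z : K, v = t * (X ^ 2 - w * Z ^ 2))) := by
  have hrw : Θ * a ^ 2 + W * b ^ 2 - Θ * W * c ^ 2 = Θ * (a ^ 2 - W * c ^ 2) + W * b ^ 2 := by ring
  rw [hrw] at h ⊢
  by_cases hac : a ≠ 0 ∨ c ≠ 0
  · obtain ⟨m, X, Z, hm⟩ := LT_norm hW hw a c hac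
    have h1 := hΘ.mul hm
    by_cases hb : b = 0
    · subst hb
      refine ⟨e + 2 * m, _, ?_, Or.inr ⟨X, Z, rfl⟩⟩
      simpa using h1
    · obtain ⟨n, y, hy⟩ := exists_LT hb
      have h2 := hW.mul hy.sq
      have hne : e + 2 * m ≠ 0 + 2 * n := by
        obtain ⟨k, hk⟩ := he
        omega
      rcases h1.add_of_ne h2 hne with h3 | h3
      · exact ⟨_, _, h3, Or.inr ⟨X, Z, rfl⟩⟩
      · exact ⟨_, _, h3, Or.inl ⟨y, rfl⟩⟩
  · push Not at hac
    obtain ⟨ha, hc⟩ := hac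
    subst ha hc
    have hb : b ≠ 0 := by
      rintro rfl
      apply h
      ring
    obtain ⟨n, y, hy⟩ := exists_LT hb
    have h2 := hW.mul hy.sq
    refine ⟨0 + 2 * n, w * y ^ 2, ?_, Or.inl ⟨y, rfl⟩⟩
    have : Θ * ((0 : LaurentSeries K) ^ 2 - W * (0 : LaurentSeries K) ^ 2) + W * b ^ 2 = W * b ^ 2 := by
      ring
    rw [this]
    exact h2

/-- The leading term of `a² - W b²`, `W` of odd order. -/
theorem LT_norm_odd {W : LaurentSeries K} {w : K} {e : ℤ} (hW : LT W e w) (he : Odd e)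
    (a b : LaurentSeries K) (hab : a ≠ 0 ∨ b ≠ 0) :
    ∃ (m : ℤ) (v : K), LT (a ^ 2 - W * b ^ 2) m v ∧
      ((∃ X : K, v = X ^ 2) ∨ (∃ Z : K, v = -(w * Z ^ 2))) := by
  by_cases ha : a = 0
  · have hb : b ≠ 0 := by
      rcases hab with h | h
      · exact absurd ha h
      · exact h
    subst ha
    obtain ⟨n, y, hy⟩ := exists_LT hb
    refine ⟨e + 2 * n, _, ?_, Or.inr ⟨y, rfl⟩⟩
    have : (0 : LaurentSeries K) ^ 2 - W * b ^ 2 = -(W * b ^ 2) := by ring
    rw [this]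
    exact (hW.mul hy.sq).neg
  · obtain ⟨n, x, hx⟩ := exists_LT ha
    by_cases hb : b = 0
    · subst hb
      refine ⟨2 * n, x ^ 2, ?_, Or.inl ⟨x, rfl⟩⟩
      have : a ^ 2 - W * (0 : LaurentSeries K) ^ 2 = a ^ 2 := by ring
      rw [this]
      exact hx.sq
    · obtain ⟨m, y, hy⟩ := exists_LT hb
      have h1 := hx.sq
      have h2 := (hW.mul hy.sq).neg
      have hne : 2 * n ≠ e + 2 * m := by
        obtain ⟨k, hk⟩ := he
        omega
      rw [sub_eq_add_neg]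
      rcases h1.add_of_ne h2 hne with h3 | h3
      · exact ⟨_, _, h3, Or.inl ⟨x, rfl⟩⟩
      · exact ⟨_, _, h3, Or.inr ⟨y, rfl⟩⟩

end W_bec7e1
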