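import Mathlib

/-!
# Odd and even elements with respect to an involution
-/

namespace W_bec7e1

/-- `e` is odd for `ψ`. -/
def OddEl {K : Type} [Field K] (ψ : K →+* K) (e : K) : Prop :=
  e ≠ 0 ∧ ∃ ω, ψ e = ω ^ 2 * e ∧ ω * ψ ω = -1

/-- `e` is even for `ψ`. -/
def EvEl {K : Type} [Field K] (ψ : K →+* K) (e : K) : Prop :=
  e ≠ 0 ∧ ∃ ω, ψ e = ω ^ 2 * e ∧ ω * ψ ω = 1

section

variable {K : Type} [Field K] {ψ : K →+* K}

theorem OddEl.mul_ev {a b : K} (ha : OddEl ψ a) (hb : EvEl ψ b) : OddEl ψ (a * b) := by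
  obtain ⟨ha0, ω, h1, h2⟩ := ha
  obtain ⟨hb0, ω', h3, h4⟩ := hb
  refine ⟨mul_ne_zero ha0 hb0, ω * ω', ?_, ?_⟩
  · rw [map_mul, h1, h3]; ring
  · rw [map_mul]; linear_combination (ω' * ψ ω') * h2 - h4

theorem EvEl.mul_ev {a b : K} (ha : EvEl ψ a) (hb : EvEl ψ b) : EvEl ψ (a * b) := by
  obtain ⟨ha0, ω, h1, h2⟩ := ha
  obtain ⟨hb0, ω', h3, h4⟩ := hb
  refine ⟨mul_ne_zero ha0 hb0, ω * ω', ?_, ?_⟩
  · rw [map_mul, h1, h3]; ring
  · rw [map_mul]; linear_combination (ω' * ψ ω') * h2 + h4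

theorem evEl_of_fixed {a : K} (ha : a ≠ 0) (h : ψ a = a) : EvEl ψ a :=
  ⟨ha, 1, by rw [h]; ring, by simp⟩

/-- an odd element times a fixed element is not a square -/
theorem OddEl.not_sq [CharZero K] (hψ : ∀ x, ψ (ψ x) = x) {e : K} (he : OddEl ψ e) (f : K) :
    e ≠ f ^ 2 := by
  obtain ⟨he0, ω, h1, h2⟩ := he
  intro h
  have hf0 : f ≠ 0 := by rintro rfl; apply he0; rw [h]; ring
  have h3 : (ψ f) ^ 2 = (ω * f) ^ 2 := by
    rw [← map_pow, ← h, h1, h]; ring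
  have h4 : ψ f = ω * f ∨ ψ f = -(ω * f) := sq_eq_sq_iff_eq_or_eq_neg.1 h3
  have h5 : f = -f := by
    rcases h4 with h4 | h4
    · have := congrArg ψ h4
      rw [hψ, map_mul, h4] at this
      linear_combination this + f * h2
    · have := congrArg ψ h4
      rw [hψ, map_neg, map_mul, h4] at this
      linear_combination this + f * h2
  exact hf0 (self_eq_neg.1 h5)

theorem OddEl.not_sq' [CharZero K] (hψ : ∀ x, ψ (ψ x) = x) {e : K} (he : OddEl ψ e) {m : K}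
    (hm0 : m ≠ 0) (hm : ψ m = m) (f : K) : m * e ≠ f ^ 2 := by
  rw [mul_comm]
  exact (he.mul_ev (evEl_of_fixed hm0 hm)).not_sq hψ f

end

end W_bec7e1
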