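import Mathlib
import Pool.Agent.W_bec7e1.Laurent

/-!
# Square roots of Laurent series
-/

namespace W_bec7e1

open HahnSeries

/-- The coefficients of the square root, by recursion. -/
noncomputable def sqrtCoeff {K : Type} [Field K] (f : ℕ → K) (c : K) : ℕ → K
  | 0 => c
  | (n + 1) => (f (n + 1) - ∑ i : Fin n, sqrtCoeff f c (i.1 + 1) * sqrtCoeff f c (n - i.1)) / (2 * c)
termination_by n => n
decreasing_by
  · have := i.2
    omega
  · omega

theorem sqrtCoeff_sum {K : Type} [Field K] [CharZero K] (f : ℕ → K) (c : K) (hc : c ≠ 0)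
    (h0 : f 0 = c ^ 2) (n : ℕ) :
    ∑ p ∈ Finset.HasAntidiagonal.antidiagonal n, sqrtCoeff f c p.1 * sqrtCoeff f c p.2 = f n := by
  rw [Finset.Nat.sum_antidiagonal_eq_sum_range_succ (fun i j => sqrtCoeff f c i * sqrtCoeff f c j)]
  rcases n with _ | n
  · simp [sqrtCoeff, h0, sq]
  · rw [Finset.sum_range_succ, Finset.sum_range_succ']
    have h1 : ∑ k ∈ Finset.range n, sqrtCoeff f c (k + 1) * sqrtCoeff f c (n + 1 - (k + 1)) =
        ∑ i : Fin n, sqrtCoeff f c (i.1 + 1) * sqrtCoeff f c (n - i.1) := by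
      rw [← Fin.sum_univ_eq_sum_range
        (fun k => sqrtCoeff f c (k + 1) * sqrtCoeff f c (n + 1 - (k + 1)))]
      apply Finset.sum_congr rfl
      intro i _
      rw [Nat.add_sub_add_right]
    have h2 : sqrtCoeff f c (n + 1) =
        (f (n + 1) - ∑ i : Fin n, sqrtCoeff f c (i.1 + 1) * sqrtCoeff f c (n - i.1)) / (2 * c) := by
      rw [sqrtCoeff]
    have h3 : sqrtCoeff f c 0 = c := by rw [sqrtCoeff]
    rw [h1, Nat.sub_self, Nat.sub_zero, h2, h3]
    field_simp
    ring

theorem ofPowerSeries_coeff_neg {K : Type} [Field K] (g : PowerSeries K) {m : ℤ} (hm : m < 0) :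
    (HahnSeries.ofPowerSeries ℤ K g).coeff m = 0 := by
  rw [ofPowerSeries_apply, embDomain_of_notMem_range]
  rintro ⟨k, hk⟩
  simp only [Nat.castOrderEmbedding_apply] at hk
  omega

/-- A Laurent series of order 0 whose constant coefficient is a nonzero square is a square. -/
theorem exists_sqrt {K : Type} [Field K] [CharZero K] (f : LaurentSeries K) (c : K) (hc : c ≠ 0)
    (hf : lge 0 f) (h0 : f.coeff 0 = c ^ 2) :
    ∃ ν : LaurentSeries K, lge 0 ν ∧ ν.coeff 0 = c ∧ ν ^ 2 = f := by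
  set g : PowerSeries K := PowerSeries.mk (sqrtCoeff (fun n => f.coeff (n : ℤ)) c) with hg
  refine ⟨HahnSeries.ofPowerSeries ℤ K g, ?_, ?_, ?_⟩
  · intro m hm
    exact ofPowerSeries_coeff_neg g hm
  · have := HahnSeries.ofPowerSeries_apply_coeff (Γ := ℤ) g 0
    simp only [Nat.cast_zero] at this
    rw [this, hg, PowerSeries.coeff_mk, sqrtCoeff]
  · rw [← map_pow]
    have hsq : g ^ 2 = PowerSeries.mk (fun n => f.coeff (n : ℤ)) := by
      ext n
      rw [sq, PowerSeries.coeff_mul, PowerSeries.coeff_mk]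
      simp only [hg, PowerSeries.coeff_mk]
      exact sqrtCoeff_sum (fun n => f.coeff (n : ℤ)) c hc (by simpa using h0) n
    rw [hsq]
    ext m
    rcases lt_or_ge m 0 with hm | hm
    · rw [hf m hm]
      exact ofPowerSeries_coeff_neg _ hm
    · obtain ⟨k, rfl⟩ := Int.eq_ofNat_of_zero_le hm
      have := HahnSeries.ofPowerSeries_apply_coeff (Γ := ℤ) (PowerSeries.mk (fun n => f.coeff (n : ℤ))) k
      rw [this, PowerSeries.coeff_mk]

theorem sqrt_unique {K : Type} [Field K] [CharZero K] (ν ν' : LaurentSeries K) (c : K) (hc : c ≠ 0)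
    (h : lge 0 ν) (h' : lge 0 ν') (h0 : ν.coeff 0 = c) (h0' : ν'.coeff 0 = c)
    (hh : ν ^ 2 = ν' ^ 2) : ν = ν' := by
  rcases sq_eq_sq_iff_eq_or_eq_neg.1 hh with h1 | h1
  · exact h1
  · exfalso
    have h2 := congrArg (fun x : LaurentSeries K => x.coeff 0) h1
    simp only [coeff_neg, h0, h0'] at h2
    exact hc (self_eq_neg.1 h2)

end W_bec7e1
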