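import Mathlib
import Pool.Agent.W_bec7e1.Laurent

/-!
# Ring homs out of `RatFunc K`
-/

namespace W_bec7e1

open Polynomial

noncomputable section

/-- `w` is transcendental over `K` with respect to `f : K →+* E`. -/
def Trans {K E : Type} [Field K] [Field E] (f : K →+* E) (w : E) : Prop :=
  ∀ p : K[X], p ≠ 0 → p.eval₂ f w ≠ 0

theorem Trans.le {K E : Type} [Field K] [Field E] {f : K →+* E} {w : E} (hw : Trans f w) :
    nonZeroDivisors K[X] ≤ (nonZeroDivisors E).comap (eval₂RingHom f w) := fun p hp => by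
  simp only [Submonoid.mem_comap, mem_nonZeroDivisors_iff_ne_zero]
  exact hw p (nonZeroDivisors.ne_zero hp)

/-- The ring hom `RatFunc K → E` extending `f : K → E` and sending `X` to `w`. -/
def ratLift {K E : Type} [Field K] [Field E] (f : K →+* E) (w : E) (hw : Trans f w) :
    RatFunc K →+* E :=
  RatFunc.liftRingHom (eval₂RingHom f w) hw.le

@[simp] theorem ratLift_C {K E : Type} [Field K] [Field E] (f : K →+* E) (w : E)
    (hw : Trans f w) (a : K) : ratLift f w hw (RatFunc.C a) = f a := by
  rw [ratLift, RatFunc.liftRingHom_C]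
  simp

@[simp] theorem ratLift_X {K E : Type} [Field K] [Field E] (f : K →+* E) (w : E)
    (hw : Trans f w) : ratLift f w hw RatFunc.X = w := by
  rw [ratLift, RatFunc.liftRingHom_X]
  simp

theorem ratFunc_ext {K E : Type} [Field K] [Field E] {f g : RatFunc K →+* E}
    (h1 : ∀ a, f (RatFunc.C a) = g (RatFunc.C a)) (h2 : f RatFunc.X = g RatFunc.X) : f = g := by
  apply IsFractionRing.ringHom_ext (A := K[X])
  intro p
  have : (f.comp (algebraMap K[X] (RatFunc K))) = (g.comp (algebraMap K[X] (RatFunc K))) := by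
    apply Polynomial.ringHom_ext
    · intro a
      simpa using h1 a
    · simpa using h2
  exact RingHom.congr_fun this p

theorem trans_of_transcendental {K : Type} [Field K] (ψ : K →+* K) {w : RatFunc K}
    (hw : Transcendental K w) : Trans ((RatFunc.C).comp ψ) w := by
  intro p hp h
  rw [transcendental_iff] at hw
  have h1 := hw (p.map ψ) (by
    rw [aeval_def, eval₂_map, RatFunc.algebraMap_eq_C]
    exact h)
  exact hp ((Polynomial.map_eq_zero ψ).1 h1)

/-- `c X` is transcendental. -/
theorem trans_mul_X {K : Type} [Field K] (ψ : K →+* K) (c : K) (hc : c ≠ 0) :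
    Trans ((RatFunc.C).comp ψ) (RatFunc.C c * RatFunc.X) := by
  apply trans_of_transcendental
  intro h
  apply RatFunc.transcendental_X (K := K)
  have h2 : (RatFunc.X : RatFunc K) = RatFunc.C c⁻¹ * (RatFunc.C c * RatFunc.X) := by
    rw [← mul_assoc, ← map_mul, inv_mul_cancel₀ hc, map_one, one_mul]
  rw [h2]
  refine IsAlgebraic.mul ?_ h
  rw [← RatFunc.algebraMap_eq_C]
  exact isAlgebraic_algebraMap _

/-- `c / X` is transcendental. -/
theorem trans_div_X {K : Type} [Field K] (ψ : K →+* K) (c : K) (hc : c ≠ 0) :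
    Trans ((RatFunc.C).comp ψ) (RatFunc.C c / RatFunc.X) := by
  apply trans_of_transcendental
  intro h
  apply RatFunc.transcendental_X (K := K)
  have hX : (RatFunc.X : RatFunc K) ≠ 0 := RatFunc.X_ne_zero
  have hC : (RatFunc.C c : RatFunc K) ≠ 0 := (_root_.map_ne_zero _).2 hc
  have h2 : (RatFunc.X : RatFunc K) = RatFunc.C c * (RatFunc.C c / RatFunc.X)⁻¹ := by
    field_simp
  rw [h2]
  refine IsAlgebraic.mul ?_ (IsAlgebraic.inv_iff.2 h)
  rw [← RatFunc.algebraMap_eq_C]
  exact isAlgebraic_algebraMap _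

/-- The endomorphism of `K(X)` given by `ψ` on `K` and `X ↦ c X`. -/
def autMul {K : Type} [Field K] (ψ : K →+* K) (c : K) (hc : c ≠ 0) : RatFunc K →+* RatFunc K :=
  ratLift _ _ (trans_mul_X ψ c hc)

/-- The endomorphism of `K(X)` given by `ψ` on `K` and `X ↦ c / X`. -/
def autDiv {K : Type} [Field K] (ψ : K →+* K) (c : K) (hc : c ≠ 0) : RatFunc K →+* RatFunc K :=
  ratLift _ _ (trans_div_X ψ c hc)

@[simp] theorem autMul_C {K : Type} [Field K] (ψ : K →+* K) (c : K) (hc : c ≠ 0) (a : K) :
    autMul ψ c hc (RatFunc.C a) = RatFunc.C (ψ a) := ratLift_C _ _ _ _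

@[simp] theorem autMul_X {K : Type} [Field K] (ψ : K →+* K) (c : K) (hc : c ≠ 0) :
    autMul ψ c hc RatFunc.X = RatFunc.C c * RatFunc.X := ratLift_X _ _ _

@[simp] theorem autDiv_C {K : Type} [Field K] (ψ : K →+* K) (c : K) (hc : c ≠ 0) (a : K) :
    autDiv ψ c hc (RatFunc.C a) = RatFunc.C (ψ a) := ratLift_C _ _ _ _

@[simp] theorem autDiv_X {K : Type} [Field K] (ψ : K →+* K) (c : K) (hc : c ≠ 0) :
    autDiv ψ c hc RatFunc.X = RatFunc.C c / RatFunc.X := ratLift_X _ _ _

/-- `K(X) → K'((t))(X)`-type embeddings: if `φ : K → K'((t))` and `ν ≠ 0` in `K'((t))`, then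
`ν X` is transcendental over `K` in `K'(X)((t))`. -/
theorem trans_laurent {K K' : Type} [Field K] [Field K'] (φ : K →+* LaurentSeries K')
    (ν : LaurentSeries K') (hν : ν ≠ 0) :
    Trans ((lmap (RatFunc.C : K' →+* RatFunc K')).comp φ)
      (lmap (RatFunc.C : K' →+* RatFunc K') ν * HahnSeries.C (RatFunc.X : RatFunc K')) := by
  intro p hp h
  apply hp
  ext j
  rw [Polynomial.coeff_zero]
  -- coefficientwise
  have key : ∀ n : ℤ, (∑ j ∈ Finset.range (p.natDegree + 1),
      Polynomial.C ((φ (p.coeff j) * ν ^ j).coeff n) * Polynomial.X ^ j : K'[X]) = 0 := by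
    intro n
    have h2 := congrArg (fun x : LaurentSeries (RatFunc K') => x.coeff n) h
    rw [eval₂_eq_sum_range] at h2
    simp only [HahnSeries.coeff_zero] at h2
    apply RatFunc.algebraMap_injective (K := K')
    rw [map_zero, ← h2, map_sum]
    have h3 : ∀ s : Finset ℕ, ∀ g : ℕ → LaurentSeries (RatFunc K'),
        (∑ j ∈ s, g j).coeff n = ∑ j ∈ s, (g j).coeff n := by
      intro s g
      exact map_sum (HahnSeries.coeff.addMonoidHom n) g s
    rw [h3]
    apply Finset.sum_congr rfl
    intro j _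
    rw [mul_pow, ← map_pow, ← map_pow, RingHom.comp_apply, ← mul_assoc, ← map_mul,
      HahnSeries.C_apply, HahnSeries.coeff_mul_single_zero, lmap_coeff]
    simp
  have hj : φ (p.coeff j) * ν ^ j = 0 := by
    ext n
    have h4 := congrArg (fun q : K'[X] => q.coeff j) (key n)
    simp only [Polynomial.finsetSum_coeff, Polynomial.coeff_C_mul, Polynomial.coeff_X_pow,
      Polynomial.coeff_zero] at h4
    by_cases hjn : j ∈ Finset.range (p.natDegree + 1)
    · rw [Finset.sum_eq_single j] at h4
      · simpa using h4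
      · intro b _ hb
        simp [Ne.symm hb]
      · intro hjn'; exact absurd hjn hjn'
    · have : p.coeff j = 0 := by
        apply Polynomial.coeff_eq_zero_of_natDegree_lt
        simp only [Finset.mem_range, not_lt] at hjn
        omega
      rw [this, map_zero, zero_mul]
  have h5 := (mul_eq_zero.1 hj).resolve_right (pow_ne_zero j hν)
  exact (map_eq_zero φ).1 h5

/-- The embedding `K(X) → K'(X)((t))` given by `φ : K → K'((t))` and `X ↦ ν X`. -/
def emb {K K' : Type} [Field K] [Field K'] (φ : K →+* LaurentSeries K')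
    (ν : LaurentSeries K') (hν : ν ≠ 0) : RatFunc K →+* LaurentSeries (RatFunc K') :=
  ratLift _ _ (trans_laurent φ ν hν)

theorem emb_C {K K' : Type} [Field K] [Field K'] (φ : K →+* LaurentSeries K')
    (ν : LaurentSeries K') (hν : ν ≠ 0) (a : K) :
    emb φ ν hν (RatFunc.C a) = lmap (RatFunc.C : K' →+* RatFunc K') (φ a) := ratLift_C _ _ _ _

theorem emb_X {K K' : Type} [Field K] [Field K'] (φ : K →+* LaurentSeries K')
    (ν : LaurentSeries K') (hν : ν ≠ 0) :
    emb φ ν hν RatFunc.X =
      lmap (RatFunc.C : K' →+* RatFunc K') ν * HahnSeries.C (RatFunc.X : RatFunc K') :=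
  ratLift_X _ _ _

/-- Equivariance of `emb`, case `X ↦ X`. -/
theorem emb_autMul {K K' : Type} [Field K] [Field K'] (φ : K →+* LaurentSeries K')
    (ν : LaurentSeries K') (hν : ν ≠ 0) (α : K →+* K) (α' : K' →+* K')
    (h1 : ∀ a, φ (α a) = lmap α' (φ a)) (h2 : lmap α' ν = ν) (x : RatFunc K) :
    emb φ ν hν (autMul α 1 one_ne_zero x) =
      lmap (autMul α' 1 one_ne_zero) (emb φ ν hν x) := by
  have : (emb φ ν hν).comp (autMul α 1 one_ne_zero) =
      (lmap (autMul α' 1 one_ne_zero)).comp (emb φ ν hν) := by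
    apply ratFunc_ext
    · intro a
      rw [RingHom.comp_apply, RingHom.comp_apply, autMul_C, emb_C, emb_C, h1]
      ext n
      simp
    · rw [RingHom.comp_apply, RingHom.comp_apply, autMul_X, map_one, one_mul, emb_X, map_mul,
        lmap_C, autMul_X, map_one, one_mul]
      congr 1
      nth_rewrite 1 [← h2]
      ext n
      simp
  exact RingHom.congr_fun this x

/-- Equivariance of `emb`, case `X ↦ n / X`. -/
theorem emb_autDiv {K K' : Type} [Field K] [Field K'] (φ : K →+* LaurentSeries K')
    (ν : LaurentSeries K') (hν : ν ≠ 0) (α : K →+* K) (α' : K' →+* K') (n : K) (hn : n ≠ 0)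
    (c : K') (hc : c ≠ 0)
    (h1 : ∀ a, φ (α a) = lmap α' (φ a)) (h2 : lmap α' ν = ν)
    (h3 : φ n = HahnSeries.C c * ν ^ 2) (x : RatFunc K) :
    emb φ ν hν (autDiv α n hn x) = lmap (autDiv α' c hc) (emb φ ν hν x) := by
  have : (emb φ ν hν).comp (autDiv α n hn) =
      (lmap (autDiv α' c hc)).comp (emb φ ν hν) := by
    apply ratFunc_ext
    · intro a
      rw [RingHom.comp_apply, RingHom.comp_apply, autDiv_C, emb_C, emb_C, h1]
      ext n
      simp
    · have hν' : lmap (RatFunc.C : K' →+* RatFunc K') ν ≠ 0 := (_root_.map_ne_zero _).2 hν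
      have hX : (HahnSeries.C (RatFunc.X : RatFunc K') : LaurentSeries (RatFunc K')) ≠ 0 :=
        (_root_.map_ne_zero _).2 RatFunc.X_ne_zero
      have h4 : lmap (autDiv α' c hc) (lmap (RatFunc.C : K' →+* RatFunc K') ν) =
          lmap (RatFunc.C : K' →+* RatFunc K') ν := by
        nth_rewrite 2 [← h2]
        ext n
        simp
      rw [RingHom.comp_apply, RingHom.comp_apply, autDiv_X, map_div₀, emb_C, emb_X, h3, map_mul,
        lmap_C, map_mul, lmap_C, autDiv_X, h4, map_pow, map_div₀]
      field_simp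
  exact RingHom.congr_fun this x

theorem trans_single {K K' : Type} [Field K] [Field K'] (f : K →+* K') (n : ℤ) (hn : n ≠ 0) :
    Trans ((HahnSeries.C : K' →+* LaurentSeries K').comp f) (HahnSeries.single n (1 : K')) := by
  intro p hp h
  apply hp
  ext j
  rw [Polynomial.coeff_zero]
  have h2 := congrArg (fun x : LaurentSeries K' => x.coeff (j * n)) h
  rw [eval₂_eq_sum_range] at h2
  have h3 : ∀ s : Finset ℕ, ∀ g : ℕ → LaurentSeries K',
      (∑ j ∈ s, g j).coeff (j * n) = ∑ j' ∈ s, (g j').coeff (j * n) := by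
    intro s g
    exact map_sum (HahnSeries.coeff.addMonoidHom (j * n)) g s
  rw [h3] at h2
  simp only [HahnSeries.single_pow, RingHom.comp_apply, HahnSeries.C_apply,
    HahnSeries.single_mul_single, one_pow, mul_one, zero_add, HahnSeries.coeff_single,
    nsmul_eq_mul, HahnSeries.coeff_zero] at h2
  by_cases hjn : j ∈ Finset.range (p.natDegree + 1)
  · rw [Finset.sum_eq_single j] at h2
    · rw [if_pos rfl] at h2
      exact (map_eq_zero f).1 h2
    · intro b _ hb
      rw [if_neg]
      intro h5
      apply hb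
      have := mul_right_cancel₀ hn h5
      exact_mod_cast this.symm
    · intro hjn'; exact absurd hjn hjn'
  · apply Polynomial.coeff_eq_zero_of_natDegree_lt
    simp only [Finset.mem_range, not_lt] at hjn
    omega

theorem trans_add {K E : Type} [Field K] [Field E] {f : K →+* E} {w : E} (hw : Trans f w)
    (a : K) : Trans f (f a + w) := by
  intro p hp h
  have h1 : p.comp (Polynomial.C a + Polynomial.X) ≠ 0 := by
    intro h0
    apply hp
    have h2 := congrArg (fun q : K[X] => q.comp (Polynomial.X - Polynomial.C a)) h0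
    simp only [Polynomial.comp_assoc, Polynomial.zero_comp] at h2
    simpa using h2
  apply hw _ h1
  rw [Polynomial.eval₂_comp]
  simpa using h

end

end W_bec7e1
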