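import Mathlib
import Pool.Agent.W_bec7e1.RatLift

/-!
# The field `L = C₀(T, x, g, Y)` and its two commuting involutions
-/

namespace W_bec7e1

noncomputable section

/-! ### Formulas valid in every field -/

section formulas

variable {K : Type} [Field K]

/-- `A = (T + 1/T)/2` -/
def fA (T : K) : K := (T + T⁻¹) / 2
/-- `B = (T - 1/T)/(2i)` -/
def fB (i T : K) : K := (T - T⁻¹) / (2 * i)
/-- The norm of `β`. -/
def fNβ (x g A : K) : K :=
  ((x + A) ^ 2 - 2 * g * (A + 1)) * ((x - A) ^ 2 + 2 * g * (A - 1))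
/-- The norm of `γ`. -/
def fNγ (i x g B : K) : K :=
  ((x + B) ^ 2 - 2 * i * g * (B - 1)) * ((x - B) ^ 2 + 2 * i * g * (B + 1))
/-- `n = N(γ)/N(β)`. -/
def fn (i T x g : K) : K := fNγ i x g (fB i T) / fNβ x g (fA T)

theorem map_fA {E : Type} [Field E] (f : K →+* E) (T : K) : f (fA T) = fA (f T) := by
  simp [fA, map_ofNat f 2]
theorem map_fB {E : Type} [Field E] (f : K →+* E) (i T : K) : f (fB i T) = fB (f i) (f T) := by
  simp [fB, map_ofNat f 2]
theorem map_fNβ {E : Type} [Field E] (f : K →+* E) (x g A : K) :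
    f (fNβ x g A) = fNβ (f x) (f g) (f A) := by
  simp [fNβ, map_ofNat f 2]
theorem map_fNγ {E : Type} [Field E] (f : K →+* E) (i x g B : K) :
    f (fNγ i x g B) = fNγ (f i) (f x) (f g) (f B) := by
  simp [fNγ, map_ofNat f 2]
theorem map_fn {E : Type} [Field E] (f : K →+* E) (i T x g : K) :
    f (fn i T x g) = fn (f i) (f T) (f x) (f g) := by
  simp [fn, map_fNγ, map_fNβ, map_fA, map_fB]

theorem fA_neg (T : K) : fA (-T) = -fA T := by
  simp only [fA, inv_neg]; rw [← neg_div]; congr 1; ring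
theorem fA_inv (T : K) : fA T⁻¹ = fA T := by simp [fA, add_comm]
theorem fB_neg (i T : K) : fB i (-T) = -fB i T := by
  simp only [fB, inv_neg]; rw [← neg_div]; congr 1; ring
theorem fB_inv (i T : K) : fB i T⁻¹ = -fB i T := by
  simp only [fB, inv_inv]; rw [← neg_div]; congr 1; ring
theorem fNβ_neg (x g A : K) : fNβ x g (-A) = fNβ x g A := by simp only [fNβ]; ring
theorem fNγ_neg (i x g B : K) : fNγ i x g (-B) = fNγ i x g B := by simp only [fNγ]; ring
theorem fn_neg (i T x g : K) : fn i (-T) x g = fn i T x g := by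
  rw [fn, fB_neg, fA_neg, fNγ_neg, fNβ_neg, fn]
theorem fn_inv (i T x g : K) : fn i T⁻¹ x g = fn i T x g := by
  rw [fn, fB_inv, fA_inv, fNγ_neg, fn]

theorem fA_sq_add_fB_sq [CharZero K] {i T : K} (hi : i * i = -1) (hT : T ≠ 0) :
    fA T ^ 2 + fB i T ^ 2 = 1 := by
  have hi0 : i ≠ 0 := by rintro rfl; simp at hi
  have hi2 : i ^ 2 = -1 := by rw [sq]; exact hi
  rw [fA, fB]
  field_simp
  rw [hi2]
  ring

theorem fA_ne_zero [CharZero K] {T : K} (hT : T ≠ 0) (h4 : T ^ 4 ≠ 1) : fA T ≠ 0 := by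
  intro h
  apply h4
  rw [fA] at h
  have h2 : T + T⁻¹ = 0 := by
    rcases div_eq_zero_iff.1 h with h | h
    · exact h
    · exact absurd h two_ne_zero
  have h3 : T ^ 2 = -1 := by
    field_simp at h2
    linear_combination h2
  linear_combination (T ^ 2 - 1) * h3

theorem fB_ne_zero [CharZero K] {i T : K} (hi : i * i = -1) (hT : T ≠ 0) (h4 : T ^ 4 ≠ 1) :
    fB i T ≠ 0 := by
  intro h
  apply h4
  have hi0 : i ≠ 0 := by rintro rfl; simp at hi
  rw [fB] at h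
  have h2 : T - T⁻¹ = 0 := by
    rcases div_eq_zero_iff.1 h with h | h
    · exact h
    · exact absurd h (mul_ne_zero two_ne_zero hi0)
  have h3 : T ^ 2 = 1 := by
    field_simp at h2
    linear_combination h2
  linear_combination (T ^ 2 + 1) * h3

end formulas

/-! ### The tower -/

variable (C₀ : Type) [Field C₀]

/-- `C₀(T)` -/
abbrev K1 : Type := RatFunc C₀
/-- `C₀(T)(x)` -/
abbrev K2 : Type := RatFunc (K1 C₀)
/-- `C₀(T)(x)(g)` -/
abbrev K3 : Type := RatFunc (K2 C₀)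
/-- `C₀(T)(x)(g)(Y)` -/
abbrev K4 : Type := RatFunc (K3 C₀)
/-- `C₀(T)(x)(y)`, the residue field of `K4` at `g = 0` and at `g = ∞` -/
abbrev K5 : Type := RatFunc (K2 C₀)
/-- `C₀(T)(y)` -/
abbrev K6 : Type := RatFunc (K1 C₀)

variable {C₀}

instance instFieldK1 : Field (K1 C₀) := RatFunc.instField C₀
instance instDomainK1 : IsDomain (K1 C₀) := inferInstance
instance instFieldK2 : Field (K2 C₀) := RatFunc.instField (K1 C₀)
instance instDomainK2 : IsDomain (K2 C₀) := inferInstance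
instance instFieldK3 : Field (K3 C₀) := RatFunc.instField (K2 C₀)
instance instDomainK3 : IsDomain (K3 C₀) := inferInstance
instance instFieldK4 : Field (K4 C₀) := RatFunc.instField (K3 C₀)
instance instDomainK4 : IsDomain (K4 C₀) := inferInstance

/-- `T ↦ -T` -/
def τ1 : K1 C₀ →+* K1 C₀ := autMul (RingHom.id C₀) (-1) (neg_ne_zero.2 one_ne_zero)
/-- `T ↦ 1/T` -/
def ς1 : K1 C₀ →+* K1 C₀ := autDiv (RingHom.id C₀) 1 one_ne_zero
def τ2 : K2 C₀ →+* K2 C₀ := autMul τ1 1 one_ne_zero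
def ς2 : K2 C₀ →+* K2 C₀ := autMul ς1 1 one_ne_zero
def τ3 : K3 C₀ →+* K3 C₀ := autMul τ2 1 one_ne_zero
def ς3 : K3 C₀ →+* K3 C₀ := autMul ς2 1 one_ne_zero

/-- `T` in `K1` -/
def T1 : K1 C₀ := RatFunc.X
/-- `T` in `K3` -/
def T3 : K3 C₀ := RatFunc.C (RatFunc.C T1)
/-- `x` in `K3` -/
def x3 : K3 C₀ := RatFunc.C RatFunc.X
/-- `g` in `K3` -/
def g3 : K3 C₀ := RatFunc.X
/-- the element `n` of `K3` -/
def n3 (i : C₀) : K3 C₀ := fn (RatFunc.C (RatFunc.C (RatFunc.C i))) T3 x3 g3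

/-- The involution `τ` of `K4`: `T ↦ -T`, `x`, `g`, `Y` fixed. -/
def τ4 : K4 C₀ →+* K4 C₀ := autMul τ3 1 one_ne_zero

theorem T1_ne_zero : (T1 : K1 C₀) ≠ 0 := RatFunc.X_ne_zero

theorem τ1_T1 : τ1 (T1 : K1 C₀) = -T1 := by
  rw [τ1, T1, autMul_X]; simp
theorem ς1_T1 : ς1 (T1 : K1 C₀) = T1⁻¹ := by
  rw [ς1, T1, autDiv_X]; simp
theorem τ1_C (a : C₀) : τ1 (RatFunc.C a : K1 C₀) = RatFunc.C a := autMul_C _ _ _ _
theorem ς1_C (a : C₀) : ς1 (RatFunc.C a : K1 C₀) = RatFunc.C a := autDiv_C _ _ _ _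

theorem T1_pow : (T1 : K1 C₀) ^ 4 ≠ 1 := by
  intro h
  apply RatFunc.transcendental_X (K := C₀)
  refine ⟨Polynomial.X ^ 4 - 1, ?_, ?_⟩
  · intro h0
    have := congrArg (fun p : Polynomial C₀ => p.coeff 4) h0
    simp [Polynomial.coeff_one] at this
  · simp only [map_sub, map_pow, Polynomial.aeval_X, map_one]
    rw [sub_eq_zero]
    exact h

theorem lin_ne_zero {K : Type} [Field K] {a b : K} (h : a ≠ 0 ∨ b ≠ 0) :
    (RatFunc.C a + RatFunc.C b * RatFunc.X : RatFunc K) ≠ 0 := by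
  intro h0
  have h1 := (transcendental_iff.1 (RatFunc.transcendental_X (K := K)))
    (Polynomial.C a + Polynomial.C b * Polynomial.X) (by
      simp only [map_add, map_mul, Polynomial.aeval_C, Polynomial.aeval_X,
        RatFunc.algebraMap_eq_C]
      exact h0)
  have h2 := congrArg (fun p : Polynomial K => p.coeff 0) h1
  have h3 := congrArg (fun p : Polynomial K => p.coeff 1) h1
  simp at h2 h3
  simp [h2, h3] at h

theorem fNβ_ne_zero {K : Type} [Field K] (A : K) :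
    fNβ (RatFunc.C (RatFunc.X : RatFunc K)) (RatFunc.X : RatFunc (RatFunc K))
      (RatFunc.C (RatFunc.C A)) ≠ 0 := by
  have h1 : (RatFunc.X + RatFunc.C A : RatFunc K) ≠ 0 := by
    have := lin_ne_zero (K := K) (a := A) (b := 1) (Or.inr one_ne_zero)
    rwa [map_one, one_mul, add_comm] at this
  have h2 : (RatFunc.X - RatFunc.C A : RatFunc K) ≠ 0 := by
    have := lin_ne_zero (K := K) (a := -A) (b := 1) (Or.inr one_ne_zero)
    rwa [map_one, one_mul, add_comm, map_neg, ← sub_eq_add_neg] at this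
  have h3 := lin_ne_zero (K := RatFunc K) (a := (RatFunc.X + RatFunc.C A) ^ 2)
    (b := -(2 * (RatFunc.C A + 1))) (Or.inl (pow_ne_zero 2 h1))
  have h4 := lin_ne_zero (K := RatFunc K) (a := (RatFunc.X - RatFunc.C A) ^ 2)
    (b := 2 * (RatFunc.C A - 1)) (Or.inl (pow_ne_zero 2 h2))
  have h5 := mul_ne_zero h3 h4
  intro h6
  apply h5
  rw [← h6, fNβ]
  simp only [map_add, map_sub, map_mul, map_pow, map_neg, map_one, map_ofNat]
  ring

theorem fNγ_ne_zero {K : Type} [Field K] (i B : K) :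
    fNγ (RatFunc.C (RatFunc.C i)) (RatFunc.C (RatFunc.X : RatFunc K))
      (RatFunc.X : RatFunc (RatFunc K)) (RatFunc.C (RatFunc.C B)) ≠ 0 := by
  have h1 : (RatFunc.X + RatFunc.C B : RatFunc K) ≠ 0 := by
    have := lin_ne_zero (K := K) (a := B) (b := 1) (Or.inr one_ne_zero)
    rwa [map_one, one_mul, add_comm] at this
  have h2 : (RatFunc.X - RatFunc.C B : RatFunc K) ≠ 0 := by
    have := lin_ne_zero (K := K) (a := -B) (b := 1) (Or.inr one_ne_zero)
    rwa [map_one, one_mul, add_comm, map_neg, ← sub_eq_add_neg] at this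
  have h3 := lin_ne_zero (K := RatFunc K) (a := (RatFunc.X + RatFunc.C B) ^ 2)
    (b := -(2 * RatFunc.C i * (RatFunc.C B - 1))) (Or.inl (pow_ne_zero 2 h1))
  have h4 := lin_ne_zero (K := RatFunc K) (a := (RatFunc.X - RatFunc.C B) ^ 2)
    (b := 2 * RatFunc.C i * (RatFunc.C B + 1)) (Or.inl (pow_ne_zero 2 h2))
  have h5 := mul_ne_zero h3 h4
  intro h6
  apply h5
  rw [← h6, fNγ]
  simp only [map_add, map_sub, map_mul, map_pow, map_neg, map_one, map_ofNat]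
  ring

theorem n3_ne_zero (i : C₀) : n3 i ≠ 0 := by
  have h1 := fNβ_ne_zero (fA (T1 : K1 C₀))
  have h2 := fNγ_ne_zero (RatFunc.C i : K1 C₀) (fB (RatFunc.C i) (T1 : K1 C₀))
  rw [map_fA, map_fA] at h1
  rw [map_fB, map_fB] at h2
  exact div_ne_zero h2 h1

/-- The involution `ς` of `K4`: `T ↦ 1/T`, `x`, `g` fixed, `Y ↦ n/Y`. -/
def ς4 (i : C₀) : K4 C₀ →+* K4 C₀ := autDiv ς3 (n3 i) (n3_ne_zero i)

theorem τ2_C (a : K1 C₀) : τ2 (RatFunc.C a) = RatFunc.C (τ1 a) := autMul_C _ _ _ _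
theorem ς2_C (a : K1 C₀) : ς2 (RatFunc.C a) = RatFunc.C (ς1 a) := autMul_C _ _ _ _
theorem τ3_C (a : K2 C₀) : τ3 (RatFunc.C a) = RatFunc.C (τ2 a) := autMul_C _ _ _ _
theorem ς3_C (a : K2 C₀) : ς3 (RatFunc.C a) = RatFunc.C (ς2 a) := autMul_C _ _ _ _
theorem τ4_C (a : K3 C₀) : τ4 (RatFunc.C a) = RatFunc.C (τ3 a) := autMul_C _ _ _ _
theorem ς4_C (i : C₀) (a : K3 C₀) : ς4 i (RatFunc.C a) = RatFunc.C (ς3 a) := autDiv_C _ _ _ _

theorem τ2_X : τ2 (RatFunc.X : K2 C₀) = RatFunc.X := by rw [τ2, autMul_X]; simp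
theorem ς2_X : ς2 (RatFunc.X : K2 C₀) = RatFunc.X := by rw [ς2, autMul_X]; simp
theorem τ3_X : τ3 (RatFunc.X : K3 C₀) = RatFunc.X := by rw [τ3, autMul_X]; simp
theorem ς3_X : ς3 (RatFunc.X : K3 C₀) = RatFunc.X := by rw [ς3, autMul_X]; simp
theorem τ4_X : τ4 (RatFunc.X : K4 C₀) = RatFunc.X := by rw [τ4, autMul_X]; simp
theorem ς4_X (i : C₀) : ς4 i (RatFunc.X : K4 C₀) = RatFunc.C (n3 i) / RatFunc.X := autDiv_X _ _ _

theorem τ3_n3 (i : C₀) : τ3 (n3 i) = n3 i := by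
  rw [n3, map_fn, T3, x3, g3, τ3_X, τ3_C, τ3_C, τ3_C, τ2_C, τ2_C, τ2_X, τ1_C, τ1_T1, map_neg,
    map_neg, fn_neg]

theorem ς3_n3 (i : C₀) : ς3 (n3 i) = n3 i := by
  rw [n3, map_fn, T3, x3, g3, ς3_X, ς3_C, ς3_C, ς3_C, ς2_C, ς2_C, ς2_X, ς1_C, ς1_T1, map_inv₀,
    map_inv₀, fn_inv]

/-! The relations between the involutions. -/

theorem τ1_τ1 (a : K1 C₀) : τ1 (τ1 a) = a := by
  have : (τ1.comp τ1 : K1 C₀ →+* K1 C₀) = RingHom.id _ := by
    apply ratFunc_ext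
    · intro a; simp [τ1]
    · simp [τ1]
  exact RingHom.congr_fun this a

theorem ς1_ς1 (a : K1 C₀) : ς1 (ς1 a) = a := by
  have : (ς1.comp ς1 : K1 C₀ →+* K1 C₀) = RingHom.id _ := by
    apply ratFunc_ext
    · intro a; simp [ς1]
    · simp [ς1]
  exact RingHom.congr_fun this a

theorem τ1_ς1 (a : K1 C₀) : τ1 (ς1 a) = ς1 (τ1 a) := by
  have : (τ1.comp ς1 : K1 C₀ →+* K1 C₀) = ς1.comp τ1 := by
    apply ratFunc_ext
    · intro a; simp [ς1, τ1]
    · simp [ς1, τ1]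
  exact RingHom.congr_fun this a

/-- lifting the three relations to `K(X)` when `X` is fixed -/
theorem lift_invol {K : Type} [Field K] {α : K →+* K} (h : ∀ a, α (α a) = a) (a : RatFunc K) :
    autMul α 1 one_ne_zero (autMul α 1 one_ne_zero a) = a := by
  have : ((autMul α 1 one_ne_zero).comp (autMul α 1 one_ne_zero)) = RingHom.id (RatFunc K) := by
    apply ratFunc_ext
    · intro a; simp [h]
    · simp
  exact RingHom.congr_fun this a

theorem lift_comm {K : Type} [Field K] {α α' : K →+* K} (h : ∀ a, α (α' a) = α' (α a))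
    (a : RatFunc K) :
    autMul α 1 one_ne_zero (autMul α' 1 one_ne_zero a) =
      autMul α' 1 one_ne_zero (autMul α 1 one_ne_zero a) := by
  have : ((autMul α 1 one_ne_zero).comp (autMul α' 1 one_ne_zero)) =
      (autMul α' 1 one_ne_zero).comp (autMul α 1 one_ne_zero) := by
    apply ratFunc_ext
    · intro a; simp [h]
    · simp
  exact RingHom.congr_fun this a

theorem τ2_τ2 (a : K2 C₀) : τ2 (τ2 a) = a := lift_invol τ1_τ1 a
theorem ς2_ς2 (a : K2 C₀) : ς2 (ς2 a) = a := lift_invol ς1_ς1 a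
theorem τ2_ς2 (a : K2 C₀) : τ2 (ς2 a) = ς2 (τ2 a) := lift_comm τ1_ς1 a
theorem τ3_τ3 (a : K3 C₀) : τ3 (τ3 a) = a := lift_invol τ2_τ2 a
theorem ς3_ς3 (a : K3 C₀) : ς3 (ς3 a) = a := lift_invol ς2_ς2 a
theorem τ3_ς3 (a : K3 C₀) : τ3 (ς3 a) = ς3 (τ3 a) := lift_comm τ2_ς2 a
theorem τ4_τ4 (a : K4 C₀) : τ4 (τ4 a) = a := lift_invol τ3_τ3 a

theorem ς4_ς4 (i : C₀) (a : K4 C₀) : ς4 i (ς4 i a) = a := by
  have : ((ς4 i).comp (ς4 i) : K4 C₀ →+* K4 C₀) = RingHom.id _ := by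
    apply ratFunc_ext
    · intro a
      simp only [RingHom.comp_apply, ς4_C, ς3_ς3, RingHom.id_apply]
    · simp only [RingHom.comp_apply, ς4_X, RingHom.id_apply]
      rw [map_div₀, ς4_C, ς4_X, ς3_n3]
      have h : (RatFunc.C (n3 i) : K4 C₀) ≠ 0 := (map_ne_zero _).2 (n3_ne_zero i)
      have hX : (RatFunc.X : K4 C₀) ≠ 0 := RatFunc.X_ne_zero
      field_simp
  exact RingHom.congr_fun this a

theorem τ4_ς4 (i : C₀) (a : K4 C₀) : τ4 (ς4 i a) = ς4 i (τ4 a) := by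
  have : (τ4.comp (ς4 i) : K4 C₀ →+* K4 C₀) = (ς4 i).comp τ4 := by
    apply ratFunc_ext
    · intro a
      simp only [RingHom.comp_apply, ς4_C, τ4_C, τ3_ς3]
    · simp only [RingHom.comp_apply, ς4_X, τ4_X]
      rw [map_div₀, τ4_C, τ4_X, τ3_n3]
  exact RingHom.congr_fun this a

end

end W_bec7e1
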