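import Mathlib
import Pool.Agent.W_bec7e1.Tower
import Pool.Agent.W_bec7e1.LeadTerm
import Pool.Agent.W_bec7e1.Sqrt
import Pool.Agent.W_bec7e1.Parity

/-!
# Involutions on the residue fields
-/

namespace W_bec7e1

noncomputable section

variable {C₀ : Type} [Field C₀]

instance instFieldK5 : Field (K5 C₀) := RatFunc.instField (K2 C₀)
instance instFieldK6 : Field (K6 C₀) := RatFunc.instField (K1 C₀)

/-- `A` in `K1`. -/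
def A1 : K1 C₀ := fA T1
/-- `B` in `K1`. -/
def B1 (i : C₀) : K1 C₀ := fB (RatFunc.C i) T1

theorem τ1_A1 : τ1 (A1 : K1 C₀) = -A1 := by rw [A1, map_fA, τ1_T1, fA_neg]
theorem ς1_A1 : ς1 (A1 : K1 C₀) = A1 := by rw [A1, map_fA, ς1_T1, fA_inv]
theorem τ1_B1 (i : C₀) : τ1 (B1 i) = -B1 i := by rw [B1, map_fB, τ1_T1, τ1_C, fB_neg]
theorem ς1_B1 (i : C₀) : ς1 (B1 i) = -B1 i := by rw [B1, map_fB, ς1_T1, ς1_C, fB_inv]

theorem C_i_sq {i : C₀} (hi : i * i = -1) : (RatFunc.C i : K1 C₀) * RatFunc.C i = -1 := by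
  rw [← map_mul, hi]; simp

theorem A1_ne_zero [CharZero C₀] : (A1 : K1 C₀) ≠ 0 :=
  haveI : CharZero (K1 C₀) := charZero_of_injective_ringHom (RatFunc.C (K := C₀)).injective
  fA_ne_zero T1_ne_zero T1_pow
theorem B1_ne_zero [CharZero C₀] {i : C₀} (hi : i * i = -1) : B1 i ≠ 0 :=
  haveI : CharZero (K1 C₀) := charZero_of_injective_ringHom (RatFunc.C (K := C₀)).injective
  fB_ne_zero (C_i_sq hi) T1_ne_zero T1_pow

/-- `y` fixed. -/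
def τ5 : K5 C₀ →+* K5 C₀ := autMul τ2 1 one_ne_zero
/-- `y ↦ 1/y`. -/
def ς5 : K5 C₀ →+* K5 C₀ := autDiv ς2 1 one_ne_zero
/-- `T ↦ 1/T`, `y ↦ 1/y`. -/
def ς6 : K6 C₀ →+* K6 C₀ := autDiv ς1 1 one_ne_zero
/-- `T ↦ -1/T`, `y ↦ 1/y`. -/
def τς6 : K6 C₀ →+* K6 C₀ := autDiv (τ1.comp ς1) 1 one_ne_zero

/-- `ν₀ = (x² - B²)/(x² - A²)`. -/
def ν0 (i : C₀) : K2 C₀ :=
  (RatFunc.X ^ 2 - RatFunc.C (B1 i) ^ 2) / (RatFunc.X ^ 2 - RatFunc.C A1 ^ 2)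

/-- `n̄ = -A²/B²`. -/
def nbar (i : C₀) : K1 C₀ := -(A1 / B1 i) ^ 2

theorem nbar_ne_zero [CharZero C₀] {i : C₀} (hi : i * i = -1) : nbar i ≠ 0 :=
  neg_ne_zero.2 (pow_ne_zero 2 (div_ne_zero A1_ne_zero (B1_ne_zero hi)))

theorem C_nbar_ne_zero [CharZero C₀] {i : C₀} (hi : i * i = -1) :
    (RatFunc.C (nbar i) : K2 C₀) ≠ 0 := (map_ne_zero _).2 (nbar_ne_zero hi)

/-- `Y ↦ n̄/Y`. -/
def ς5' [CharZero C₀] {i : C₀} (hi : i * i = -1) : K5 C₀ →+* K5 C₀ :=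
  autDiv ς2 (RatFunc.C (nbar i)) (C_nbar_ne_zero hi)

/-- the constants `K1 → K4` -/
def c14 : K1 C₀ →+* K4 C₀ := (RatFunc.C (K := K3 C₀)).comp
  ((RatFunc.C (K := K2 C₀)).comp (RatFunc.C (K := K1 C₀)))
/-- the constants `K1 → K5` -/
def c15 : K1 C₀ →+* K5 C₀ := (RatFunc.C (K := K2 C₀)).comp (RatFunc.C (K := K1 C₀))

/-- `g` in `K4` -/
def g4 : K4 C₀ := RatFunc.C RatFunc.X
/-- `Y` in `K4` -/
def Y4 : K4 C₀ := RatFunc.X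
/-- `θ = g T` in `K4` -/
def θ4 : K4 C₀ := g4 * c14 T1

end

end W_bec7e1
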