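import Mathlib
import Pool.Agent.W_bec7e1.EmbDefs

/-!
# The places `x = A`, `x = B` and `y = 0` of `C₀(T)(x)(y)`
-/

namespace W_bec7e1

open HahnSeries

variable {C₀ : Type} [Field C₀] [CharZero C₀] {i : C₀}

omit [CharZero C₀] in
theorem EmbPsi_T1_pow : (T1 : K1 C₀) ^ 4 ≠ -1 := by
  intro h
  apply RatFunc.transcendental_X (K := C₀)
  refine ⟨Polynomial.X ^ 4 + 1, ?_, ?_⟩
  · intro h0
    have := congrArg (fun p : Polynomial C₀ => p.coeff 4) h0
    simp [Polynomial.coeff_one] at this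
  · simp only [map_add, map_pow, Polynomial.aeval_X, map_one]
    have h2 : (RatFunc.X : RatFunc C₀) ^ 4 = -1 := h
    rw [h2]
    ring

theorem EmbPsi_two : (2 : K1 C₀) ≠ 0 :=
  haveI : CharZero (K1 C₀) := charZero_of_injective_ringHom (RatFunc.C (K := C₀)).injective
  two_ne_zero

theorem A1_sq_sub_B1_sq_ne_zero (hi : i * i = -1) : (A1 : K1 C₀) ^ 2 - B1 i ^ 2 ≠ 0 := by
  intro h
  apply EmbPsi_T1_pow (C₀ := C₀)
  have hT : (T1 : K1 C₀) ≠ 0 := T1_ne_zero
  have h2 : (2 : K1 C₀) ≠ 0 := EmbPsi_two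
  have hI := C_i_sq hi
  have hI0 : (RatFunc.C i : K1 C₀) ≠ 0 := by
    intro h0
    rw [h0] at hI
    simp at hI
  have hB : B1 i = -(RatFunc.C i) * (T1 - T1⁻¹) / 2 := by
    rw [B1, fB, div_eq_div_iff (mul_ne_zero h2 hI0) h2]
    linear_combination ((T1 - T1⁻¹) * 2) * hI
  rw [hB, A1, fA] at h
  field_simp at h
  have h4 : (4 : K1 C₀) ≠ 0 := by
    have : (4 : K1 C₀) = 2 * 2 := by norm_num
    rw [this]
    exact mul_ne_zero h2 h2
  have h5 : (2 : K1 C₀) * (T1 ^ 4 + 1) = 0 := by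
    linear_combination h + (T1 ^ 2 - 1) ^ 2 * hI
  have h6 := (mul_eq_zero.1 h5).resolve_left h2
  linear_combination h6

omit [CharZero C₀] in
theorem EmbPsi_LT_div {K : Type} [Field K] {a b c : LaurentSeries K} {n m : ℤ} {x y : K}
    (h : b * a = c) (hb : LT b n x) (hc : LT c m y) : LT a (m - n) (y / x) := by
  have ha : a ≠ 0 := by
    rintro rfl
    rw [mul_zero] at h
    exact hc.ne_zero h.symm
  obtain ⟨k, e, hk⟩ := exists_LT ha
  have h1 := hb.mul hk
  rw [h] at h1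
  obtain ⟨h2, h3⟩ := h1.unique hc
  have h4 : m - n = k := by omega
  have hx : x ≠ 0 := hb.2.2
  have h5 : y / x = e := by
    rw [← h3]
    field_simp
  rw [h4, h5]
  exact hk

/-- `x ↦ a + z` -/
noncomputable def EmbPsi_phi {K : Type} [Field K] (a : K) : RatFunc K →+* LaurentSeries K :=
  ratLift ((HahnSeries.C : K →+* LaurentSeries K).comp (RingHom.id K))
    (((HahnSeries.C : K →+* LaurentSeries K).comp (RingHom.id K)) a + single 1 1)
    (trans_add (trans_single (RingHom.id K) 1 one_ne_zero) a)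

omit [CharZero C₀] in
theorem EmbPsi_phi_C {K : Type} [Field K] (a b : K) :
    EmbPsi_phi a (RatFunc.C b) = HahnSeries.C b := by
  rw [EmbPsi_phi, ratLift_C]
  rfl

omit [CharZero C₀] in
theorem EmbPsi_phi_X {K : Type} [Field K] (a : K) :
    EmbPsi_phi a RatFunc.X = HahnSeries.C a + single 1 1 := by
  rw [EmbPsi_phi, ratLift_X]
  rfl

omit [CharZero C₀] in
theorem EmbPsi_equiv {K : Type} [Field K] (a : K) (α : K →+* K) (ha : α a = a) (x : RatFunc K) :
    EmbPsi_phi a (autMul α 1 one_ne_zero x) = lmap α (EmbPsi_phi a x) := by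
  have : (EmbPsi_phi a).comp (autMul α 1 one_ne_zero) = (lmap α).comp (EmbPsi_phi a) := by
    apply ratFunc_ext
    · intro b
      rw [RingHom.comp_apply, RingHom.comp_apply, autMul_C, EmbPsi_phi_C, EmbPsi_phi_C, lmap_C]
    · rw [RingHom.comp_apply, RingHom.comp_apply, autMul_X, map_one, one_mul, EmbPsi_phi_X,
        map_add, lmap_C, lmap_single, ha, map_one α]
  exact RingHom.congr_fun this x

omit [CharZero C₀] in
/-- `(a + z)² - b² = (a² - b²) + 2 a z + z²` -/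
theorem EmbPsi_LT0 {K : Type} [Field K] (a b : K) (h : a ^ 2 - b ^ 2 ≠ 0) :
    LT ((HahnSeries.C a + single 1 1 : LaurentSeries K) ^ 2 - HahnSeries.C b ^ 2) 0
      (a ^ 2 - b ^ 2) := by
  have e : (HahnSeries.C a + single 1 1 : LaurentSeries K) ^ 2 - HahnSeries.C b ^ 2 =
      single 0 (a ^ 2 - b ^ 2) + single 1 (2 * a) + single 2 1 := by
    have e1 : (HahnSeries.C a + single 1 1 : LaurentSeries K) ^ 2 =
        HahnSeries.C a * HahnSeries.C a + (HahnSeries.C a * single 1 1 + HahnSeries.C a * single 1 1)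
          + single 1 1 * single 1 1 := by ring
    have e2 : (HahnSeries.C b : LaurentSeries K) ^ 2 = HahnSeries.C b * HahnSeries.C b := by ring
    have e3 : (single 1 (a + a) : LaurentSeries K) = single 1 a + single 1 a := by simp
    have e4 : (single 0 (a * a - b * b) : LaurentSeries K) = single 0 (a * a) - single 0 (b * b) := by
      simp
    rw [e1, e2]
    simp only [HahnSeries.C_apply, HahnSeries.single_mul_single]
    rw [two_mul, e3, pow_two a, pow_two b, e4]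
    norm_num
    ring
  rw [e]
  refine ⟨?_, ?_, h⟩
  · exact ((lge_single 0 _).add ((lge_single 1 _).mono (by norm_num))).add
      ((lge_single 2 _).mono (by norm_num))
  · simp

omit [CharZero C₀] in
/-- `(a + z)² - a² = 2 a z + z²` -/
theorem EmbPsi_LT1 {K : Type} [Field K] (a : K) (h : 2 * a ≠ 0) :
    LT ((HahnSeries.C a + single 1 1 : LaurentSeries K) ^ 2 - HahnSeries.C a ^ 2) 1 (2 * a) := by
  have e : (HahnSeries.C a + single 1 1 : LaurentSeries K) ^ 2 - HahnSeries.C a ^ 2 =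
      single 1 (2 * a) + single 2 1 := by
    have e1 : (HahnSeries.C a + single 1 1 : LaurentSeries K) ^ 2 - HahnSeries.C a ^ 2 =
        (HahnSeries.C a * single 1 1 + HahnSeries.C a * single 1 1)
          + single 1 1 * single 1 1 := by ring
    have e3 : (single 1 (a + a) : LaurentSeries K) = single 1 a + single 1 a := by simp
    rw [e1]
    simp only [HahnSeries.C_apply, HahnSeries.single_mul_single]
    rw [two_mul, e3]
    norm_num
  rw [e]
  refine ⟨?_, ?_, h⟩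
  · exact (lge_single 1 _).add ((lge_single 2 _).mono (by norm_num))
  · simp

omit [CharZero C₀] in
theorem EmbPsi_phi_ν0 (a : K1 C₀) (i : C₀)
    (h : (HahnSeries.C a + single 1 1 : LaurentSeries (K1 C₀)) ^ 2 - HahnSeries.C A1 ^ 2 ≠ 0) :
    ((HahnSeries.C a + single 1 1 : LaurentSeries (K1 C₀)) ^ 2 - HahnSeries.C A1 ^ 2) *
      EmbPsi_phi a (ν0 i) = (HahnSeries.C a + single 1 1) ^ 2 - HahnSeries.C (B1 i) ^ 2 := by
  rw [ν0, map_div₀, map_sub, map_sub, map_pow, map_pow, map_pow, EmbPsi_phi_X, EmbPsi_phi_C,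
    EmbPsi_phi_C, mul_div_cancel₀ _ h]

theorem EmbPsi_two_mul {a : K1 C₀} (ha : a ≠ 0) : 2 * a ≠ 0 := mul_ne_zero EmbPsi_two ha

/-- the place `x = A` -/
theorem exists_psiA (hi : i * i = -1) :
    ∃ E : K5 C₀ →+* LaurentSeries (K6 C₀),
      (∀ a : K1 C₀, E (c15 a) = HahnSeries.C (RatFunc.C a)) ∧
      (∀ a, E (ς5 a) = lmap ς6 (E a)) ∧
      LT (E (RatFunc.C (ν0 i) * RatFunc.X)) (-1)
        (RatFunc.C ((A1 ^ 2 - B1 i ^ 2) / (2 * A1)) * RatFunc.X) := by
  refine ⟨emb (EmbPsi_phi (A1 : K1 C₀)) 1 one_ne_zero, ?_, ?_, ?_⟩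
  · intro a
    rw [c15, RingHom.comp_apply, emb_C, EmbPsi_phi_C, lmap_C]
  · intro a
    refine emb_autDiv (EmbPsi_phi (A1 : K1 C₀)) 1 one_ne_zero ς2 ς1 1 one_ne_zero 1 one_ne_zero
      ?_ (map_one _) ?_ a
    · intro b
      exact EmbPsi_equiv (A1 : K1 C₀) ς1 ς1_A1 b
    · simp
  · have h1 : LT (EmbPsi_phi (A1 : K1 C₀) (ν0 i)) (0 - 1) ((A1 ^ 2 - B1 i ^ 2) / (2 * A1)) := by
      have hd := EmbPsi_LT1 (A1 : K1 C₀) (EmbPsi_two_mul A1_ne_zero)
      exact EmbPsi_LT_div (EmbPsi_phi_ν0 A1 i hd.ne_zero) hd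
        (EmbPsi_LT0 (A1 : K1 C₀) (B1 i) (A1_sq_sub_B1_sq_ne_zero hi))
    rw [map_mul, emb_C, emb_X, map_one, one_mul]
    have h2 := (h1.lmap (RatFunc.C (K := K1 C₀))).mul
      (LT_C (K := K6 C₀) (c := RatFunc.X) RatFunc.X_ne_zero)
    simpa using h2

/-- the place `x = B` -/
theorem exists_psiB (hi : i * i = -1) :
    ∃ E : K5 C₀ →+* LaurentSeries (K6 C₀),
      (∀ a : K1 C₀, E (c15 a) = HahnSeries.C (RatFunc.C a)) ∧
      (∀ a, E (τ5 (ς5 a)) = lmap τς6 (E a)) ∧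
      LT (E (RatFunc.C (ν0 i) * RatFunc.X)) 1
        (RatFunc.C (2 * B1 i / (B1 i ^ 2 - A1 ^ 2)) * RatFunc.X) := by
  refine ⟨emb (EmbPsi_phi (B1 i)) 1 one_ne_zero, ?_, ?_, ?_⟩
  · intro a
    rw [c15, RingHom.comp_apply, emb_C, EmbPsi_phi_C, lmap_C]
  · intro a
    have h0 : τ5 (ς5 a) = autDiv (τ2.comp ς2 : K2 C₀ →+* K2 C₀) 1 one_ne_zero a := by
      have : (τ5.comp ς5 : K5 C₀ →+* K5 C₀) =
          autDiv (τ2.comp ς2 : K2 C₀ →+* K2 C₀) 1 one_ne_zero := by
        apply ratFunc_ext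
        · intro b
          simp [τ5, ς5]
        · simp [τ5, ς5]
      exact RingHom.congr_fun this a
    rw [h0]
    refine emb_autDiv (EmbPsi_phi (B1 i)) 1 one_ne_zero (τ2.comp ς2) (τ1.comp ς1) 1 one_ne_zero 1
      one_ne_zero ?_ (map_one _) ?_ a
    · intro b
      have h3 : (τ2.comp ς2 : K2 C₀ →+* K2 C₀) b =
          autMul (τ1.comp ς1 : K1 C₀ →+* K1 C₀) 1 one_ne_zero b := by
        have : (τ2.comp ς2 : K2 C₀ →+* K2 C₀) =
            autMul (τ1.comp ς1 : K1 C₀ →+* K1 C₀) 1 one_ne_zero := by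
          apply ratFunc_ext
          · intro c
            simp [τ2, ς2]
          · simp [τ2, ς2]
        rw [this]
      rw [h3]
      exact EmbPsi_equiv (B1 i) (τ1.comp ς1)
        (by rw [RingHom.comp_apply, ς1_B1, map_neg, τ1_B1, neg_neg]) b
    · simp
  · have h1 : LT (EmbPsi_phi (B1 i) (ν0 i)) (1 - 0) (2 * B1 i / (B1 i ^ 2 - A1 ^ 2)) := by
      have hne : B1 i ^ 2 - (A1 : K1 C₀) ^ 2 ≠ 0 := by
        rw [← neg_sub]
        exact neg_ne_zero.2 (A1_sq_sub_B1_sq_ne_zero hi)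
      have hd := EmbPsi_LT0 (B1 i) (A1 : K1 C₀) hne
      exact EmbPsi_LT_div (EmbPsi_phi_ν0 (B1 i) i hd.ne_zero) hd
        (EmbPsi_LT1 (B1 i) (EmbPsi_two_mul (B1_ne_zero hi)))
    rw [map_mul, emb_C, emb_X, map_one, one_mul]
    have h2 := (h1.lmap (RatFunc.C (K := K1 C₀))).mul
      (LT_C (K := K6 C₀) (c := RatFunc.X) RatFunc.X_ne_zero)
    simpa using h2

/-- `x ↦ z` -/
noncomputable def EmbPsi_chi (K : Type) [Field K] : RatFunc K →+* LaurentSeries K :=
  ratLift ((HahnSeries.C : K →+* LaurentSeries K).comp (RingHom.id K)) (single 1 1)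
    (trans_single (RingHom.id K) 1 one_ne_zero)

omit [CharZero C₀] in
theorem EmbPsi_chi_C {K : Type} [Field K] (b : K) :
    EmbPsi_chi K (RatFunc.C b) = HahnSeries.C b := by
  rw [EmbPsi_chi, ratLift_C]
  rfl

omit [CharZero C₀] in
theorem EmbPsi_chi_X {K : Type} [Field K] :
    EmbPsi_chi K RatFunc.X = single 1 1 := by
  rw [EmbPsi_chi, ratLift_X]

omit [CharZero C₀] in
theorem EmbPsi_chi_equiv {K : Type} [Field K] (α : K →+* K) (x : RatFunc K) :
    EmbPsi_chi K (autMul α 1 one_ne_zero x) = lmap α (EmbPsi_chi K x) := by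
  have : (EmbPsi_chi K).comp (autMul α 1 one_ne_zero) = (lmap α).comp (EmbPsi_chi K) := by
    apply ratFunc_ext
    · intro b
      rw [RingHom.comp_apply, RingHom.comp_apply, autMul_C, EmbPsi_chi_C, EmbPsi_chi_C, lmap_C]
    · rw [RingHom.comp_apply, RingHom.comp_apply, autMul_X, map_one, one_mul, EmbPsi_chi_X,
        lmap_single, map_one α]
  exact RingHom.congr_fun this x

/-- the place `y = 0` -/
theorem exists_chi : ∃ E : K5 C₀ →+* LaurentSeries (K2 C₀),
      (∀ a : K2 C₀, E (RatFunc.C a) = HahnSeries.C a) ∧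
      (∀ a, E (τ5 a) = lmap τ2 (E a)) ∧ E RatFunc.X = single 1 1 :=
  ⟨EmbPsi_chi (K2 C₀), fun a => EmbPsi_chi_C a, fun a => EmbPsi_chi_equiv τ2 a, EmbPsi_chi_X⟩

end W_bec7e1
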