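import Mathlib
import Pool.Agent.W_bec7e1.EmbDefs

/-!
# The embedding of `L` at `g = 0`
-/

namespace W_bec7e1

open HahnSeries

namespace EmbU0

theorem LT_add_small {K : Type} [Field K] {c : K} (hc : c ≠ 0) {s : LaurentSeries K}
    (hs : lge 1 s) : LT (HahnSeries.C c + s) 0 c := by
  refine ⟨(lge_single 0 c).add (hs.mono (by norm_num)), ?_, hc⟩
  rw [coeff_add, hs 0 (by norm_num), add_zero, HahnSeries.C_apply, coeff_single_same]

theorem LT_fNβ {K : Type} [Field K] (x A : K) (h1 : x + A ≠ 0) (h2 : x - A ≠ 0) :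
    LT (fNβ (HahnSeries.C x : LaurentSeries K) (single 1 1) (HahnSeries.C A)) 0
      ((x + A) ^ 2 * (x - A) ^ 2) := by
  have e1 : (HahnSeries.C x + HahnSeries.C A) ^ 2 - 2 * single 1 1 * (HahnSeries.C A + 1) =
      (HahnSeries.C ((x + A) ^ 2) + single 1 1 * HahnSeries.C (-(2 * (A + 1))) :
        LaurentSeries K) := by
    simp only [map_add, map_pow, map_neg, map_mul, map_ofNat, map_one]; ring
  have e2 : (HahnSeries.C x - HahnSeries.C A) ^ 2 + 2 * single 1 1 * (HahnSeries.C A - 1) =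
      (HahnSeries.C ((x - A) ^ 2) + single 1 1 * HahnSeries.C (2 * (A - 1)) :
        LaurentSeries K) := by
    simp only [map_sub, map_pow, map_mul, map_ofNat, map_one]; ring
  have hs : ∀ c : K, lge 1 (single 1 1 * HahnSeries.C c : LaurentSeries K) := by
    intro c
    have := (lge_single (R := K) 1 1).mul (lge_single 0 c)
    simpa using this
  rw [fNβ, e1, e2]
  have := (LT_add_small (pow_ne_zero 2 h1) (hs (-(2 * (A + 1))))).mul
    (LT_add_small (pow_ne_zero 2 h2) (hs (2 * (A - 1))))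
  simpa using this

theorem LT_fNγ {K : Type} [Field K] (i x B : K) (h1 : x + B ≠ 0) (h2 : x - B ≠ 0) :
    LT (fNγ (HahnSeries.C i : LaurentSeries K) (HahnSeries.C x) (single 1 1) (HahnSeries.C B)) 0
      ((x + B) ^ 2 * (x - B) ^ 2) := by
  have e1 : (HahnSeries.C x + HahnSeries.C B) ^ 2 -
      2 * HahnSeries.C i * single 1 1 * (HahnSeries.C B - 1) =
      (HahnSeries.C ((x + B) ^ 2) + single 1 1 * HahnSeries.C (-(2 * i * (B - 1))) :
        LaurentSeries K) := by
    simp only [map_add, map_sub, map_pow, map_neg, map_mul, map_ofNat, map_one]; ring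
  have e2 : (HahnSeries.C x - HahnSeries.C B) ^ 2 +
      2 * HahnSeries.C i * single 1 1 * (HahnSeries.C B + 1) =
      (HahnSeries.C ((x - B) ^ 2) + single 1 1 * HahnSeries.C (2 * i * (B + 1)) :
        LaurentSeries K) := by
    simp only [map_add, map_sub, map_pow, map_mul, map_ofNat, map_one]; ring
  have hs : ∀ c : K, lge 1 (single 1 1 * HahnSeries.C c : LaurentSeries K) := by
    intro c
    have := (lge_single (R := K) 1 1).mul (lge_single 0 c)
    simpa using this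
  rw [fNγ, e1, e2]
  have := (LT_add_small (pow_ne_zero 2 h1) (hs (-(2 * i * (B - 1))))).mul
    (LT_add_small (pow_ne_zero 2 h2) (hs (2 * i * (B + 1))))
  simpa using this

theorem LT_div {K : Type} [Field K] {a b : LaurentSeries K} {c e : K} (ha : LT a 0 c)
    (hb : LT b 0 e) : LT (a / b) 0 (c / e) := by
  have hb0 := hb.ne_zero
  have hab : a / b ≠ 0 := div_ne_zero ha.ne_zero hb0
  obtain ⟨n, d, hd⟩ := exists_LT hab
  have h1 := hd.mul hb
  rw [div_mul_cancel₀ a hb0] at h1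
  obtain ⟨h2, h3⟩ := h1.unique ha
  have hn : n = 0 := by omega
  have he : e ≠ 0 := hb.2.2
  have hd' : d = c / e := by rw [eq_div_iff he, h3]
  rw [hn, hd'] at hd
  exact hd

theorem X_add_C_ne_zero {K : Type} [Field K] (a : K) :
    (RatFunc.X + RatFunc.C a : RatFunc K) ≠ 0 := by
  have := lin_ne_zero (K := K) (a := a) (b := 1) (Or.inr one_ne_zero)
  rwa [map_one, one_mul, add_comm] at this

theorem X_sub_C_ne_zero {K : Type} [Field K] (a : K) :
    (RatFunc.X - RatFunc.C a : RatFunc K) ≠ 0 := by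
  have := X_add_C_ne_zero (-a)
  rwa [map_neg, ← sub_eq_add_neg] at this

end EmbU0

open EmbU0

theorem exists_embU0 {C₀ : Type} [Field C₀] [CharZero C₀] {i : C₀} (hi : i * i = -1) :
    ∃ E : K4 C₀ →+* LaurentSeries (K5 C₀),
      (∀ a : K1 C₀, E (c14 a) = HahnSeries.C (c15 a)) ∧
      E g4 = single 1 1 ∧
      (∀ a, E (τ4 a) = lmap τ5 (E a)) ∧
      (∀ a, E (ς4 i a) = lmap ς5 (E a)) ∧
      LT (E Y4) 0 (RatFunc.C (ν0 i) * RatFunc.X) := by
  haveI : CharZero (K1 C₀) := charZero_of_injective_ringHom (RatFunc.C (K := C₀)).injective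
  haveI : CharZero (K2 C₀) := charZero_of_injective_ringHom (RatFunc.C (K := K1 C₀)).injective
  have htr : Trans (HahnSeries.C : K2 C₀ →+* LaurentSeries (K2 C₀)) (single 1 1) := by
    have := trans_single (RingHom.id (K2 C₀)) 1 one_ne_zero
    rwa [RingHom.comp_id] at this
  set φ : K3 C₀ →+* LaurentSeries (K2 C₀) := ratLift HahnSeries.C (single 1 1) htr with hφ
  have φC : ∀ a : K2 C₀, φ (RatFunc.C a) = HahnSeries.C a := fun a => ratLift_C _ _ _ _
  have φX : φ RatFunc.X = single 1 1 := ratLift_X _ _ _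
  have φτ : ∀ a, φ (τ3 a) = lmap τ2 (φ a) := by
    intro a
    have : φ.comp τ3 = (lmap τ2).comp φ := by
      apply ratFunc_ext
      · intro a
        rw [RingHom.comp_apply, RingHom.comp_apply, τ3_C, φC, φC, lmap_C]
      · rw [RingHom.comp_apply, RingHom.comp_apply, τ3_X, φX, lmap_single, RingHom.map_one]
    exact RingHom.congr_fun this a
  have φς : ∀ a, φ (ς3 a) = lmap ς2 (φ a) := by
    intro a
    have : φ.comp ς3 = (lmap ς2).comp φ := by
      apply ratFunc_ext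
      · intro a
        rw [RingHom.comp_apply, RingHom.comp_apply, ς3_C, φC, φC, lmap_C]
      · rw [RingHom.comp_apply, RingHom.comp_apply, ς3_X, φX, lmap_single, RingHom.map_one]
    exact RingHom.congr_fun this a
  have hA1 := X_add_C_ne_zero (A1 : K1 C₀)
  have hA2 := X_sub_C_ne_zero (A1 : K1 C₀)
  have hB1 := X_add_C_ne_zero (B1 i : K1 C₀)
  have hB2 := X_sub_C_ne_zero (B1 i : K1 C₀)
  have hf : LT (φ (n3 i)) 0 (ν0 i ^ 2) := by
    have e1 : φ (n3 i) =
        fNγ (HahnSeries.C (RatFunc.C (RatFunc.C i)) : LaurentSeries (K2 C₀))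
          (HahnSeries.C RatFunc.X) (single 1 1) (HahnSeries.C (RatFunc.C (B1 i))) /
        fNβ (HahnSeries.C RatFunc.X : LaurentSeries (K2 C₀)) (single 1 1)
          (HahnSeries.C (RatFunc.C A1)) := by
      rw [n3, map_fn, T3, x3, g3, φC, φC, φC, φX, fn, A1, B1, map_fA, map_fA, map_fB, map_fB]
    rw [e1]
    have e2 : (ν0 i) ^ 2 = ((RatFunc.X + RatFunc.C (B1 i)) ^ 2 *
        (RatFunc.X - RatFunc.C (B1 i)) ^ 2) / ((RatFunc.X + RatFunc.C A1) ^ 2 *
        (RatFunc.X - RatFunc.C A1) ^ 2) := by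
      rw [ν0, div_pow]
      congr 1 <;> ring
    rw [e2]
    exact LT_div (LT_fNγ _ _ _ hB1 hB2) (LT_fNβ _ _ hA1 hA2)
  have hν0 : ν0 i ≠ 0 := by
    intro h
    apply hf.2.2
    rw [h]; ring
  obtain ⟨ν, hν1, hν2, hν3⟩ := exists_sqrt (φ (n3 i)) (ν0 i) hν0 hf.1 hf.2.1
  have hνLT : LT ν 0 (ν0 i) := ⟨hν1, hν2, hν0⟩
  have hνne : ν ≠ 0 := hνLT.ne_zero
  have τν0 : τ2 (ν0 i) = ν0 i := by
    rw [ν0, map_div₀, map_sub, map_sub, map_pow, map_pow, map_pow, τ2_X, τ2_C, τ2_C, τ1_A1,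
      τ1_B1, map_neg, map_neg, neg_sq, neg_sq]
  have ςν0 : ς2 (ν0 i) = ν0 i := by
    rw [ν0, map_div₀, map_sub, map_sub, map_pow, map_pow, map_pow, ς2_X, ς2_C, ς2_C, ς1_A1,
      ς1_B1, map_neg, neg_sq]
  have τν : lmap τ2 ν = ν := by
    apply sqrt_unique _ _ _ hν0 (lge_lmap τ2 hν1) hν1 (by rw [lmap_coeff, hν2, τν0]) hν2
    rw [← map_pow, hν3, ← φτ, τ3_n3]
  have ςν : lmap ς2 ν = ν := by
    apply sqrt_unique _ _ _ hν0 (lge_lmap ς2 hν1) hν1 (by rw [lmap_coeff, hν2, ςν0]) hν2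
    rw [← map_pow, hν3, ← φς, ς3_n3]
  refine ⟨emb φ ν hνne, ?_, ?_, ?_, ?_, ?_⟩
  · intro a
    rw [c14, RingHom.comp_apply, RingHom.comp_apply, emb_C, φC, lmap_C, c15, RingHom.comp_apply]
  · rw [g4, emb_C, φX, lmap_single, RingHom.map_one]
  · intro a
    exact emb_autMul φ ν hνne τ3 τ2 φτ τν a
  · intro a
    exact emb_autDiv φ ν hνne ς3 ς2 (n3 i) (n3_ne_zero i) 1 one_ne_zero φς ςν
      (by rw [map_one, one_mul, hν3]) a
  · rw [Y4, emb_X]
    have := (hνLT.lmap (RatFunc.C (K := K2 C₀))).mul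
      (LT_C (K := K5 C₀) (c := RatFunc.X) RatFunc.X_ne_zero)
    simpa using this

end W_bec7e1
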