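import Mathlib
import Pool.Agent.W_bec7e1.EmbU0
import Pool.Agent.W_bec7e1.EmbPsi

/-!
# Anisotropy in `L`
-/

namespace W_bec7e1

variable {C₀ : Type} [Field C₀] [CharZero C₀] {i : C₀}

/-- An element of odd order at some place is not a square. -/
theorem NRfield0_aux {F K : Type} [Field F] [Field K] (E : F →+* LaurentSeries K) {f : F} {e : ℤ}
    {w : K} (hf : LT (E f) e w) (he : Odd e) (X Z : F) (h : X ^ 2 = f * Z ^ 2) :
    X = 0 ∧ Z = 0 := by
  have hZ : Z = 0 := by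
    by_contra hZ
    obtain ⟨q, z, hq⟩ := exists_LT ((map_ne_zero E).2 hZ)
    have h1 := hf.mul (hq.mul hq)
    have h2 : E f * (E Z * E Z) = E X * E X := by
      rw [← map_mul, ← map_mul, ← map_mul, ← sq, ← sq, h]
    rw [h2] at h1
    have hX : E X ≠ 0 := by
      intro h0
      rw [h0, mul_zero] at h1
      exact h1.ne_zero rfl
    obtain ⟨p, c, hp⟩ := exists_LT hX
    obtain ⟨h3, _⟩ := h1.unique (hp.mul hp)
    obtain ⟨k, rfl⟩ := he
    omega
  refine ⟨?_, hZ⟩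
  rw [hZ] at h
  simpa using h

/-- `ν₀ y` is not a square in `C₀(T)(x)(y)` -/
theorem nonsq0 (hi : i * i = -1) (X Z : K5 C₀)
    (h : X ^ 2 = RatFunc.C (ν0 i) * RatFunc.X * Z ^ 2) : X = 0 ∧ Z = 0 := by
  obtain ⟨E, _, _, h3⟩ := exists_psiA hi
  exact NRfield0_aux E h3 (by decide) X Z h

/-- `y` is not a square in `C₀(T)(x)(y)` -/
theorem nonsqinf (X Z : K5 C₀) (h : X ^ 2 = RatFunc.X * Z ^ 2) : X = 0 ∧ Z = 0 := by
  obtain ⟨E, _, _, h3⟩ := exists_chi (C₀ := C₀)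
  have h4 : LT (E RatFunc.X) 1 1 := by
    rw [h3]; exact LT_single 1 one_ne_zero
  exact NRfield0_aux E h4 (by decide) X Z h

/-- anisotropy of `<1, -θ, -Y, θY>` -/
theorem AN4 (hi : i * i = -1) (a b c d : K4 C₀)
    (h : a ^ 2 - θ4 * b ^ 2 - Y4 * (c ^ 2 - θ4 * d ^ 2) = 0) : a = 0 ∧ b = 0 ∧ c = 0 ∧ d = 0 := by
  obtain ⟨E, h1, h2, _, _, h5⟩ := exists_embU0 hi
  have hc : (c15 T1 : K5 C₀) ≠ 0 := (map_ne_zero _).2 T1_ne_zero
  have hΘ : LT (E θ4) 1 (c15 T1) := by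
    have h6 : E θ4 = HahnSeries.single 1 1 * HahnSeries.C (c15 T1) := by
      rw [θ4, map_mul, h1, h2]
    rw [h6]
    have h7 := (LT_single (K := K5 C₀) 1 one_ne_zero).mul (LT_C hc)
    simpa using h7
  have hE : (E a) ^ 2 - E Y4 * (E c) ^ 2 = E θ4 * ((E b) ^ 2 - E Y4 * (E d) ^ 2) := by
    have h8 := congrArg E h
    simp only [map_sub, map_mul, map_pow, map_zero] at h8
    linear_combination h8
  have key : ∀ p q : LaurentSeries (K5 C₀), p ^ 2 - E Y4 * q ^ 2 = 0 → p = 0 ∧ q = 0 := by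
    intro p q hpq
    by_contra hne
    have hne' : p ≠ 0 ∨ q ≠ 0 := by
      by_contra h0
      push Not at h0
      exact hne h0
    obtain ⟨m, X, Z, hm⟩ := LT_norm h5 (nonsq0 hi) p q hne'
    exact hm.ne_zero hpq
  have hbd : E b = 0 ∧ E d = 0 := by
    by_contra hne
    have hne' : E b ≠ 0 ∨ E d ≠ 0 := by
      by_contra h0
      push Not at h0
      exact hne h0
    obtain ⟨m, X, Z, hm⟩ := LT_norm h5 (nonsq0 hi) _ _ hne'
    have h9 := hΘ.mul hm
    rw [← hE] at h9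
    have hac : E a ≠ 0 ∨ E c ≠ 0 := by
      by_contra h0
      push Not at h0
      rw [h0.1, h0.2] at h9
      exact h9.ne_zero (by simp)
    obtain ⟨m', X', Z', hm'⟩ := LT_norm h5 (nonsq0 hi) _ _ hac
    obtain ⟨h10, _⟩ := h9.unique hm'
    omega
  have hac : E a = 0 ∧ E c = 0 := by
    apply key
    rw [hE, hbd.1, hbd.2]
    simp
  refine ⟨(map_eq_zero E).1 hac.1, (map_eq_zero E).1 hbd.1, (map_eq_zero E).1 hac.2,
    (map_eq_zero E).1 hbd.2⟩

end W_bec7e1
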