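import Mathlib
import Pool.Agent.W_bec7e1.EmbU0
import Pool.Agent.W_bec7e1.EmbPsi
import Pool.Agent.W_bec7e1.NRfield0

/-!
# Non-representability in `L`, place `g = 0`
-/

namespace W_bec7e1

variable {C₀ : Type} [Field C₀] [CharZero C₀] {i : C₀}

instance instCharZeroK6' : CharZero (K6 C₀) :=
  haveI : CharZero (K1 C₀) := charZero_of_injective_ringHom (RatFunc.C (K := C₀)).injective
  charZero_of_injective_ringHom (RatFunc.C (K := K1 C₀)).injective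

/-- the common argument for the two places of the residue field -/
theorem NR4_gen (hi : i * i = -1) (lam : K4 C₀) (h0 : lam ≠ 0) (h1 : τ4 lam = lam)
    (h2 : ς4 i lam = lam) (c : K1 C₀) (hc0 : c ≠ 0) (σ6 : K6 C₀ →+* K6 C₀)
    (hσ6 : ∀ x, σ6 (σ6 x) = x) (ψ : K5 C₀ →+* LaurentSeries (K6 C₀))
    (hψ1 : ∀ a : K1 C₀, ψ (c15 a) = HahnSeries.C (RatFunc.C a))
    (hψ2 : ∀ m, τ5 m = m → ς5 m = m → lmap σ6 (ψ m) = ψ m) (e : ℤ) (he : Odd e) (w' : K6 C₀)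
    (hw' : LT (ψ (RatFunc.C (ν0 i) * RatFunc.X)) e w') (hwev : EvEl σ6 w')
    (hT : EvEl σ6 (RatFunc.C T1)) (hc : OddEl σ6 (RatFunc.C c)) (x₁ x₂ x₃ : K4 C₀) :
    lam * c14 c ≠ θ4 * x₁ ^ 2 + Y4 * x₂ ^ 2 - θ4 * Y4 * x₃ ^ 2 := by
  intro h
  obtain ⟨E, hE1, hE2, hE3, hE4, hE5⟩ := exists_embU0 hi
  -- leading term of `lam`
  have hEl : E lam ≠ 0 := (map_ne_zero E).2 h0
  obtain ⟨n, m, hm⟩ := exists_LT hEl
  have hm0 : m ≠ 0 := hm.2.2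
  have hτm : τ5 m = m := by
    have h3 := hm.lmap τ5
    rw [← hE3, h1] at h3
    exact (h3.unique hm).2
  have hςm : ς5 m = m := by
    have h3 := hm.lmap ς5
    rw [← hE4, h2] at h3
    exact (h3.unique hm).2
  have hc15 : ∀ a : K1 C₀, a ≠ 0 → c15 a ≠ 0 := fun a ha => (map_ne_zero c15).2 ha
  have hcc : LT (E (c14 c)) 0 (c15 c) := by rw [hE1]; exact LT_C (hc15 c hc0)
  have hΘ : LT (E θ4) 1 (c15 T1) := by
    have h3 : LT (E g4) 1 1 := by rw [hE2]; exact LT_single 1 one_ne_zero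
    have h4 : LT (E (c14 T1)) 0 (c15 T1) := by rw [hE1]; exact LT_C (hc15 _ T1_ne_zero)
    have h5 := h3.mul h4
    rw [← map_mul, add_zero, one_mul] at h5
    exact h5
  have hL : LT (E (lam * c14 c)) (n + 0) (m * c15 c) := by
    rw [map_mul]; exact hm.mul hcc
  have hEq : E (lam * c14 c) = E θ4 * (E x₁) ^ 2 + E Y4 * (E x₂) ^ 2 - E θ4 * E Y4 * (E x₃) ^ 2 := by
    rw [h]; simp only [map_sub, map_add, map_mul, map_pow]
  have hne : E θ4 * (E x₁) ^ 2 + E Y4 * (E x₂) ^ 2 - E θ4 * E Y4 * (E x₃) ^ 2 ≠ 0 := by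
    rw [← hEq]; exact hL.ne_zero
  obtain ⟨k, v, hv, hcase⟩ := LT_form hΘ odd_one hE5 (nonsq0 hi) (E x₁) (E x₂) (E x₃) hne
  rw [← hEq] at hv
  have hvm : m * c15 c = v := (hL.unique hv).2
  have hv0 : v ≠ 0 := hv.2.2
  -- leading term of `m`
  have hψm : ψ m ≠ 0 := (map_ne_zero ψ).2 hm0
  obtain ⟨p, m', hm'⟩ := exists_LT hψm
  have hm'0 : m' ≠ 0 := hm'.2.2
  have hσm' : σ6 m' = m' := by
    have h3 := hm'.lmap σ6
    rw [hψ2 m hτm hςm] at h3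
    exact (h3.unique hm').2
  have hCc0 : (RatFunc.C c : K6 C₀) ≠ 0 := hc.1
  have hψc : LT (ψ (m * c15 c)) (p + 0) (m' * RatFunc.C c) := by
    rw [map_mul, hψ1]; exact hm'.mul (LT_C hCc0)
  have hev1 : EvEl σ6 (-1 : K6 C₀) := evEl_of_fixed (neg_ne_zero.2 one_ne_zero) (by simp)
  rcases hcase with ⟨X, hX⟩ | ⟨X, Z, hXZ⟩
  · have hX0 : X ≠ 0 := by
      rintro rfl; apply hv0; rw [hX]; ring
    obtain ⟨q, X', hX'⟩ := exists_LT ((map_ne_zero ψ).2 hX0)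
    have h4 : LT (ψ (m * c15 c)) (e + (q + q)) (w' * (X' * X')) := by
      rw [hvm, hX, map_mul, sq, map_mul ψ X X]
      exact hw'.mul (hX'.mul hX')
    have h5 := (hψc.unique h4).2
    refine (hc.mul_ev hwev).not_sq' hσ6 hm'0 hσm' (w' * X') ?_
    linear_combination w' * h5
  · have hXZ0 : X ≠ 0 ∨ Z ≠ 0 := by
      by_contra hcon
      push Not at hcon
      apply hv0
      rw [hXZ, hcon.1, hcon.2]; ring
    have hXZ' : ψ X ≠ 0 ∨ ψ Z ≠ 0 := by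
      rcases hXZ0 with h3 | h3
      · exact Or.inl ((map_ne_zero ψ).2 h3)
      · exact Or.inr ((map_ne_zero ψ).2 h3)
    obtain ⟨q, v', hv', hcase'⟩ := LT_norm_odd hw' he (ψ X) (ψ Z) hXZ'
    have hT0 : (RatFunc.C T1 : K6 C₀) ≠ 0 := hT.1
    have h4 : LT (ψ (m * c15 c)) (0 + q) (RatFunc.C T1 * v') := by
      rw [hvm, hXZ, map_mul, hψ1, map_sub, map_mul ψ (RatFunc.C (ν0 i) * RatFunc.X), map_pow, map_pow]
      exact (LT_C hT0).mul hv'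
    have h5 := (hψc.unique h4).2
    rcases hcase' with ⟨X', hX'⟩ | ⟨Z', hZ'⟩
    · refine (hc.mul_ev hT).not_sq' hσ6 hm'0 hσm' (RatFunc.C T1 * X') ?_
      rw [hX'] at h5
      linear_combination (RatFunc.C T1 : K6 C₀) * h5
    · refine (hc.mul_ev (hT.mul_ev (hwev.mul_ev hev1))).not_sq' hσ6 hm'0 hσm'
        (RatFunc.C T1 * w' * Z') ?_
      rw [hZ'] at h5
      linear_combination -(RatFunc.C T1 * w' : K6 C₀) * h5

omit [CharZero C₀] in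
theorem ς6_C' (a : K1 C₀) : ς6 (RatFunc.C a : K6 C₀) = RatFunc.C (ς1 a) := autDiv_C _ _ _ _
omit [CharZero C₀] in
theorem τς6_C' (a : K1 C₀) : τς6 (RatFunc.C a : K6 C₀) = RatFunc.C (τ1 (ς1 a)) := autDiv_C _ _ _ _
omit [CharZero C₀] in
theorem ς6_X' : ς6 (RatFunc.X : K6 C₀) = RatFunc.X⁻¹ := by
  rw [ς6, autDiv_X, map_one, one_div]
omit [CharZero C₀] in
theorem τς6_X' : τς6 (RatFunc.X : K6 C₀) = RatFunc.X⁻¹ := by
  rw [τς6, autDiv_X, map_one, one_div]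

omit [CharZero C₀] in
theorem ς6_ς6' (x : K6 C₀) : ς6 (ς6 x) = x := by
  have : (ς6.comp ς6 : K6 C₀ →+* K6 C₀) = RingHom.id _ := by
    apply ratFunc_ext
    · intro a
      simp only [RingHom.comp_apply, ς6_C', ς1_ς1, RingHom.id_apply]
    · simp only [RingHom.comp_apply, ς6_X', map_inv₀, inv_inv, RingHom.id_apply]
  exact RingHom.congr_fun this x

omit [CharZero C₀] in
theorem τς6_τς6' (x : K6 C₀) : τς6 (τς6 x) = x := by
  have : (τς6.comp τς6 : K6 C₀ →+* K6 C₀) = RingHom.id _ := by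
    apply ratFunc_ext
    · intro a
      simp only [RingHom.comp_apply, τς6_C', RingHom.id_apply]
      rw [τ1_ς1 (τ1 (ς1 a)), τ1_τ1, ς1_ς1]
    · simp only [RingHom.comp_apply, τς6_X', map_inv₀, inv_inv, RingHom.id_apply]
  exact RingHom.congr_fun this x

/-- case `c = B, AB, ABT` -/
theorem NR4_B (hi : i * i = -1) (lam : K4 C₀) (h0 : lam ≠ 0) (h1 : τ4 lam = lam)
    (h2 : ς4 i lam = lam) (c : K1 C₀) (hc : OddEl ς1 c) (x₁ x₂ x₃ : K4 C₀) :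
    lam * c14 c ≠ θ4 * x₁ ^ 2 + Y4 * x₂ ^ 2 - θ4 * Y4 * x₃ ^ 2 := by
  obtain ⟨ψ, hψ1, hψ2, hψ3⟩ := exists_psiA hi
  have hX0 : (RatFunc.X : K6 C₀) ≠ 0 := RatFunc.X_ne_zero
  refine NR4_gen hi lam h0 h1 h2 c hc.1 ς6 ς6_ς6' ψ hψ1 ?_ (-1) (by decide) _ hψ3 ?_ ?_ ?_ x₁ x₂ x₃
  · intro m _ hm
    rw [← hψ2, hm]
  · refine ⟨hψ3.2.2, RatFunc.X⁻¹, ?_, ?_⟩
    · rw [map_mul, ς6_C', ς6_X', map_div₀, map_sub, map_pow, map_pow, map_mul, ς1_A1, ς1_B1, map_ofNat,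
        neg_sq]
      field_simp
    · rw [map_inv₀, ς6_X', inv_inv, inv_mul_cancel₀ hX0]
  · refine ⟨(map_ne_zero _).2 T1_ne_zero, RatFunc.C (T1⁻¹), ?_, ?_⟩
    · rw [ς6_C', ς1_T1, ← map_pow, ← map_mul]
      congr 1
      have := T1_ne_zero (C₀ := C₀)
      field_simp
    · rw [ς6_C', map_inv₀ ς1, ς1_T1, inv_inv, ← map_mul, inv_mul_cancel₀ T1_ne_zero, map_one]
  · obtain ⟨hc0, ω, hω1, hω2⟩ := hc
    refine ⟨(map_ne_zero _).2 hc0, RatFunc.C ω, ?_, ?_⟩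
    · rw [ς6_C', hω1, map_mul, map_pow]
    · rw [ς6_C', ← map_mul, hω2, map_neg, map_one]

/-- case `c = A` -/
theorem NR4_A (hi : i * i = -1) (lam : K4 C₀) (h0 : lam ≠ 0) (h1 : τ4 lam = lam)
    (h2 : ς4 i lam = lam) (x₁ x₂ x₃ : K4 C₀) :
    lam * c14 A1 ≠ θ4 * x₁ ^ 2 + Y4 * x₂ ^ 2 - θ4 * Y4 * x₃ ^ 2 := by
  obtain ⟨ψ, hψ1, hψ2, hψ3⟩ := exists_psiB hi
  have hX0 : (RatFunc.X : K6 C₀) ≠ 0 := RatFunc.X_ne_zero
  have hT0 := T1_ne_zero (C₀ := C₀)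
  have hi2 := C_i_sq hi
  refine NR4_gen hi lam h0 h1 h2 A1 A1_ne_zero τς6 τς6_τς6' ψ hψ1 ?_ 1 odd_one _ hψ3 ?_ ?_ ?_ x₁ x₂ x₃
  · intro m hτ hς
    rw [← hψ2, hς, hτ]
  · refine ⟨hψ3.2.2, RatFunc.X⁻¹, ?_, ?_⟩
    · rw [map_mul, τς6_C', τς6_X']
      have h3 : τ1 (ς1 (2 * B1 i / (B1 i ^ 2 - A1 ^ 2))) = 2 * B1 i / (B1 i ^ 2 - A1 ^ 2) := by
        simp only [map_div₀, map_sub, map_pow, map_mul, map_neg, ς1_A1, ς1_B1, τ1_A1, τ1_B1, map_ofNat,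
          neg_sq, neg_neg]
      rw [h3]
      field_simp
    · rw [map_inv₀, τς6_X', inv_inv, inv_mul_cancel₀ hX0]
  · refine ⟨(map_ne_zero _).2 T1_ne_zero, RatFunc.C (RatFunc.C i * T1⁻¹), ?_, ?_⟩
    · rw [τς6_C', ς1_T1, map_inv₀, τ1_T1, ← map_pow, ← map_mul]
      congr 1
      field_simp
      linear_combination -hi2
    · rw [τς6_C']
      simp only [map_mul, map_inv₀, ς1_C, τ1_C, ς1_T1, τ1_T1, inv_inv]
      have h3 : (RatFunc.C T1 : K6 C₀) ≠ 0 := (map_ne_zero _).2 hT0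
      have h4 : (RatFunc.C (RatFunc.C i) : K6 C₀) * RatFunc.C (RatFunc.C i) = -1 := by
        rw [← map_mul, hi2]; simp
      simp only [map_neg]
      field_simp
      linear_combination -h4
  · refine ⟨(map_ne_zero _).2 A1_ne_zero, RatFunc.C (RatFunc.C i), ?_, ?_⟩
    · rw [τς6_C', ς1_A1, τ1_A1, ← map_pow, ← map_mul]
      congr 1
      linear_combination -A1 * hi2
    · rw [τς6_C', ς1_C, τ1_C, ← map_mul, hi2]
      simp

end W_bec7e1
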