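import Mathlib
import Pool.Agent.W_bec7e1.EmbDefs

/-!
# The embedding of `L` at `g = ∞`
-/

namespace W_bec7e1

open HahnSeries

section

variable {C₀ : Type} [Field C₀]

theorem EmbUinf_trans : Trans ((HahnSeries.C : K2 C₀ →+* LaurentSeries (K2 C₀)).comp
    (RingHom.id (K2 C₀))) (single (-1) (1 : K2 C₀)) :=
  trans_single (RingHom.id (K2 C₀)) (-1) (by decide)

/-- `g ↦ 1/t` -/
noncomputable def EmbUinf_phi : K3 C₀ →+* LaurentSeries (K2 C₀) :=
  ratLift _ _ EmbUinf_trans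

theorem EmbUinf_phi_C (a : K2 C₀) : EmbUinf_phi (RatFunc.C a : K3 C₀) = HahnSeries.C a :=
  ratLift_C _ _ _ _

theorem EmbUinf_phi_X : EmbUinf_phi (RatFunc.X : K3 C₀) = single (-1) 1 :=
  ratLift_X _ _ _

theorem EmbUinf_equiv (α : K2 C₀ →+* K2 C₀) (a : K3 C₀) :
    EmbUinf_phi (autMul α 1 one_ne_zero a) = lmap α (EmbUinf_phi a) := by
  have : (EmbUinf_phi (C₀ := C₀)).comp (autMul α 1 one_ne_zero) = (lmap α).comp EmbUinf_phi := by
    apply ratFunc_ext
    · intro a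
      rw [RingHom.comp_apply, RingHom.comp_apply, autMul_C, EmbUinf_phi_C, EmbUinf_phi_C, lmap_C]
    · rw [RingHom.comp_apply, RingHom.comp_apply, autMul_X, map_one, one_mul, EmbUinf_phi_X,
        lmap_single, RingHom.map_one]
  exact RingHom.congr_fun this a

theorem EmbUinf_lin {K : Type} [Field K] (p q : K) (hq : q ≠ 0) :
    LT (HahnSeries.C p + single (-1) 1 * HahnSeries.C q : LaurentSeries K) (-1) q := by
  rw [HahnSeries.C_apply, HahnSeries.C_apply, single_mul_single, add_zero, one_mul]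
  refine ⟨((lge_single 0 p).mono (by norm_num)).add (lge_single (-1) q), ?_, hq⟩
  rw [HahnSeries.coeff_add, HahnSeries.coeff_single_of_ne (by norm_num),
    HahnSeries.coeff_single_same, zero_add]

theorem EmbUinf_div {K : Type} [Field K] {u v : LaurentSeries K} {n m : ℤ} {c e : K}
    (hu : LT u n c) (hv : LT v m e) : LT (u / v) (n - m) (c / e) := by
  have hv0 := hv.ne_zero
  have hu0 := hu.ne_zero
  obtain ⟨k, r, h⟩ := exists_LT (div_ne_zero hu0 hv0)
  have h1 := h.mul hv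
  rw [div_mul_cancel₀ _ hv0] at h1
  obtain ⟨h2, h3⟩ := hu.unique h1
  have he : e ≠ 0 := hv.2.2
  have hk : k = n - m := by omega
  have hr : r = c / e := by rw [h3, mul_div_cancel_right₀ _ he]
  rw [← hk, ← hr]
  exact h

theorem EmbUinf_lead {K : Type} [Field K] [CharZero K] (i x A B : K) (hi : i * i = -1)
    (hA : A ≠ 0) (hB : B ≠ 0) (hAB : A ^ 2 + B ^ 2 = 1) :
    LT (fNγ (HahnSeries.C i) (HahnSeries.C x) (single (-1) 1) (HahnSeries.C B) /
      fNβ (HahnSeries.C x) (single (-1) 1) (HahnSeries.C A) : LaurentSeries K) 0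
      (-(A / B) ^ 2) := by
  have hi0 : i ≠ 0 := by rintro rfl; simp at hi
  have hA1 : (A + 1) * (A - 1) ≠ 0 := by
    have : (A + 1) * (A - 1) = -B ^ 2 := by linear_combination hAB
    rw [this]
    exact neg_ne_zero.2 (pow_ne_zero 2 hB)
  have hB1 : (B + 1) * (B - 1) ≠ 0 := by
    have : (B + 1) * (B - 1) = -A ^ 2 := by linear_combination hAB
    rw [this]
    exact neg_ne_zero.2 (pow_ne_zero 2 hA)
  have h2 : (2 : K) ≠ 0 := two_ne_zero
  have e1 : ((HahnSeries.C x + HahnSeries.C A) ^ 2 - 2 * single (-1) 1 * (HahnSeries.C A + 1) :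
      LaurentSeries K) = HahnSeries.C ((x + A) ^ 2) + single (-1) 1 *
        HahnSeries.C (-(2 * (A + 1))) := by
    simp only [map_add, map_mul, map_neg, map_pow, map_one, map_ofNat]
    ring
  have e2 : ((HahnSeries.C x - HahnSeries.C A) ^ 2 + 2 * single (-1) 1 * (HahnSeries.C A - 1) :
      LaurentSeries K) = HahnSeries.C ((x - A) ^ 2) + single (-1) 1 *
        HahnSeries.C (2 * (A - 1)) := by
    simp only [map_add, map_sub, map_mul, map_neg, map_pow, map_one, map_ofNat]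
    ring
  have e3 : ((HahnSeries.C x + HahnSeries.C B) ^ 2 - 2 * HahnSeries.C i * single (-1) 1 *
      (HahnSeries.C B - 1) : LaurentSeries K) = HahnSeries.C ((x + B) ^ 2) + single (-1) 1 *
        HahnSeries.C (-(2 * i * (B - 1))) := by
    simp only [map_add, map_sub, map_mul, map_neg, map_pow, map_one, map_ofNat]
    ring
  have e4 : ((HahnSeries.C x - HahnSeries.C B) ^ 2 + 2 * HahnSeries.C i * single (-1) 1 *
      (HahnSeries.C B + 1) : LaurentSeries K) = HahnSeries.C ((x - B) ^ 2) + single (-1) 1 *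
        HahnSeries.C (2 * i * (B + 1)) := by
    simp only [map_add, map_sub, map_mul, map_neg, map_pow, map_one, map_ofNat]
    ring
  have l1 := EmbUinf_lin ((x + A) ^ 2) (-(2 * (A + 1)))
    (neg_ne_zero.2 (mul_ne_zero h2 (left_ne_zero_of_mul hA1)))
  have l2 := EmbUinf_lin ((x - A) ^ 2) (2 * (A - 1)) (mul_ne_zero h2 (right_ne_zero_of_mul hA1))
  have l3 := EmbUinf_lin ((x + B) ^ 2) (-(2 * i * (B - 1)))
    (neg_ne_zero.2 (mul_ne_zero (mul_ne_zero h2 hi0) (right_ne_zero_of_mul hB1)))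
  have l4 := EmbUinf_lin ((x - B) ^ 2) (2 * i * (B + 1))
    (mul_ne_zero (mul_ne_zero h2 hi0) (left_ne_zero_of_mul hB1))
  rw [← e1] at l1
  rw [← e2] at l2
  rw [← e3] at l3
  rw [← e4] at l4
  have h := EmbUinf_div (l3.mul l4) (l1.mul l2)
  have hc : -(2 * i * (B - 1)) * (2 * i * (B + 1)) / (-(2 * (A + 1)) * (2 * (A - 1))) =
      -(A / B) ^ 2 := by
    have hA2 : -(2 * (A + 1)) * (2 * (A - 1)) = 4 * B ^ 2 := by
      linear_combination (-4) * hAB
    have hB2 : -(2 * i * (B - 1)) * (2 * i * (B + 1)) = -(4 * A ^ 2) := by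
      linear_combination (-4 * (B ^ 2 - 1)) * hi + 4 * hAB
    rw [hA2, hB2]
    field_simp
  rw [hc, sub_self] at h
  exact h

end

theorem exists_embUinf {C₀ : Type} [Field C₀] [CharZero C₀] {i : C₀} (hi : i * i = -1) :
    ∃ E : K4 C₀ →+* LaurentSeries (K5 C₀),
      (∀ a : K1 C₀, E (c14 a) = HahnSeries.C (c15 a)) ∧
      E g4 = single (-1) 1 ∧
      (∀ a, E (τ4 a) = lmap τ5 (E a)) ∧
      (∀ a, E (ς4 i a) = lmap (ς5' hi) (E a)) ∧
      LT (E Y4) 0 RatFunc.X := by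
  haveI : CharZero (K1 C₀) := charZero_of_injective_ringHom (RatFunc.C (K := C₀)).injective
  haveI : CharZero (K2 C₀) := charZero_of_injective_ringHom (RatFunc.C (K := K1 C₀)).injective
  have hiK : (RatFunc.C (RatFunc.C i) : K2 C₀) * RatFunc.C (RatFunc.C i) = -1 := by
    rw [← map_mul, ← map_mul, hi]; simp
  have hAB : (RatFunc.C A1 : K2 C₀) ^ 2 + (RatFunc.C (B1 i)) ^ 2 = 1 := by
    rw [← map_pow, ← map_pow, ← map_add, A1, B1, fA_sq_add_fB_sq (C_i_sq hi) T1_ne_zero, map_one]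
  have hlead := EmbUinf_lead (RatFunc.C (RatFunc.C i) : K2 C₀) RatFunc.X (RatFunc.C A1)
    (RatFunc.C (B1 i)) hiK ((map_ne_zero _).2 A1_ne_zero) ((map_ne_zero _).2 (B1_ne_zero hi)) hAB
  have hphi : EmbUinf_phi (n3 i) = (fNγ (HahnSeries.C (RatFunc.C (RatFunc.C i)))
      (HahnSeries.C RatFunc.X) (single (-1) 1) (HahnSeries.C (RatFunc.C (B1 i))) /
      fNβ (HahnSeries.C RatFunc.X) (single (-1) 1) (HahnSeries.C (RatFunc.C A1)) :
        LaurentSeries (K2 C₀)) := by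
    rw [n3, map_fn, T3, x3, g3, EmbUinf_phi_C, EmbUinf_phi_C, EmbUinf_phi_C, EmbUinf_phi_X, fn,
      A1, B1, map_fA, map_fA, map_fB, map_fB]
  have hnb : (RatFunc.C (nbar i) : K2 C₀) = -(RatFunc.C A1 / RatFunc.C (B1 i)) ^ 2 := by
    rw [nbar, map_neg, map_pow, map_div₀]
  rw [← hphi, ← hnb] at hlead
  set f := EmbUinf_phi (n3 i) with hf
  set c : K2 C₀ := RatFunc.C (nbar i) with hcdef
  have hc0 : c ≠ 0 := C_nbar_ne_zero hi
  have hq := EmbUinf_div hlead (LT_C hc0)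
  rw [sub_self, div_self hc0] at hq
  obtain ⟨ν, hν1, hν2, hν3⟩ := exists_sqrt (f / HahnSeries.C c) 1 one_ne_zero hq.1
    (by rw [hq.2.1, one_pow])
  have hC0 : (HahnSeries.C c : LaurentSeries (K2 C₀)) ≠ 0 := (LT_C hc0).ne_zero
  have hfν : f = HahnSeries.C c * ν ^ 2 := by rw [hν3, mul_div_cancel₀ _ hC0]
  have hν0 : ν ≠ 0 := by
    rintro rfl
    simp at hν2
  have hinv : ∀ α : K2 C₀ →+* K2 C₀, lmap α f = f → α c = c → lmap α ν = ν := by
    intro α h1 h2
    refine sqrt_unique _ _ 1 one_ne_zero (lge_lmap α hν1) hν1 ?_ hν2 ?_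
    · rw [lmap_coeff, hν2, map_one]
    · rw [← map_pow, hν3, map_div₀, h1, lmap_C, h2]
  have hτ : lmap τ2 ν = ν := by
    refine hinv τ2 ?_ ?_
    · rw [hf, ← EmbUinf_equiv]
      exact congrArg _ (τ3_n3 i)
    · rw [hcdef, τ2_C, nbar, map_neg, map_pow, map_div₀, τ1_A1, τ1_B1, neg_div_neg_eq]
  have hς : lmap ς2 ν = ν := by
    refine hinv ς2 ?_ ?_
    · rw [hf, ← EmbUinf_equiv]
      exact congrArg _ (ς3_n3 i)
    · rw [hcdef, ς2_C, nbar, map_neg, map_pow, map_div₀, ς1_A1, ς1_B1, div_neg, neg_sq]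
  have hphi0 : ∀ a : K2 C₀, EmbUinf_phi (RatFunc.C a : K3 C₀) = HahnSeries.C a := EmbUinf_phi_C
  have hphiX : EmbUinf_phi (RatFunc.X : K3 C₀) = single (-1) 1 := EmbUinf_phi_X
  have hphiτ : ∀ a : K3 C₀, EmbUinf_phi (τ3 a) = lmap τ2 (EmbUinf_phi a) := EmbUinf_equiv τ2
  have hphiς : ∀ a : K3 C₀, EmbUinf_phi (ς3 a) = lmap ς2 (EmbUinf_phi a) := EmbUinf_equiv ς2
  have hνLT : LT ν 0 1 := ⟨hν1, hν2, one_ne_zero⟩
  rw [hf] at hfν
  clear hf hlead hq hν3 hinv hphi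
  clear_value f
  generalize (EmbUinf_phi : K3 C₀ →+* LaurentSeries (K2 C₀)) = φ at *
  refine ⟨emb φ ν hν0, ?_, ?_, ?_, ?_, ?_⟩
  · intro a
    rw [c14, RingHom.comp_apply, RingHom.comp_apply, emb_C, hphi0, lmap_C, c15,
      RingHom.comp_apply]
  · rw [g4, emb_C, hphiX, lmap_single, RingHom.map_one]
  · intro a
    exact emb_autMul φ ν hν0 τ3 τ2 hphiτ hτ a
  · intro a
    exact emb_autDiv φ ν hν0 ς3 ς2 (n3 i) (n3_ne_zero i) (RatFunc.C (nbar i))
      (C_nbar_ne_zero hi) hphiς hς hfν a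
  · rw [Y4, emb_X]
    have := (hνLT.lmap (RatFunc.C (K := K2 C₀))).mul
      (LT_C (K := K5 C₀) (c := RatFunc.X) RatFunc.X_ne_zero)
    simpa using this

end W_bec7e1
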