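import Mathlib
import Pool.Agent.W_bec7e1.EmbUinf
import Pool.Agent.W_bec7e1.EmbPsi
import Pool.Agent.W_bec7e1.NRfield0

/-!
# Non-representability in `L`, place `g = ∞`
-/

namespace W_bec7e1

variable {C₀ : Type} [Field C₀] [CharZero C₀] {i : C₀}

theorem oneCharZero_K1 : CharZero (K1 C₀) :=
  charZero_of_injective_ringHom (RatFunc.C (K := C₀)).injective

theorem oneCharZero_K2 : CharZero (K2 C₀) :=
  haveI : CharZero (K1 C₀) := oneCharZero_K1
  charZero_of_injective_ringHom (RatFunc.C (K := K1 C₀)).injective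

theorem oneCharZero_K5 : CharZero (K5 C₀) :=
  haveI : CharZero (K2 C₀) := oneCharZero_K2
  charZero_of_injective_ringHom (RatFunc.C (K := K2 C₀)).injective

theorem one_ς5'_C (hi : i * i = -1) (a : K2 C₀) :
    ς5' hi (RatFunc.C a) = RatFunc.C (ς2 a) := autDiv_C _ _ _ _

theorem one_ς5'_c15 (hi : i * i = -1) (a : K1 C₀) : ς5' hi (c15 a) = c15 (ς1 a) := by
  rw [c15, RingHom.comp_apply, RingHom.comp_apply, one_ς5'_C, ς2_C]

theorem one_ς5'_X (hi : i * i = -1) : ς5' hi RatFunc.X = c15 (nbar i) / RatFunc.X :=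
  autDiv_X _ _ _

theorem one_ς1_nbar : ς1 (nbar i) = nbar i := by
  rw [nbar, map_neg, map_pow, map_div₀, ς1_A1, ς1_B1, div_neg, neg_sq]

theorem one_ς5'_ς5' (hi : i * i = -1) (a : K5 C₀) : ς5' hi (ς5' hi a) = a := by
  have : ((ς5' hi).comp (ς5' hi) : K5 C₀ →+* K5 C₀) = RingHom.id _ := by
    apply ratFunc_ext
    · intro a
      simp only [RingHom.comp_apply, one_ς5'_C, ς2_ς2, RingHom.id_apply]
    · simp only [RingHom.comp_apply, one_ς5'_X, RingHom.id_apply]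
      rw [map_div₀, one_ς5'_c15, one_ς5'_X, one_ς1_nbar]
      have h : (c15 (nbar i) : K5 C₀) ≠ 0 := (map_ne_zero _).2 (nbar_ne_zero hi)
      have hX : (RatFunc.X : K5 C₀) ≠ 0 := RatFunc.X_ne_zero
      field_simp
  exact RingHom.congr_fun this a

theorem one_odd_X (hi : i * i = -1) : OddEl (ς5' hi) (RatFunc.X : K5 C₀) := by
  have hX : (RatFunc.X : K5 C₀) ≠ 0 := RatFunc.X_ne_zero
  have h : (c15 (nbar i) : K5 C₀) ≠ 0 := (map_ne_zero _).2 (nbar_ne_zero hi)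
  obtain ⟨u, hu⟩ : ∃ u : K1 C₀, u = RatFunc.C i * (A1 / B1 i) := ⟨_, rfl⟩
  have hu2 : u ^ 2 = nbar i := by
    rw [hu, nbar]
    linear_combination (A1 / B1 i) ^ 2 * C_i_sq hi
  have hu3 : ς1 u = -u := by
    rw [hu, map_mul, ς1_C, map_div₀, ς1_A1, ς1_B1, div_neg, mul_neg]
  have hu4 : (c15 u : K5 C₀) ^ 2 = c15 (nbar i) := by rw [← map_pow, hu2]
  refine ⟨hX, c15 u / RatFunc.X, ?_, ?_⟩
  · rw [one_ς5'_X, ← hu4]
    field_simp
  · rw [map_div₀, one_ς5'_c15, one_ς5'_X, hu3, map_neg, ← hu4]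
    have hu5 : (c15 u : K5 C₀) ≠ 0 := by
      intro h0
      rw [h0] at hu4
      exact h (by rw [← hu4]; ring)
    field_simp

theorem one_odd_T2 (hi : i * i = -1) : OddEl τ2 (RatFunc.C T1 : K2 C₀) := by
  refine ⟨(map_ne_zero _).2 T1_ne_zero, RatFunc.C (RatFunc.C i), ?_, ?_⟩
  · rw [τ2_C, τ1_T1, ← map_pow, sq, C_i_sq hi]
    simp
  · rw [τ2_C, τ1_C, ← map_mul, C_i_sq hi]
    simp

/-- case `c = 1` -/
theorem NR4_one (hi : i * i = -1) (lam : K4 C₀) (h0 : lam ≠ 0) (h1 : τ4 lam = lam)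
    (h2 : ς4 i lam = lam) (x₁ x₂ x₃ : K4 C₀) :
    lam ≠ θ4 * x₁ ^ 2 + Y4 * x₂ ^ 2 - θ4 * Y4 * x₃ ^ 2 := by
  intro hlam
  obtain ⟨E, hE1, hE2, hE3, hE4, hE5⟩ := exists_embUinf hi
  have hθ : LT (E θ4) (-1) (c15 T1) := by
    rw [θ4, map_mul, hE1, hE2]
    have h3 := (LT_single (K := K5 C₀) (-1) one_ne_zero).mul
      (LT_C (K := K5 C₀) (c := c15 T1) ((map_ne_zero _).2 T1_ne_zero))
    rwa [one_mul, add_zero] at h3
  have hEl : E lam ≠ 0 := (map_ne_zero E).2 h0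
  obtain ⟨n, m, hm⟩ := exists_LT hEl
  have hm1 : τ5 m = m := by
    have h3 := hm.lmap τ5
    rw [← hE3, h1] at h3
    exact (h3.unique hm).2
  have hm2 : ς5' hi m = m := by
    have h3 := hm.lmap (ς5' hi)
    rw [← hE4, h2] at h3
    exact (h3.unique hm).2
  have hm0 : m ≠ 0 := hm.2.2
  have hE6 : E lam = E θ4 * E x₁ ^ 2 + E Y4 * E x₂ ^ 2 - E θ4 * E Y4 * E x₃ ^ 2 := by
    rw [hlam]
    simp only [map_sub, map_add, map_mul, map_pow]
  obtain ⟨n', v, hv, hv2⟩ := LT_form hθ ⟨-1, by norm_num⟩ hE5 nonsqinf (E x₁) (E x₂) (E x₃)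
    (by rw [← hE6]; exact hEl)
  rw [← hE6] at hv
  have hmv : v = m := (hv.unique hm).2
  rcases hv2 with ⟨X, hX⟩ | ⟨P, Z, hPZ⟩
  · haveI : CharZero (K5 C₀) := oneCharZero_K5
    apply (one_odd_X hi).not_sq' (one_ς5'_ς5' hi) hm0 hm2 (RatFunc.X * X)
    rw [← hmv, hX]
    ring
  · haveI : CharZero (K2 C₀) := oneCharZero_K2
    obtain ⟨F, hF1, hF2, hF3⟩ := exists_chi (C₀ := C₀)
    have hPZ0 : F P ≠ 0 ∨ F Z ≠ 0 := by
      by_contra hc
      push Not at hc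
      have hP : P = 0 := (map_eq_zero F).1 hc.1
      have hZ : Z = 0 := (map_eq_zero F).1 hc.2
      apply hm0
      rw [← hmv, hPZ, hP, hZ]
      ring
    have hW : LT (F RatFunc.X) 1 (1 : K2 C₀) := by
      rw [hF3]
      exact LT_single 1 one_ne_zero
    obtain ⟨k, v', hv', hv3⟩ := LT_norm_odd hW odd_one (F P) (F Z) hPZ0
    have hT : LT (F (c15 T1)) 0 (RatFunc.C T1 : K2 C₀) := by
      rw [c15, RingHom.comp_apply, hF1]
      exact LT_C ((map_ne_zero _).2 T1_ne_zero)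
    have hFm : F m = F (c15 T1) * (F P ^ 2 - F RatFunc.X * F Z ^ 2) := by
      rw [← hmv, hPZ]
      simp only [map_sub, map_mul, map_pow]
    have hLm := hT.mul hv'
    rw [← hFm] at hLm
    have h3 := hLm.lmap τ2
    rw [← hF2, hm1] at h3
    have hfix := (h3.unique hLm).2
    have hne := hLm.2.2
    rcases hv3 with ⟨X, hX⟩ | ⟨X, hX⟩
    · apply (one_odd_T2 hi).not_sq' τ2_τ2 hne hfix (RatFunc.C T1 * X)
      rw [hX]
      ring
    · apply (one_odd_T2 hi).not_sq' τ2_τ2 hne hfix (RatFunc.C (RatFunc.C i) * (RatFunc.C T1 * X))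
      have hi2 : (RatFunc.C (RatFunc.C i) : K2 C₀) * RatFunc.C (RatFunc.C i) = -1 := by
        rw [← map_mul, C_i_sq hi]
        simp
      rw [hX]
      linear_combination (-(RatFunc.C T1 * X) ^ 2 : K2 C₀) * hi2

end W_bec7e1
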