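import Mathlib
import Pool.Agent.W_bec7e1.NR
import Pool.Agent.W_bec7e1.NRfieldB
import Pool.Agent.W_bec7e1.NRfieldOne

/-!
# The concrete datum
-/

set_option linter.unusedSectionVars false
set_option linter.unusedSimpArgs false

namespace W_bec7e1

noncomputable section

variable {C₀ : Type} [Field C₀]

/-- `M = L(√θ)` as a quadratic extension. -/
def SM : QData (K4 C₀) where
  φ := RingHom.id _
  b := θ4
  φb := rfl
  φφ x := by simp [mul_comm]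

theorem SMφ (x : K4 C₀) : SM.φ x = x := rfl
theorem SMb : (SM (C₀ := C₀)).b = θ4 := rfl

variable (C₀) in
/-- `M = L(√θ)`. -/
abbrev M4 : Type := QExt (SM (C₀ := C₀))

variable [CharZero C₀]

theorem norm_ne_zero {i : C₀} (hi : i * i = -1) {x : M4 C₀} (hx : x ≠ 0) :
    x.re ^ 2 - θ4 * x.im ^ 2 ≠ 0 := by
  intro h
  have := AN4 hi x.re x.im 0 0 (by rw [h]; ring)
  exact hx (QExt.ext this.1 this.2.1)

/-- The field structure of `M`. -/
@[reducible] def fieldM4 {i : C₀} (hi : i * i = -1) : Field (M4 C₀) :=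
  { (QExt.instRing : Ring (M4 C₀)) with
    mul_comm := fun x y => by
      ext
      · simp only [QExt.mul_re, SMφ, SMb]; ring
      · simp only [QExt.mul_im, SMφ]; ring
    inv := fun x => ⟨x.re / (x.re ^ 2 - θ4 * x.im ^ 2), -x.im / (x.re ^ 2 - θ4 * x.im ^ 2)⟩
    exists_pair_ne := ⟨0, 1, zero_ne_one⟩
    mul_inv_cancel := fun x hx => by
      have h := norm_ne_zero hi hx
      ext
      · simp only [QExt.mul_re, SMφ, SMb, QExt.one_re]
        field_simp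
        ring
      · simp only [QExt.mul_im, SMφ, QExt.one_im]
        field_simp
        ring
    inv_zero := by
      ext
      · simp
      · simp
    nnqsmul := _
    nnqsmul_def := fun _ _ => rfl
    qsmul := _
    qsmul_def := fun _ _ => rfl }

theorem τ4_c14 (a : K1 C₀) : τ4 (c14 a) = c14 (τ1 a) := by
  simp only [c14, RingHom.comp_apply, τ4_C, τ3_C, τ2_C]
theorem ς4_c14 (i : C₀) (a : K1 C₀) : ς4 i (c14 a) = c14 (ς1 a) := by
  simp only [c14, RingHom.comp_apply, ς4_C, ς3_C, ς2_C]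
theorem τ4_g4 : τ4 (g4 : K4 C₀) = g4 := by rw [g4, τ4_C, τ3_X]
theorem ς4_g4 (i : C₀) : ς4 i (g4 : K4 C₀) = g4 := by rw [g4, ς4_C, ς3_X]
theorem τ4_Y4 : τ4 (Y4 : K4 C₀) = Y4 := τ4_X

/-- `x` in `K4` -/
def x4 : K4 C₀ := RatFunc.C (RatFunc.C RatFunc.X)

theorem τ4_x4 : τ4 (x4 : K4 C₀) = x4 := by rw [x4, τ4_C, τ3_C, τ2_X]
theorem ς4_x4 (i : C₀) : ς4 i (x4 : K4 C₀) = x4 := by rw [x4, ς4_C, ς3_C, ς2_X]

theorem τ4_θ4 : τ4 (θ4 : K4 C₀) = -θ4 := by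
  rw [θ4, map_mul, τ4_g4, τ4_c14, τ1_T1, map_neg, mul_neg]

theorem ς4_θ4 (i : C₀) : ς4 i (θ4 : K4 C₀) = θ4 * (c14 T1)⁻¹ ^ 2 := by
  have hT : (c14 T1 : K4 C₀) ≠ 0 := (map_ne_zero _).2 T1_ne_zero
  rw [θ4, map_mul, ς4_g4, ς4_c14, ς1_T1, map_inv₀]
  field_simp

theorem ς4_Y4 (i : C₀) : Y4 * ς4 i (Y4 : K4 C₀) = RatFunc.C (n3 i) := by
  rw [Y4, ς4_X]
  have : (RatFunc.X : K4 C₀) ≠ 0 := RatFunc.X_ne_zero
  field_simp

/-- the constant `i` in `K4` -/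
def i4 (i : C₀) : K4 C₀ := c14 (RatFunc.C i)

theorem i4_sq {i : C₀} (hi : i * i = -1) : i4 i * i4 i = -1 := by
  rw [i4, ← map_mul, C_i_sq hi, map_neg, map_one]

theorem τ4_i4 (i : C₀) : τ4 (i4 i) = i4 i := by rw [i4, τ4_c14, τ1_C]
theorem ς4_i4 (i : C₀) : ς4 i (i4 i) = i4 i := by rw [i4, ς4_c14, ς1_C]

/-- The automorphism `r` of `M`. -/
def r4 {i : C₀} (hi : i * i = -1) : M4 C₀ →+* M4 C₀ :=
  QExt.ext' (S := SM) τ4 (i4 i) (fun x => by rw [SMφ, SMφ, mul_comm])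
    (by rw [SMφ, SMb, i4_sq hi, τ4_θ4]; ring)

/-- The automorphism `s` of `M`. -/
def s4 (i : C₀) : M4 C₀ →+* M4 C₀ :=
  QExt.ext' (S := SM) (ς4 i) (c14 T1)⁻¹ (fun x => by rw [SMφ, SMφ, mul_comm])
    (by rw [SMφ, SMb, ς4_θ4]; ring)

theorem r4_re {i : C₀} (hi : i * i = -1) (x : M4 C₀) : (r4 hi x).re = τ4 x.re :=
  QExt.ext'_re _ _ _ _ _
theorem r4_im {i : C₀} (hi : i * i = -1) (x : M4 C₀) : (r4 hi x).im = τ4 x.im * i4 i :=
  QExt.ext'_im _ _ _ _ _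
theorem s4_re (i : C₀) (x : M4 C₀) : (s4 i x).re = ς4 i x.re :=
  QExt.ext'_re _ _ _ _ _
theorem s4_im (i : C₀) (x : M4 C₀) : (s4 i x).im = ς4 i x.im * (c14 T1)⁻¹ :=
  QExt.ext'_im _ _ _ _ _

theorem r4r4_re {i : C₀} (hi : i * i = -1) (x : M4 C₀) : (r4 hi (r4 hi x)).re = x.re := by
  rw [r4_re, r4_re, τ4_τ4]
theorem r4r4_im {i : C₀} (hi : i * i = -1) (x : M4 C₀) : (r4 hi (r4 hi x)).im = -x.im := by
  rw [r4_im, r4_im, map_mul, τ4_τ4, τ4_i4, mul_assoc, i4_sq hi]; ring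

/-- `A` in `K4` -/
def A4 : K4 C₀ := c14 A1
/-- `B` in `K4` -/
def B4 (i : C₀) : K4 C₀ := c14 (B1 i)
/-- `T` in `K4` -/
def T4 : K4 C₀ := c14 T1

theorem T4_ne_zero : (T4 : K4 C₀) ≠ 0 := (map_ne_zero _).2 T1_ne_zero
theorem T4_pow : (T4 : K4 C₀) ^ 4 ≠ 1 := by
  intro h
  apply T1_pow (C₀ := C₀)
  apply (c14 (C₀ := C₀)).injective
  rw [map_pow, map_one]
  exact h

theorem A4_eq : (A4 : K4 C₀) = (T4 + T4⁻¹) / 2 := by
  rw [A4, A1, map_fA]; rfl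
theorem B4_eq (i : C₀) : B4 i = (T4 - T4⁻¹) / (2 * i4 i) := by
  rw [B4, B1, map_fB]; rfl

/-- `β` -/
def β4 : M4 C₀ := ⟨x4 + A4, 1 + T4⁻¹⟩
/-- `γ` -/
def γ4 (i : C₀) : M4 C₀ := ⟨x4 + B4 i, 1 - i4 i * T4⁻¹⟩

theorem n3_eq (i : C₀) :
    (RatFunc.C (n3 i) : K4 C₀) * fNβ x4 g4 A4 = fNγ (i4 i) x4 g4 (B4 i) := by
  have h1 : fA (T4 : K4 C₀) = A4 := by rw [A4, A1, map_fA]; rfl
  have h2 : fB (i4 i) (T4 : K4 C₀) = B4 i := by rw [B4, B1, map_fB]; rfl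
  have h3 : (RatFunc.C (n3 i) : K4 C₀) = fn (i4 i) T4 x4 g4 := by rw [n3, map_fn]; rfl
  have h4 : fNβ (x4 : K4 C₀) g4 A4 ≠ 0 := by
    have h5 := fNβ_ne_zero (A1 : K1 C₀)
    have h6 := (map_ne_zero (RatFunc.C : K3 C₀ →+* K4 C₀)).2 h5
    rw [map_fNβ] at h6
    exact h6
  rw [h3, fn, h1, h2, div_mul_cancel₀ _ h4]

theorem τ4_A4 : τ4 (A4 : K4 C₀) = -A4 := by rw [A4, τ4_c14, τ1_A1, map_neg]
theorem ς4_A4 (i : C₀) : ς4 i (A4 : K4 C₀) = A4 := by rw [A4, ς4_c14, ς1_A1]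
theorem τ4_B4 (i : C₀) : τ4 (B4 i) = -B4 i := by rw [B4, τ4_c14, τ1_B1, map_neg]
theorem ς4_B4 (i : C₀) : ς4 i (B4 i) = -B4 i := by rw [B4, ς4_c14, ς1_B1, map_neg]
theorem τ4_T4 : τ4 (T4 : K4 C₀) = -T4 := by rw [T4, τ4_c14, τ1_T1, map_neg]
theorem ς4_T4 (i : C₀) : ς4 i (T4 : K4 C₀) = T4⁻¹ := by rw [T4, ς4_c14, ς1_T1, map_inv₀]

theorem θ4_eq : (θ4 : K4 C₀) = g4 * T4 := rfl

/-- product of the four conjugates of `⟨a, b⟩` -/
theorem norm4 {i : C₀} (hi : i * i = -1) (w : M4 C₀) :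
    w * r4 hi w * r4 hi (r4 hi w) * r4 hi (r4 hi (r4 hi w)) =
      QExt.of SM ((w.re ^ 2 - θ4 * w.im ^ 2) * ((τ4 w.re) ^ 2 + θ4 * (τ4 w.im) ^ 2)) := by
  have h := i4_sq hi
  have e : r4 hi (r4 hi w) = ⟨w.re, -w.im⟩ := QExt.ext (r4r4_re hi w) (r4r4_im hi w)
  rw [e]
  ext
  · simp only [QExt.mul_re, QExt.mul_im, SMφ, SMb, r4_re, r4_im, QExt.of_re, map_neg]
    linear_combination (-(w.re ^ 2 - θ4 * w.im ^ 2) * θ4 * (τ4 w.im) ^ 2) * h
  · simp only [QExt.mul_re, QExt.mul_im, SMφ, SMb, r4_re, r4_im, QExt.of_im, map_neg]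
    ring

theorem β4_norm : (((β4 : M4 C₀).re ^ 2 - θ4 * (β4 : M4 C₀).im ^ 2) *
    ((τ4 (β4 : M4 C₀).re) ^ 2 + θ4 * (τ4 (β4 : M4 C₀).im) ^ 2)) = fNβ x4 g4 A4 := by
  have h := T4_ne_zero (C₀ := C₀)
  have h2 : (2 : K4 C₀) ≠ 0 := by
    have : CharZero (K4 C₀) := charZero_of_injective_ringHom
      ((c14 (C₀ := C₀)).comp (RatFunc.C (K := C₀))).injective
    exact two_ne_zero
  have hA : (T4 + T4⁻¹ : K4 C₀) = 2 * A4 := by rw [A4_eq]; field_simp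
  have e1 : (θ4 : K4 C₀) * (1 + T4⁻¹) ^ 2 = 2 * g4 * (A4 + 1) := by
    have : (θ4 : K4 C₀) * (1 + T4⁻¹) ^ 2 = g4 * ((T4 + T4⁻¹) + 2) := by
      rw [θ4_eq]; field_simp; ring
    rw [this, hA]; ring
  have e2 : (θ4 : K4 C₀) * (1 - T4⁻¹) ^ 2 = 2 * g4 * (A4 - 1) := by
    have : (θ4 : K4 C₀) * (1 - T4⁻¹) ^ 2 = g4 * ((T4 + T4⁻¹) - 2) := by
      rw [θ4_eq]; field_simp; ring
    rw [this, hA]; ring
  simp only [β4, map_add, map_one, map_inv₀, τ4_x4, τ4_A4, τ4_T4, inv_neg, ← sub_eq_add_neg]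
  rw [e1, e2, fNβ]

theorem γ4_norm {i : C₀} (hi : i * i = -1) : (((γ4 i).re ^ 2 - θ4 * (γ4 i).im ^ 2) *
    ((τ4 (γ4 i).re) ^ 2 + θ4 * (τ4 (γ4 i).im) ^ 2)) = fNγ (i4 i) x4 g4 (B4 i) := by
  have h := T4_ne_zero (C₀ := C₀)
  have h2 : (2 : K4 C₀) ≠ 0 := by
    have : CharZero (K4 C₀) := charZero_of_injective_ringHom
      ((c14 (C₀ := C₀)).comp (RatFunc.C (K := C₀))).injective
    exact two_ne_zero
  have hi4 := i4_sq hi
  have hi0 : i4 i ≠ 0 := by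
    intro h0
    rw [h0] at hi4
    simp at hi4
  have hB : (T4 - T4⁻¹ : K4 C₀) = 2 * i4 i * B4 i := by rw [B4_eq]; field_simp
  have e1 : (θ4 : K4 C₀) * (1 - i4 i * T4⁻¹) ^ 2 = 2 * i4 i * g4 * (B4 i - 1) := by
    have : (θ4 : K4 C₀) * (1 - i4 i * T4⁻¹) ^ 2 = g4 * ((T4 - T4⁻¹) - 2 * i4 i) := by
      rw [θ4_eq]; field_simp; linear_combination g4 * hi4
    rw [this, hB]; ring
  have e2 : (θ4 : K4 C₀) * (1 + i4 i * T4⁻¹) ^ 2 = 2 * i4 i * g4 * (B4 i + 1) := by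
    have : (θ4 : K4 C₀) * (1 + i4 i * T4⁻¹) ^ 2 = g4 * ((T4 - T4⁻¹) + 2 * i4 i) := by
      rw [θ4_eq]; field_simp; linear_combination g4 * hi4
    rw [this, hB]; ring
  have e3 : τ4 (1 - i4 i * T4⁻¹) = 1 + i4 i * T4⁻¹ := by
    rw [map_sub, map_one, map_mul, map_inv₀, τ4_i4, τ4_T4, inv_neg]; ring
  simp only [γ4, map_add, τ4_x4, τ4_B4, ← sub_eq_add_neg]
  rw [e3, e1, e2, fNγ]

theorem two_ne_zero4 : (2 : K4 C₀) ≠ 0 := by
  have : CharZero (K4 C₀) := charZero_of_injective_ringHom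
    ((c14 (C₀ := C₀)).comp (RatFunc.C (K := C₀))).injective
  exact two_ne_zero

/-- The concrete datum. -/
def datum {i : C₀} (hi : i * i = -1) : @CData (M4 C₀) (fieldM4 hi) :=
  letI := fieldM4 hi
  { r := r4 hi
    s := s4 i
    r4 := fun x => by
      ext
      · rw [r4r4_re, r4r4_re]
      · rw [r4r4_im, r4r4_im, neg_neg]
    s2 := fun x => by
      ext
      · rw [s4_re, s4_re, ς4_ς4]
      · have h := T4_ne_zero (C₀ := C₀)
        rw [s4_im, s4_im, map_mul, ς4_ς4]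
        change x.im * ς4 i T4⁻¹ * T4⁻¹ = x.im
        rw [map_inv₀, ς4_T4]
        field_simp
    sr := fun x => by
      ext
      · rw [r4r4_re, s4_re, r4_re, r4_re, s4_re, τ4_ς4]
      · rw [r4r4_im, s4_im, r4_im, r4_im, s4_im, map_mul, map_mul, ς4_i4, τ4_ς4]
        change _ = -(ς4 i (τ4 x.im) * τ4 T4⁻¹ * i4 i)
        rw [map_inv₀, τ4_T4, inv_neg]
        change _ * T4⁻¹ = _
        ring
    i := QExt.of SM (i4 i)
    T := QExt.of SM T4
    β := β4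
    γ := γ4 i
    Y := QExt.of SM Y4
    ii := by rw [← map_mul, i4_sq hi, map_neg, map_one]
    ri := by rw [r4, QExt.ext'_of, τ4_i4]
    si := by rw [s4, QExt.ext'_of, ς4_i4]
    rT := by rw [r4, QExt.ext'_of, τ4_T4, map_neg]
    sT := by
      rw [s4, QExt.ext'_of, ς4_T4]
      apply eq_inv_of_mul_eq_one_left
      rw [← map_mul, inv_mul_cancel₀ T4_ne_zero, map_one]
    T0 := fun h => T4_ne_zero (C₀ := C₀)
      (QExt.of_injective (S := SM (C₀ := C₀)) (h.trans (map_zero (QExt.of SM)).symm))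
    T4 := fun h => T4_pow (C₀ := C₀) (QExt.of_injective (S := SM (C₀ := C₀))
      (by rw [map_pow, map_one]; exact h))
    sβ := by
      have h := T4_ne_zero (C₀ := C₀)
      ext
      · rw [s4_re, β4, map_add, ς4_x4, ς4_A4]
      · rw [s4_im, β4, map_add, map_one, map_inv₀, ς4_T4]
        change (1 + T4⁻¹⁻¹) * T4⁻¹ = _
        field_simp
        ring
    rsγ := by
      have h := T4_ne_zero (C₀ := C₀)
      ext
      · rw [r4_re, s4_re, γ4, map_add, map_add, ς4_x4, ς4_B4, map_neg, τ4_x4, τ4_B4, neg_neg]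
      · rw [r4_im, s4_im, γ4]
        change τ4 (ς4 i (1 - i4 i * T4⁻¹) * T4⁻¹) * i4 i = _
        simp only [map_sub, map_mul, map_inv₀, map_one, ς4_i4, ς4_T4, τ4_i4, τ4_T4, inv_inv]
        field_simp
        linear_combination (-T4) * i4_sq hi
    rY := by rw [r4, QExt.ext'_of, τ4_Y4]
    YY := by
      have h1 : QExt.of SM Y4 * s4 i (QExt.of SM Y4) = QExt.of SM (RatFunc.C (n3 i)) := by
        rw [s4, QExt.ext'_of, ← map_mul, ς4_Y4]
      have h2 := norm4 hi β4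
      have h3 := norm4 hi (γ4 i)
      rw [β4_norm] at h2
      rw [γ4_norm hi] at h3
      calc QExt.of SM Y4 * s4 i (QExt.of SM Y4) *
            (β4 * r4 hi β4 * r4 hi (r4 hi β4) * r4 hi (r4 hi (r4 hi β4)))
          = QExt.of SM (RatFunc.C (n3 i)) * QExt.of SM (fNβ x4 g4 A4) := by rw [h1, h2]
        _ = QExt.of SM (fNγ (i4 i) x4 g4 (B4 i)) := by rw [← map_mul, n3_eq]
        _ = _ := h3.symm
    β0 := fun h => by
      have h1 := congrArg QExt.im h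
      have h0 := T4_ne_zero (C₀ := C₀)
      simp only [β4, QExt.zero_im] at h1
      apply T4_pow (C₀ := C₀)
      have h2 : (T4 : K4 C₀) = -1 := by
        field_simp at h1
        linear_combination h1
      rw [h2]; ring
    γ0 := fun h => by
      have h1 := congrArg QExt.im h
      have h0 := T4_ne_zero (C₀ := C₀)
      simp only [γ4, QExt.zero_im] at h1
      apply T4_pow (C₀ := C₀)
      have h2 : (T4 : K4 C₀) = i4 i := by
        field_simp at h1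
        linear_combination h1
      have h3 := i4_sq hi
      rw [h2]
      linear_combination (i4 i * i4 i - 1) * h3
    AN := fun x y h => by
      have h1 := congrArg QExt.re h
      simp only [QExt.mul_re, QExt.mul_im, SMφ, SMb, r4r4_re, r4r4_im, QExt.of_re, QExt.of_im,
        zero_mul, add_zero] at h1
      have h2 := AN4 hi x.re x.im y.re y.im (by linear_combination h1)
      exact ⟨QExt.ext h2.1 h2.2.1, QExt.ext h2.2.2.1 h2.2.2.2⟩
    r2 := ⟨QExt.z SM, fun h => by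
      have h1 := congrArg QExt.im h
      rw [r4r4_im] at h1
      simp only [QExt.z_im] at h1
      apply two_ne_zero4 (C₀ := C₀)
      linear_combination -h1⟩ }

theorem datum_A {i : C₀} (hi : i * i = -1) :
    @CData.A _ (fieldM4 hi) (datum hi) = QExt.of SM A4 := by
  letI := fieldM4 hi
  have h : (QExt.of SM : K4 C₀ →+* M4 C₀) ((T4 + T4⁻¹) / 2) =
      ((QExt.of SM T4) + (QExt.of SM T4)⁻¹) / 2 := by
    rw [map_div₀, map_add, map_inv₀, map_ofNat]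
  rw [A4_eq]
  exact h.symm

theorem datum_B {i : C₀} (hi : i * i = -1) :
    @CData.B _ (fieldM4 hi) (datum hi) = QExt.of SM (B4 i) := by
  letI := fieldM4 hi
  have h : (QExt.of SM : K4 C₀ →+* M4 C₀) ((T4 - T4⁻¹) / (2 * i4 i)) =
      ((QExt.of SM T4) - (QExt.of SM T4)⁻¹) / (2 * QExt.of SM (i4 i)) := by
    rw [map_div₀, map_sub, map_inv₀, map_mul, map_ofNat]
  rw [B4_eq]
  exact h.symm

theorem oddB {i : C₀} (hi : i * i = -1) : OddEl ς1 (B1 i) :=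
  ⟨B1_ne_zero hi, RatFunc.C i, by rw [ς1_B1, sq, C_i_sq hi]; ring, by
    rw [ς1_C, C_i_sq hi]⟩

theorem datum_NR {i : C₀} (hi : i * i = -1) :
    @CData.NR _ (fieldM4 hi) (datum hi) := by
  letI := fieldM4 hi
  intro lam hlam h0 c hc m₁ m₂ hm₁ heq
  have hr : r4 hi lam = lam := hlam.1
  have hs : s4 i lam = lam := hlam.2
  have hn1 : r4 hi (r4 hi m₁) = -m₁ := hm₁
  have heq' : lam * c = m₁ ^ 2 + QExt.of SM Y4 * (m₂ * r4 hi (r4 hi m₂)) := heq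
  have t2 := two_ne_zero4 (C₀ := C₀)
  have him : lam.im = 0 := by
    have h1 := congrArg QExt.im (show r4 hi (r4 hi lam) = lam by rw [hr, hr])
    rw [r4r4_im] at h1
    have h2 : (2 : K4 C₀) * lam.im = 0 := by linear_combination -h1
    exact (mul_eq_zero.1 h2).resolve_left t2
  have hre : m₁.re = 0 := by
    have h1 := congrArg QExt.re hn1
    rw [r4r4_re, QExt.neg_re] at h1
    have h2 : (2 : K4 C₀) * m₁.re = 0 := by linear_combination h1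
    exact (mul_eq_zero.1 h2).resolve_left t2
  have hτ : τ4 lam.re = lam.re := by
    have h1 := congrArg QExt.re hr
    rwa [r4_re] at h1
  have hς : ς4 i lam.re = lam.re := by
    have h1 := congrArg QExt.re hs
    rwa [s4_re] at h1
  have hlam0 : lam.re ≠ 0 := fun h => h0 (QExt.ext h him)
  have hc' : ∃ c₁ : K1 C₀, c = QExt.of SM (c14 c₁) ∧ (c₁ = 1 ∨ c₁ = A1 ∨ OddEl ς1 c₁) := by
    rcases hc with hc | hc | hc | hc | hc
    · exact ⟨1, by rw [hc, map_one, map_one], Or.inl rfl⟩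
    · exact ⟨A1, by rw [hc, datum_A]; rfl, Or.inr (Or.inl rfl)⟩
    · exact ⟨B1 i, by rw [hc, datum_B]; rfl, Or.inr (Or.inr (oddB hi))⟩
    · refine ⟨B1 i * A1, ?_, Or.inr (Or.inr ((oddB hi).mul_ev
        (evEl_of_fixed A1_ne_zero ς1_A1)))⟩
      rw [hc, datum_A, datum_B, mul_comm, map_mul, map_mul]
      rfl
    · refine ⟨B1 i * A1 * T1, ?_, Or.inr (Or.inr (((oddB hi).mul_ev
        (evEl_of_fixed A1_ne_zero ς1_A1)).mul_ev ⟨T1_ne_zero, T1⁻¹, ?_, ?_⟩))⟩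
      · rw [hc, datum_A, datum_B, map_mul, map_mul, map_mul, map_mul, mul_comm (QExt.of SM A4)]
        rfl
      · have := T1_ne_zero (C₀ := C₀)
        rw [ς1_T1]; field_simp
      · have := T1_ne_zero (C₀ := C₀)
        rw [map_inv₀, ς1_T1]; field_simp
  obtain ⟨c₁, rfl, hc₁⟩ := hc'
  have key : lam.re * c14 c₁ =
      θ4 * m₁.im ^ 2 + Y4 * m₂.re ^ 2 - θ4 * Y4 * m₂.im ^ 2 := by
    have h1 := congrArg QExt.re heq'
    simp only [sq, QExt.mul_re, QExt.mul_im, QExt.add_re, SMφ, SMb, r4r4_re, r4r4_im, QExt.of_re,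
      QExt.of_im, zero_mul, mul_zero, add_zero, hre, him, zero_add] at h1
    linear_combination h1
  rcases hc₁ with rfl | rfl | hc₁
  · rw [map_one, mul_one] at key
    exact NR4_one hi lam.re hlam0 hτ hς _ _ _ key
  · exact NR4_A hi lam.re hlam0 hτ hς _ _ _ key
  · exact NR4_B hi lam.re hlam0 hτ hς c₁ hc₁ _ _ _ key

theorem charZero_M4 {i : C₀} (hi : i * i = -1) : 
    letI := fieldM4 hi
    CharZero (M4 C₀) := by
  letI := fieldM4 hi
  have : CharZero (K4 C₀) := charZero_of_injective_ringHom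
    ((c14 (C₀ := C₀)).comp (RatFunc.C (K := C₀))).injective
  exact charZero_of_injective_ringHom (QExt.of SM : K4 C₀ →+* M4 C₀).injective

end

end W_bec7e1
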