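import Mathlib
import Pool.Agent.W_bec7e1.Laurent

/-!
# `M((t)) / k((t))` is Galois with the group of `M / k`
-/

namespace W_bec7e1

open HahnSeries

/-- `M((t))` as an algebra over `k((t))`. -/
@[reducible] noncomputable def laurentAlgebra (k M : Type) [Field k] [Field M] [Algebra k M] :
    Algebra (LaurentSeries k) (LaurentSeries M) := (lmap (algebraMap k M)).toAlgebra

/-- coefficientwise action of the Galois group -/
@[reducible] noncomputable def laurentAction (k M : Type) [Field k] [Field M] [Algebra k M] :
    MulSemiringAction (M ≃ₐ[k] M) (LaurentSeries M) where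
  smul g x := lmap ((g : M ≃+* M) : M →+* M) x
  one_smul x := by
    show lmap _ x = x
    ext n; simp
  mul_smul g h x := by
    show lmap _ x = lmap _ (lmap _ x)
    ext n; simp
  smul_zero g := map_zero _
  smul_add g := map_add _
  smul_one g := map_one _
  smul_mul g := map_mul _

theorem laurent_galois (k M : Type) [Field k] [Field M] [Algebra k M] [FiniteDimensional k M]
    [IsGalois k M] :
    letI := laurentAlgebra k M
    FiniteDimensional (LaurentSeries k) (LaurentSeries M) ∧
      IsGalois (LaurentSeries k) (LaurentSeries M) ∧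
      Module.finrank (LaurentSeries k) (LaurentSeries M) = Module.finrank k M ∧
      Nonempty ((LaurentSeries M ≃ₐ[LaurentSeries k] LaurentSeries M) ≃* (M ≃ₐ[k] M)) := by
  let _ := laurentAlgebra k M
  let _ := laurentAction k M
  have halg : ∀ (a : LaurentSeries k) (n : ℤ),
      (algebraMap (LaurentSeries k) (LaurentSeries M) a).coeff n = algebraMap k M (a.coeff n) :=
    fun a n => rfl
  have hG : @IsGaloisGroup (M ≃ₐ[k] M) (LaurentSeries k) (LaurentSeries M) _ _ _ _
      (laurentAction k M) := by
    refine ⟨⟨?_⟩, ⟨?_⟩, ⟨?_⟩⟩
    · intro g h hgh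
      ext a
      have h1 := hgh (single 0 a : LaurentSeries M)
      have h2 : g ((single 0 a : LaurentSeries M).coeff 0) =
          h ((single 0 a : LaurentSeries M).coeff 0) :=
        congrArg (fun s : LaurentSeries M => s.coeff 0) h1
      simpa using h2
    · intro g a x
      show lmap ((g : M ≃+* M) : M →+* M) (lmap (algebraMap k M) a * x) =
        lmap (algebraMap k M) a * lmap ((g : M ≃+* M) : M →+* M) x
      rw [map_mul]
      congr 1
      ext n
      simp
    · intro x hx
      have h1 : ∀ n, ∃ a : k, algebraMap k M a = x.coeff n := by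
        intro n
        have h2 : ∀ g : M ≃ₐ[k] M, g (x.coeff n) = x.coeff n := fun g =>
          congrArg (fun s : LaurentSeries M => s.coeff n) (hx g)
        have h3 := (IsGalois.mem_bot_iff_fixed (F := k) (x.coeff n)).2 h2
        exact IntermediateField.mem_bot.1 h3
      choose a ha using h1
      refine ⟨⟨a, ?_⟩, ?_⟩
      · refine x.isPWO_support.mono ?_
        intro n hn
        rw [Function.mem_support] at hn
        rw [mem_support, ← ha n]
        intro h0
        apply hn
        exact (FaithfulSMul.algebraMap_injective k M) (by rw [h0, map_zero])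
      · ext n
        rw [halg]
        exact ha n
  have hfd : FiniteDimensional (LaurentSeries k) (LaurentSeries M) :=
    @IsGaloisGroup.finiteDimensional (M ≃ₐ[k] M) (LaurentSeries k) (LaurentSeries M) _ _ _ _
      (laurentAction k M) _ hG
  refine ⟨hfd, IsGaloisGroup.isGalois (M ≃ₐ[k] M) (LaurentSeries k) (LaurentSeries M), ?_, ?_⟩
  · rw [← IsGaloisGroup.card_eq_finrank (M ≃ₐ[k] M) (LaurentSeries k) (LaurentSeries M)]
    exact IsGalois.card_aut_eq_finrank k M
  · exact ⟨(IsGaloisGroup.mulEquivAlgEquiv (M ≃ₐ[k] M) (LaurentSeries k) (LaurentSeries M)).symm⟩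

end W_bec7e1
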