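import Mathlib
import Pool.Agent.W_bec7e1.Central
import Pool.Agent.W_bec7e1.LaurentGalois

/-!
# The dihedral maximal subfield `M((s))((t))` of `D`
-/

namespace W_bec7e1

open HahnSeries LData

noncomputable section

namespace LData

variable {k C : Type} [Field k] [Ring C] [Algebra k C]

/-- `N → C` induces `N((t)) → C((t)) ⊕ C((t)) z`. -/
def embHom (S : LData k C) {N : Type} [Field N] [Algebra k N] (e : N →ₐ[k] C) :
    letI := laurentAlgebra k N
    LaurentSeries N →ₐ[LaurentSeries k] QExt S.toQ :=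
  letI := laurentAlgebra k N
  { (QExt.of S.toQ).comp (lmap (e : N →+* C)) with
    commutes' := fun a => by
      change QExt.of S.toQ (lmap (e : N →+* C) (lmap (algebraMap k N) a)) = _
      rw [lmap_comp, algebraMap_eq]
      congr 2
      ext x
      simp }

/-- One step: a Galois extension `N / k` inside `C` gives a Galois extension `N' / k((t))` inside
the level, with the same degree and group. -/
theorem step (S : LData k C) (N : Type) [Field N] [Algebra k N] [FiniteDimensional k N]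
    [IsGalois k N] (e : N →ₐ[k] C) :
    ∃ (N' : Type) (_ : Field N') (_ : Algebra (LaurentSeries k) N'),
      FiniteDimensional (LaurentSeries k) N' ∧
      IsGalois (LaurentSeries k) N' ∧
      Module.finrank (LaurentSeries k) N' = Module.finrank k N ∧
      Nonempty ((N' ≃ₐ[LaurentSeries k] N') ≃* (N ≃ₐ[k] N)) ∧
      Nonempty (N' →ₐ[LaurentSeries k] QExt S.toQ) := by
  obtain ⟨h1, h2, h3, h4⟩ := laurent_galois k N
  exact ⟨LaurentSeries N, inferInstance, laurentAlgebra k N, h1, h2, h3, h4, ⟨embHom S e⟩⟩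

end LData

namespace CData

variable {M : Type} [Field M] [CharZero M] (d : CData M)

/-- The inclusion `M → Q` over `k`. -/
def ofM : M →ₐ[d.k] d.Q := { QExt.of d.SQ with commutes' := fun _ => rfl }

/-- `D` contains a Galois maximal subfield with dihedral group. -/
theorem exists_dihedral : ∃ (K : Type) (_ : Field K) (_ : Algebra d.F K)
    (_ : FiniteDimensional d.F K) (_ : IsGalois d.F K) (_ : K →ₐ[d.F] d.D),
    Module.finrank d.F K = 8 ∧ Nonempty ((K ≃ₐ[d.F] K) ≃* DihedralGroup 4) := by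
  obtain ⟨f1, f2, f3, ⟨f4⟩⟩ := d.M_galois
  obtain ⟨N, iN, a1, g1, g2, g3, ⟨g4⟩, ⟨g5⟩⟩ := LData.step d.S₁ M d.ofM
  obtain ⟨a1', g1', g2', g3', ⟨g4'⟩, ⟨g5'⟩⟩ : ∃ a1' : Algebra d.F₁ N, FiniteDimensional d.F₁ N ∧
      IsGalois d.F₁ N ∧ Module.finrank d.F₁ N = Module.finrank d.k M ∧
      Nonempty ((N ≃ₐ[d.F₁] N) ≃* (M ≃ₐ[d.k] M)) ∧ Nonempty (N →ₐ[d.F₁] d.C₁) :=
    ⟨a1, g1, g2, g3, ⟨g4⟩, ⟨g5⟩⟩
  obtain ⟨N', iN', a2, h1, h2, h3, ⟨h4⟩, ⟨h5⟩⟩ := LData.step d.S₂ N g5'
  refine ⟨N', iN', a2, h1, h2, h5, ?_, ⟨?_⟩⟩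
  · rw [h3, g3', f3]
  · exact (h4.trans g4').trans f4

end CData

end

end W_bec7e1
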