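import Mathlib

/-!
# The groups `G_p = C_{p²} ⋊ C_p`, and `G_2 ≅ D_4`
-/

namespace W_bec7e1

/-- The relators `x ^ (p ^ 2)`, `y ^ p`, `y x y⁻¹ (x ^ (p + 1))⁻¹` (`x`, `y` are the free generators
indexed by `false`, `true`). -/
def relGp (p : ℕ) : Set (FreeGroup Bool) :=
  {FreeGroup.of false ^ (p ^ 2), FreeGroup.of true ^ p,
    FreeGroup.of true * FreeGroup.of false * (FreeGroup.of true)⁻¹ *
      (FreeGroup.of false ^ (p + 1))⁻¹}

/-- `G_p = ⟨x, y | x^(p²) = y^p = 1, y x y⁻¹ = x^(p+1)⟩`. -/
abbrev Gp (p : ℕ) : Type := PresentedGroup (relGp p)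

/-- the map on generators `x ↦ r 1`, `y ↦ sr 0` -/
def genMap : Bool → DihedralGroup 4 := fun b => cond b (DihedralGroup.sr 0) (DihedralGroup.r 1)

theorem genMap_rel : ∀ w ∈ relGp 2, FreeGroup.lift genMap w = 1 := by
  intro w hw
  simp only [relGp, Set.mem_insert_iff, Set.mem_singleton_iff] at hw
  rcases hw with rfl | rfl | rfl
  · simp only [map_pow, FreeGroup.lift_apply_of, genMap]
    decide
  · simp only [map_pow, FreeGroup.lift_apply_of, genMap]
    decide
  · simp only [map_pow, map_mul, map_inv, FreeGroup.lift_apply_of, genMap]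
    decide

/-- `G_2 → D_4` -/
def toD : Gp 2 →* DihedralGroup 4 := PresentedGroup.toGroup genMap_rel

/-- `x` -/
def gx : Gp 2 := PresentedGroup.of false
/-- `y` -/
def gy : Gp 2 := PresentedGroup.of true

theorem gx_pow : gx ^ 4 = 1 := by
  have h : (PresentedGroup.mk (relGp 2)) (FreeGroup.of false ^ (2 ^ 2)) = 1 :=
    PresentedGroup.one_of_mem (by simp [relGp])
  rw [map_pow] at h
  exact h

theorem gy_pow : gy * gy = 1 := by
  have h : (PresentedGroup.mk (relGp 2)) (FreeGroup.of true ^ 2) = 1 :=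
    PresentedGroup.one_of_mem (by simp [relGp])
  rw [map_pow, sq] at h
  exact h

theorem gyx : gy * gx * gy⁻¹ = gx ^ 3 := by
  have h : (PresentedGroup.mk (relGp 2)) (FreeGroup.of true * FreeGroup.of false *
      (FreeGroup.of true)⁻¹ * (FreeGroup.of false ^ (2 + 1))⁻¹) = 1 :=
    PresentedGroup.one_of_mem (by simp [relGp])
  rw [map_mul, map_inv _ (_ ^ _), map_pow, mul_inv_eq_one, map_mul, map_mul, map_inv] at h
  exact h

theorem toD_gx : toD gx = DihedralGroup.r 1 := by
  simp [toD, gx, genMap]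
theorem toD_gy : toD gy = DihedralGroup.sr 0 := by
  simp [toD, gy, genMap]

/-- the inverse map `D_4 → G_2` -/
def fromD : DihedralGroup 4 → Gp 2
  | DihedralGroup.r i => gx ^ i.val
  | DihedralGroup.sr i => gy * gx ^ i.val

theorem gx_gy : gx * gy = gy * gx ^ 3 := by
  have hinv : gy⁻¹ = gy := inv_eq_of_mul_eq_one_left gy_pow
  have h := gyx
  rw [hinv] at h
  rw [← h, ← mul_assoc, ← mul_assoc, gy_pow, one_mul]

theorem gx_mul_gy (n : ℕ) : gx ^ n * gy = gy * gx ^ (3 * n) := by
  induction n with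
  | zero => simp
  | succ n ih =>
    rw [pow_succ, mul_assoc, gx_gy, ← mul_assoc, ih, mul_assoc, ← pow_add]
    congr 2

theorem gx_val (n : ℕ) : gx ^ (n : ZMod 4).val = gx ^ n := by
  rw [ZMod.val_natCast]
  conv_rhs => rw [← Nat.div_add_mod n 4, pow_add, pow_mul, gx_pow, one_pow, one_mul]

theorem gx_val' (i : ZMod 4) (n : ℕ) (h : i = (n : ZMod 4)) : gx ^ i.val = gx ^ n := by
  rw [h, gx_val]

theorem fromD_mul (a b : DihedralGroup 4) : fromD (a * b) = fromD a * fromD b := by
  have e3 : (3 : ZMod 4) = -1 := by decide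
  cases a with
  | r i =>
    cases b with
    | r j =>
      rw [DihedralGroup.r_mul_r]
      simp only [fromD]
      rw [← pow_add]
      exact gx_val' _ _ (by push_cast; simp)
    | sr j =>
      rw [DihedralGroup.r_mul_sr]
      simp only [fromD]
      rw [← mul_assoc, gx_mul_gy, mul_assoc, ← pow_add]
      congr 1
      exact gx_val' _ _ (by push_cast; simp [e3]; ring)
  | sr i =>
    cases b with
    | r j =>
      rw [DihedralGroup.sr_mul_r]
      simp only [fromD]
      rw [mul_assoc, ← pow_add]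
      congr 1
      exact gx_val' _ _ (by push_cast; simp)
    | sr j =>
      rw [DihedralGroup.sr_mul_sr]
      simp only [fromD]
      rw [mul_assoc, ← mul_assoc (gx ^ i.val), gx_mul_gy, mul_assoc gy, ← pow_add, ← mul_assoc,
        gy_pow, one_mul]
      exact gx_val' _ _ (by push_cast; simp [e3]; ring)

/-- the inverse hom `D_4 → G_2` -/
def fromDHom : DihedralGroup 4 →* Gp 2 where
  toFun := fromD
  map_one' := by
    rw [DihedralGroup.one_def]
    simp [fromD]
  map_mul' := fromD_mul

theorem fromD_surj (g : Gp 2) : ∃ d, fromD d = g := by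
  have h : fromDHom.range = ⊤ := by
    rw [eq_top_iff, ← PresentedGroup.closure_range_of (relGp 2), Subgroup.closure_le]
    rintro _ ⟨b, rfl⟩
    cases b with
    | false =>
      refine ⟨DihedralGroup.r 1, ?_⟩
      change gx ^ (1 : ZMod 4).val = gx
      rw [show (1 : ZMod 4).val = 1 from rfl, pow_one]
    | true =>
      refine ⟨DihedralGroup.sr 0, ?_⟩
      change gy * gx ^ (0 : ZMod 4).val = gy
      simp
  have h2 : g ∈ fromDHom.range := by rw [h]; exact Subgroup.mem_top g
  exact h2

theorem toD_fromD (c : DihedralGroup 4) : toD (fromD c) = c := by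
  cases c with
  | r i =>
    simp only [fromD, map_pow, toD_gx]
    revert i; decide
  | sr i =>
    simp only [fromD, map_mul, map_pow, toD_gx, toD_gy]
    revert i; decide

/-- `G_2` is the dihedral group of order 8. -/
theorem Gp_two : Nonempty (Gp 2 ≃* DihedralGroup 4) := by
  refine ⟨MulEquiv.ofBijective toD ⟨?_, fun c => ⟨fromD c, toD_fromD c⟩⟩⟩
  intro a b hab
  obtain ⟨a, rfl⟩ := fromD_surj a
  obtain ⟨b, rfl⟩ := fromD_surj b
  rw [toD_fromD, toD_fromD] at hab
  rw [hab]

end W_bec7e1
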